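import Pool.Agent.H77.HZ.Rot

/-!
# Averaging over a full turn

If `v = e^{iθ} u`, `|u| ∈ {0, 1}`, and `u` is nearly constant in mean over times `h ≤ H = 4π/L`,
`L = log (T/2π)`, then `Re v > 0` on about half of `(T, 2T]`.
-/

namespace Pool.Agent.H77.HZ

open MeasureTheory Set Real

/-- indicator of `η < Re z` -/
noncomputable def Pη (η : ℝ) (z : ℂ) : ℝ := if η < z.re then 1 else 0

lemma Pη_nonneg (η : ℝ) (z : ℂ) : 0 ≤ Pη η z := by unfold Pη; split_ifs <;> norm_num
lemma Pη_le_one (η : ℝ) (z : ℂ) : Pη η z ≤ 1 := by unfold Pη; split_ifs <;> norm_num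
lemma measurable_Pη (η : ℝ) : Measurable (Pη η) := by
  unfold Pη
  exact Measurable.ite (measurableSet_lt measurable_const Complex.measurable_re) measurable_const
    measurable_const

lemma Pη_shift {η w : ℝ} {a b : ℂ} (hab : η + ‖a - b‖ ≤ w) : Pη w b ≤ Pη η a := by
  by_cases hb : w < b.re
  · have ha : η < a.re := by
      have := Complex.abs_re_le_norm (a - b)
      rw [Complex.sub_re] at this
      have h2 := (abs_le.mp this).1
      linarith
    simp only [Pη, hb, ha, if_true]
    exact le_refl _
  · have h3 : Pη w b = 0 := by simp only [Pη, hb, if_false]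
    rw [h3]
    exact Pη_nonneg _ _

lemma Pη_chebyshev {η : ℝ} (hη : 0 < η) (a b : ℂ) : Pη η b - ‖a - b‖ / η ≤ Pη 0 a := by
  by_cases hb : η < b.re
  · by_cases ha : 0 < a.re
    · have : 0 ≤ ‖a - b‖ / η := by positivity
      simp only [Pη, hb, ha, if_true]
      linarith
    · have h1 : 1 ≤ ‖a - b‖ / η := by
        rw [le_div_iff₀ hη, one_mul]
        have := Complex.abs_re_le_norm (a - b)
        rw [Complex.sub_re] at this
        have h2 := (abs_le.mp this).1
        push Not at ha
        linarith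
      simp only [Pη, hb, ha, if_true, if_false]
      linarith
  · have : 0 ≤ ‖a - b‖ / η := by positivity
    have h2 := Pη_nonneg 0 a
    have h3 : Pη η b = 0 := by simp only [Pη, hb, if_false]
    linarith

lemma period_cos {η : ℝ} (hη : 0 ≤ η) (hη1 : η ≤ 1) (α : ℝ) :
    π * (1 - η) ≤ ∫ ψ in α..(α + 2 * π), (if η < Real.cos ψ then (1:ℝ) else 0) := by
  have hπ := Real.pi_pos
  have hper : Function.Periodic (fun ψ : ℝ => if η < Real.cos ψ then (1:ℝ) else 0) (2 * π) := by
    intro ψ
    show (if η < Real.cos (ψ + 2 * π) then (1:ℝ) else 0) = _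
    rw [Real.cos_add_two_pi]
  rw [hper.intervalIntegral_add_eq α (-π)]
  have e1 : -π + 2 * π = π := by ring
  rw [e1, intervalIntegral.integral_of_le (by linarith)]
  set β := Real.arccos η with hβ
  have hβπ : β ≤ π := Real.arccos_le_pi η
  have hβ0 : 0 ≤ β := Real.arccos_nonneg η
  have hm : Measurable fun ψ : ℝ => if η < Real.cos ψ then (1:ℝ) else 0 :=
    Measurable.ite (measurableSet_lt measurable_const Real.measurable_cos) measurable_const
      measurable_const
  have hint : IntegrableOn (fun ψ : ℝ => if η < Real.cos ψ then (1:ℝ) else 0) (Ioc (-π) π) := by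
    apply Integrable.of_bound hm.aestronglyMeasurable 1
    refine Filter.Eventually.of_forall fun ψ => ?_
    rw [Real.norm_eq_abs]
    split_ifs <;> simp
  have h1 : ∫ ψ in Ioo (-β) β, (1:ℝ) ≤
      ∫ ψ in Ioc (-π) π, (if η < Real.cos ψ then (1:ℝ) else 0) := by
    have h2 : ∫ ψ in Ioo (-β) β, (1:ℝ) =
        ∫ ψ in Ioo (-β) β, (if η < Real.cos ψ then (1:ℝ) else 0) := by
      apply setIntegral_congr_fun measurableSet_Ioo
      intro ψ hψ
      show (1:ℝ) = if η < Real.cos ψ then (1:ℝ) else 0
      have h3 : η < Real.cos ψ := by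
        rw [← Real.cos_abs, ← Real.cos_arccos (by linarith : -1 ≤ η) hη1]
        apply Real.cos_lt_cos_of_nonneg_of_le_pi (abs_nonneg _) hβπ
        rw [abs_lt]
        exact ⟨hψ.1, hψ.2⟩
      simp [h3]
    rw [h2]
    apply setIntegral_mono_set hint
    · exact Filter.Eventually.of_forall fun ψ => by
        show (0:ℝ) ≤ if η < Real.cos ψ then (1:ℝ) else 0
        split_ifs <;> norm_num
    · refine Filter.Eventually.of_forall fun x hx => ?_
      exact ⟨by linarith [hx.1], by linarith [hx.2]⟩
  refine le_trans ?_ h1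
  rw [setIntegral_const, measureReal_def, Real.volume_Ioo, ENNReal.toReal_ofReal (by linarith),
    smul_eq_mul, mul_one]
  have h4 : Real.arcsin η ≤ π / 2 * η := by
    have h5 := Real.mul_le_sin (x := Real.arcsin η) (Real.arcsin_nonneg.mpr hη)
      (Real.arcsin_le_pi_div_two η)
    rw [Real.sin_arcsin (by linarith) hη1] at h5
    have h6 : Real.arcsin η = π / 2 * (2 / π * Real.arcsin η) := by field_simp
    rw [h6]
    gcongr
  have h7 : β = π / 2 - Real.arcsin η := by rw [hβ, Real.arccos_eq_pi_div_two_sub_arcsin]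
  rw [h7]
  linarith

/-- the mean over a full turn -/
lemma full_turn {η L : ℝ} (hη : 0 ≤ η) (hη1 : η ≤ 1) (hL : 0 < L) {z : ℂ} (hz : z = 0 ∨ ‖z‖ = 1) :
    (4 * π / L) * ((1 - η) / 2) * ‖z‖ ≤ ∫ h in Ioc 0 (4 * π / L),
      Pη η (Complex.exp (Complex.I * ((h / 2 * L : ℝ) : ℂ)) * z) := by
  have hπ := Real.pi_pos
  rcases hz with hz | hz
  · rw [hz, norm_zero, mul_zero]
    exact integral_nonneg fun h => Pη_nonneg _ _
  · rw [hz, mul_one]
    set α := Complex.arg z with hα
    have hzα : z = Complex.exp (Complex.I * α) := by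
      have := (Complex.norm_mul_exp_arg_mul_I z).symm
      rw [hz, Complex.ofReal_one, one_mul, ← hα] at this
      rw [mul_comm]
      exact this
    have h1 : ∀ h : ℝ, Pη η (Complex.exp (Complex.I * ((h / 2 * L : ℝ) : ℂ)) * z) =
        if η < Real.cos ((L / 2) * h + α) then (1:ℝ) else 0 := by
      intro h
      unfold Pη
      have e : Complex.exp (Complex.I * ((h / 2 * L : ℝ) : ℂ)) * z =
          Complex.exp ((((L / 2) * h + α : ℝ) : ℂ) * Complex.I) := by
        nth_rewrite 1 [hzα]
        rw [← Complex.exp_add]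
        congr 1
        push_cast; ring
      rw [e, Complex.exp_ofReal_mul_I_re]
    simp_rw [h1]
    rw [← intervalIntegral.integral_of_le (by positivity)]
    have h2 := intervalIntegral.integral_comp_mul_add (a := 0) (b := 4 * π / L)
      (fun ψ : ℝ => if η < Real.cos ψ then (1:ℝ) else 0) (c := L / 2) (by positivity) α
    rw [h2]
    have e1 : L / 2 * 0 + α = α := by ring
    have e2 : L / 2 * (4 * π / L) + α = α + 2 * π := by field_simp; ring
    rw [e1, e2, smul_eq_mul]
    have h3 := period_cos hη hη1 α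
    calc 4 * π / L * ((1 - η) / 2) = (L / 2)⁻¹ * (π * (1 - η)) := by field_simp; ring
      _ ≤ _ := by gcongr

lemma integrableOn_Pη {v : ℝ → ℂ} (hv : Measurable v) (η a b : ℝ) :
    IntegrableOn (fun t => Pη η (v t)) (Ioc a b) := by
  apply Integrable.of_bound ((measurable_Pη η).comp hv).aestronglyMeasurable 1
  refine Filter.Eventually.of_forall fun t => ?_
  show ‖Pη η (v t)‖ ≤ 1
  rw [Real.norm_eq_abs, abs_of_nonneg (Pη_nonneg _ _)]
  exact Pη_le_one _ _

/-- **Averaging.** -/
theorem avg_lower {u : ℝ → ℂ} (hum : Measurable u) (hu : ∀ t, u t = 0 ∨ ‖u t‖ = 1) {T : ℝ}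
    (hT : 48 ≤ T) (hH : 4 * π / Real.log (T / (2 * π)) ≤ 1) {W : ℝ → ℝ} {D κ η : ℝ} (hη : 0 ≤ η)
    (hWi : IntegrableOn W (Ioc T (2 * T))) (hW0 : ∀ t, 0 ≤ W t)
    (hW : ∀ h ∈ Icc (0:ℝ) (4 * π / Real.log (T / (2 * π))), ∀ t, ‖u (t + h) - u t‖ ≤ W t)
    (hD : ∫ t in Ioc T (2 * T), W t ≤ D)
    (hκ : ∫ t in Ioc T (2 * T), (1 - ‖u t‖) ≤ κ) :
    T / 2 - κ / 2 - η / 2 * T - 4 * π / Real.log (T / (2 * π)) -
      (D + 4 * π / Real.log (T / (2 * π)) * T) / 2 ≤
      ∫ t in Ioc T (2 * T), Pη η (eTh t * u t) := by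
  have hπ := Real.pi_pos
  have hπ4 := Real.pi_lt_four
  have hT0 : 0 < T := by linarith
  have hTπ : 1 < T / (2 * π) := by
    rw [lt_div_iff₀ (by positivity)]; linarith
  set L := Real.log (T / (2 * π)) with hL
  have hL0 : 0 < L := Real.log_pos hTπ
  set H := 4 * π / L with hHdef
  have hH0 : 0 < H := by positivity
  have hule : ∀ t, ‖u t‖ ≤ 1 := by
    intro t
    rcases hu t with h | h
    · rw [h, norm_zero]; norm_num
    · rw [h]
  set v : ℝ → ℂ := fun t => eTh t * u t with hv
  have hvm : Measurable v := measurable_eTh.mul hum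
  have hvn : ∀ t, ‖v t‖ = ‖u t‖ := by
    intro t
    show ‖eTh t * u t‖ = _
    rw [norm_mul, norm_eTh, one_mul]
  have hv01 : ∀ t, v t = 0 ∨ ‖v t‖ = 1 := by
    intro t
    rcases hu t with h | h
    · left; show eTh t * u t = 0; rw [h, mul_zero]
    · right; rw [hvn, h]
  set J : ℝ := ∫ t in Ioc T (2 * T), Pη η (v t) with hJ
  have hPm : Measurable fun t => Pη η (v t) := (measurable_Pη η).comp hvm
  have hPi : ∀ a b : ℝ, IntervalIntegrable (fun t => Pη η (v t)) volume a b := by
    intro a b
    apply IntervalIntegrable.mono_fun (f := fun _ => (1:ℝ)) intervalIntegrable_const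
    · exact hPm.aestronglyMeasurable
    · refine Filter.Eventually.of_forall fun t => ?_
      show ‖Pη η (v t)‖ ≤ ‖(1:ℝ)‖
      rw [Real.norm_eq_abs, abs_of_nonneg (Pη_nonneg _ _), norm_one]
      exact Pη_le_one _ _
  have hJint : J = ∫ t in T..(2 * T), Pη η (v t) := by
    rw [intervalIntegral.integral_of_le (by linarith)]
  -- step 1
  have step1 : ∀ h ∈ Icc (0:ℝ) H, ∫ t in Ioc T (2 * T), Pη η (v (t + h)) ≤ J + H := by
    intro h hh
    rw [← intervalIntegral.integral_of_le (by linarith),
      intervalIntegral.integral_comp_add_right (fun t => Pη η (v t)) h]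
    have e1 := intervalIntegral.integral_add_adjacent_intervals (hPi T (T + h)) (hPi (T + h) (2 * T + h))
    have e2 := intervalIntegral.integral_add_adjacent_intervals (hPi T (2 * T)) (hPi (2 * T) (2 * T + h))
    have n1 : 0 ≤ ∫ t in T..(T + h), Pη η (v t) :=
      intervalIntegral.integral_nonneg (by linarith [hh.1]) fun t _ => Pη_nonneg _ _
    have n2 : ∫ t in (2 * T)..(2 * T + h), Pη η (v t) ≤ h := by
      have := intervalIntegral.integral_mono_on (a := 2 * T) (b := 2 * T + h) (by linarith [hh.1])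
        (hPi _ _) (g := fun _ => (1:ℝ)) intervalIntegrable_const (fun t _ => Pη_le_one _ _)
      refine this.trans (le_of_eq ?_)
      simp
    rw [hJint]
    linarith [hh.2]
  -- step 2
  set S : ℝ → ℝ → ℝ := fun h t => Pη η (v (t + h)) with hS
  have hSm : Measurable (Function.uncurry S) := by
    have m2 : Measurable fun p : ℝ × ℝ => v (p.2 + p.1) :=
      hvm.comp (measurable_snd.add measurable_fst)
    exact (measurable_Pη η).comp m2
  have hSb : ∀ h t, ‖S h t‖ ≤ 1 := by
    intro h t
    rw [Real.norm_eq_abs, abs_of_nonneg (Pη_nonneg _ _)]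
    exact Pη_le_one _ _
  have hSi : Integrable (Function.uncurry S)
      ((volume.restrict (Ioc 0 H)).prod (volume.restrict (Ioc T (2 * T)))) := by
    apply Integrable.of_bound hSm.aestronglyMeasurable 1
    exact Filter.Eventually.of_forall fun p => hSb p.1 p.2
  have step2 : ∫ h in Ioc 0 H, ∫ t in Ioc T (2 * T), S h t ≤ H * (J + H) := by
    have h1 : ∫ h in Ioc 0 H, ∫ t in Ioc T (2 * T), S h t ≤ ∫ _h in Ioc 0 H, (J + H) := by
      apply setIntegral_mono_on hSi.integral_prod_left (integrable_const _) measurableSet_Ioc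
      intro h hh
      exact step1 h ⟨hh.1.le, hh.2⟩
    rw [setIntegral_const, measureReal_def, Real.volume_Ioc, sub_zero,
      ENNReal.toReal_ofReal hH0.le, smul_eq_mul] at h1
    exact h1
  -- step 3
  have step3 : ∀ t ∈ Ioc T (2 * T), H * (‖u t‖ / 2 - (η + W t + H) / 2) ≤
      ∫ h in Ioc 0 H, S h t := by
    intro t ht
    have hSt : IntegrableOn (fun h => S h t) (Ioc 0 H) := by
      apply Integrable.of_bound _ 1
      · exact Filter.Eventually.of_forall fun h => hSb h t
      · exact (hSm.comp (measurable_id.prodMk measurable_const)).aestronglyMeasurable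
    have hw0 : 0 ≤ η + W t + H := by linarith [hW0 t]
    by_cases hw1 : η + W t + H ≤ 1
    · have h1 := full_turn (L := L) hw0 hw1 hL0 (hv01 t)
      rw [hvn] at h1
      have h2 : H * (‖u t‖ / 2 - (η + W t + H) / 2) ≤ H * ((1 - (η + W t + H)) / 2) * ‖u t‖ := by
        rw [mul_assoc]
        apply mul_le_mul_of_nonneg_left _ hH0.le
        have := hule t
        nlinarith
      refine h2.trans (h1.trans ?_)
      apply setIntegral_mono_on _ hSt measurableSet_Ioc
      · intro h hh
        apply Pη_shift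
        have h3 : ‖v (t + h) - Complex.exp (Complex.I * ((h / 2 * L : ℝ) : ℂ)) * v t‖ ≤
            W t + H := by
          have e : v (t + h) - Complex.exp (Complex.I * ((h / 2 * L : ℝ) : ℂ)) * v t =
              eTh (t + h) * (u (t + h) - u t) + (eTh (t + h) -
                Complex.exp (Complex.I * ((h / 2 * L : ℝ) : ℂ)) * eTh t) * u t := by
            show eTh (t + h) * u (t + h) - _ * (eTh t * u t) = _
            ring
          rw [e]
          refine (norm_add_le _ _).trans ?_
          rw [norm_mul, norm_mul, norm_eTh, one_mul]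
          have h4 := eTh_shift hT ht.1.le ht.2 hh.1.le (hh.2.trans hH)
          have h5 : ‖eTh (t + h) - Complex.exp (Complex.I * ((h / 2 * L : ℝ) : ℂ)) * eTh t‖ *
              ‖u t‖ ≤ h * 1 := mul_le_mul h4 (hule t) (norm_nonneg _) hh.1.le
          have h6 := hW h ⟨hh.1.le, hh.2⟩ t
          linarith [hh.2]
        linarith
      · apply Integrable.of_bound _ 1
        · refine Filter.Eventually.of_forall fun h => ?_
          rw [Real.norm_eq_abs, abs_of_nonneg (Pη_nonneg _ _)]
          exact Pη_le_one _ _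
        · apply Measurable.aestronglyMeasurable
          refine (measurable_Pη _).comp (Measurable.mul ?_ measurable_const)
          apply Continuous.measurable
          fun_prop
    · push Not at hw1
      have h2 : H * (‖u t‖ / 2 - (η + W t + H) / 2) ≤ 0 := by
        have := hule t
        apply mul_nonpos_of_nonneg_of_nonpos hH0.le
        linarith
      exact h2.trans (integral_nonneg fun h => Pη_nonneg _ _)
  -- step 4
  have hni : IntegrableOn (fun t => ‖u t‖) (Ioc T (2 * T)) := by
    apply Integrable.of_bound hum.norm.aestronglyMeasurable 1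
    refine Filter.Eventually.of_forall fun t => ?_
    rw [norm_norm]; exact hule t
  have hvol : volume.real (Ioc T (2 * T)) = T := by
    rw [measureReal_def, Real.volume_Ioc, ENNReal.toReal_ofReal (by linarith)]
    ring
  have step4 : H * ((T - κ) / 2 - (η * T + D + H * T) / 2) ≤
      ∫ h in Ioc 0 H, ∫ t in Ioc T (2 * T), S h t := by
    rw [integral_integral_swap hSi]
    have hi2 : IntegrableOn (fun t => η + W t + H) (Ioc T (2 * T)) :=
      ((integrable_const _).add hWi).add (integrable_const _)
    have h1 : ∫ t in Ioc T (2 * T), H * (‖u t‖ / 2 - (η + W t + H) / 2) ≤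
        ∫ t in Ioc T (2 * T), ∫ h in Ioc 0 H, S h t := by
      apply setIntegral_mono_on (((hni.div_const 2).sub (hi2.div_const 2)).const_mul _)
        hSi.integral_prod_right measurableSet_Ioc
      exact step3
    refine le_trans ?_ h1
    have hsplit : ∫ t in Ioc T (2 * T), (η + W t + H) =
        T * η + (∫ t in Ioc T (2 * T), W t) + T * H := by
      have hi3 : IntegrableOn (fun t => η + W t) (Ioc T (2 * T)) := (integrable_const _).add hWi
      rw [integral_add hi3 (integrable_const _), integral_add (integrable_const _) hWi,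
        setIntegral_const, setIntegral_const, hvol, smul_eq_mul, smul_eq_mul]
    rw [integral_const_mul, integral_sub (hni.div_const 2) (hi2.div_const 2), integral_div,
      integral_div, hsplit]
    rw [integral_sub (integrable_const _) hni, setIntegral_const, hvol, smul_eq_mul, mul_one] at hκ
    apply mul_le_mul_of_nonneg_left _ hH0.le
    linarith
  have hfin : (T - κ) / 2 - (η * T + D + H * T) / 2 ≤ J + H :=
    le_of_mul_le_mul_left (step4.trans step2) hH0
  linarith

lemma real_eq_integral {v : ℝ → ℂ} (hv : Measurable v) (a b : ℝ) :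
    volume.real {t | t ∈ Ioc a b ∧ 0 < (v t).re} = ∫ t in Ioc a b, Pη 0 (v t) := by
  have hms : MeasurableSet {t | 0 < (v t).re} :=
    measurableSet_lt measurable_const (Complex.measurable_re.comp hv)
  have e1 : (fun t => Pη 0 (v t)) = {t | 0 < (v t).re}.indicator (fun _ => (1:ℝ)) := by
    funext t
    unfold Pη
    by_cases h : 0 < (v t).re
    · rw [if_pos h, indicator_of_mem (by exact h)]
    · rw [if_neg h, indicator_of_notMem (by exact h)]
  rw [e1, setIntegral_indicator hms, setIntegral_const, smul_eq_mul, mul_one]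
  rfl

/-- from lower bounds for both signs to the two-sided statement -/
lemma both_signs {v : ℝ → ℂ} (hv : Measurable v) {T B : ℝ} (hT : 0 ≤ T)
    (h1 : T / 2 - B ≤ ∫ t in Ioc T (2 * T), Pη 0 (v t))
    (h2 : T / 2 - B ≤ ∫ t in Ioc T (2 * T), Pη 0 (-v t)) :
    |volume.real {t | t ∈ Ioc T (2 * T) ∧ 0 < (v t).re} - T / 2| ≤ B ∧
    |volume.real {t | t ∈ Ioc T (2 * T) ∧ (v t).re < 0} - T / 2| ≤ B := by
  rw [← real_eq_integral hv] at h1
  have hneg : Measurable fun t => -v t := hv.neg
  rw [← real_eq_integral hneg] at h2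
  have e : {t | t ∈ Ioc T (2 * T) ∧ 0 < (-v t).re} =
      {t | t ∈ Ioc T (2 * T) ∧ (v t).re < 0} := by
    ext t
    simp only [Set.mem_ofPred_eq]
    rw [Complex.neg_re, neg_pos]
  rw [e] at h2
  have hvm : Measurable fun t => (v t).re := Complex.measurable_re.comp hv
  have m2 : MeasurableSet {t | t ∈ Ioc T (2 * T) ∧ (v t).re < 0} :=
    measurableSet_Ioc.inter (measurableSet_lt hvm measurable_const)
  have hdisj : Disjoint {t | t ∈ Ioc T (2 * T) ∧ 0 < (v t).re}
      {t | t ∈ Ioc T (2 * T) ∧ (v t).re < 0} := by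
    rw [Set.disjoint_left]
    intro t ht ht2
    exact absurd ht.2 (not_lt.mpr ht2.2.le)
  have hfin1 : volume {t | t ∈ Ioc T (2 * T) ∧ 0 < (v t).re} ≠ ⊤ := by
    refine ((measure_mono (fun t ht => ht.1)).trans_lt (?_ : volume (Ioc T (2 * T)) < ⊤)).ne
    rw [Real.volume_Ioc]; exact ENNReal.ofReal_lt_top
  have hfin2 : volume {t | t ∈ Ioc T (2 * T) ∧ (v t).re < 0} ≠ ⊤ := by
    refine ((measure_mono (fun t ht => ht.1)).trans_lt (?_ : volume (Ioc T (2 * T)) < ⊤)).ne
    rw [Real.volume_Ioc]; exact ENNReal.ofReal_lt_top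
  have hunion : volume.real {t | t ∈ Ioc T (2 * T) ∧ 0 < (v t).re} +
      volume.real {t | t ∈ Ioc T (2 * T) ∧ (v t).re < 0} ≤ T := by
    rw [← measureReal_union hdisj m2 hfin1 hfin2]
    have : volume.real (Ioc T (2 * T)) = T := by
      rw [measureReal_def, Real.volume_Ioc, ENNReal.toReal_ofReal (by linarith)]
      ring
    refine le_trans ?_ (le_of_eq this)
    apply measureReal_mono
    · intro t ht
      rcases ht with h | h
      · exact h.1
      · exact h.1
    · rw [Real.volume_Ioc]; exact ENNReal.ofReal_ne_top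
  constructor
  · rw [abs_le]; constructor <;> linarith
  · rw [abs_le]; constructor <;> linarith

end Pool.Agent.H77.HZ
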