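import Pool.Agent.H77.HZ.Moll

/-!
# Energy of a block: `w = e^p`, `y = e^q`, `0 ≤ p < q ≤ (log T)/8`
-/

namespace Pool.Agent.H77.HZ

open MeasureTheory Set Real
open Pool.Agent.PC10

/-- hypotheses on a block -/
structure BlkH (T p q : ℝ) : Prop where
  hT : exp 16 ≤ T
  hp : 0 ≤ p
  hpq : p < q
  hq : q ≤ Real.log T / 8

namespace BlkH
variable {T p q : ℝ} (H : BlkH T p q)
include H

lemma w1 : 1 ≤ exp p := one_le_exp H.hp
lemma wy : exp p < exp q := exp_lt_exp.mpr H.hpq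
lemma dpos : 0 < q - p := sub_pos.mpr H.hpq
lemma q0 : 0 < q := H.hp.trans_lt H.hpq

omit H in
lemma logyw (p q : ℝ) : Real.log (exp q / exp p) = q - p := by
  rw [← exp_sub, Real.log_exp]

lemma B_le : |Bv (exp p) (exp q)| ≤ 8 / (q - p) := by
  have h := abs_Bv_le H.w1 H.wy
  rwa [logyw] at h

lemma dB_le : (q - p) * |Bv (exp p) (exp q)| ≤ 8 := by
  have h := H.B_le
  rwa [le_div_iff₀ H.dpos, mul_comm] at h

lemma dB_sq_le : (q - p) ^ 2 * Bv (exp p) (exp q) ^ 2 ≤ 64 := by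
  have h := H.dB_le
  have h2 : ((q - p) * |Bv (exp p) (exp q)|) ^ 2 ≤ 8 ^ 2 :=
    pow_le_pow_left₀ (mul_nonneg H.dpos.le (abs_nonneg _)) h 2
  rw [mul_pow, sq_abs] at h2
  linarith

lemma sum_le {κ : ℝ} (hκ : 0 < κ) (N : ℕ) :
    (q - p) ^ 2 * ∑ n ∈ Finset.Ioc 0 N, (av (exp p) (exp q) n) ^ 2 * (n:ℝ) ^ (-(1 + κ)) ≤
      (1 + 1 / κ) * (exp (κ * q) * (64 * (1 + κ * q) ^ 2 * (exp 14 * (1 + q)))) := by
  have h := sum_av_sq_le H.w1 H.wy hκ N
  rw [logyw, Real.log_exp] at h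
  have hd := H.dpos
  have h2 := mul_le_mul_of_nonneg_left h (sq_nonneg (q - p))
  refine h2.trans (le_of_eq ?_)
  have e1 : exp q ^ κ = exp (κ * q) := by rw [← exp_mul, mul_comm]
  rw [e1]
  field_simp
  ring

lemma dQ_eq : (q - p) ^ 2 * Qc (exp p) (exp q) = 64 * (exp 14 * (1 + q)) := by
  unfold Qc
  rw [logyw, Real.log_exp]
  have hd := H.dpos
  field_simp
  ring

lemma w_le : exp p ≤ T := by
  have h0 := hT0 H.hT
  calc exp p ≤ exp (Real.log T) := exp_le_exp.mpr (by linarith [hT16 H.hT, H.hpq, H.hq])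
    _ = T := exp_log h0

/-- the small region -/
lemma small {κ : ℝ} (hκ : 0 < κ) (hκ1 : κ ≤ 1) :
    (q - p) ^ 2 * ∫ x in (exp p / 2)..(NT T), Dfun (exp p) (exp q) (rT T) x ^ 2 * x ^ (-2 - κ) ≤
      5000 * exp 16 * (exp (-(p * κ)) * (1 + 1 / κ + q) ^ 2) / T := by
  have hT := H.hT
  have h0 := hT0 hT
  have h1000 := hT1000 hT
  have h16 := hT16 hT
  have hw := H.w1
  have hwy := H.wy
  have hr := one_le_rT hT
  have hr2 := rT_lt_two hT
  have hrN := rT_NT hT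
  have hrT := rT_sub_le' hT
  have hr1 : 0 ≤ rT T - 1 := by linarith
  have hN : (0:ℝ) < NT T := h0.trans_le (le_NT hT)
  have hwN : exp p / 2 ≤ NT T := by
    have e1 := H.w_le
    have := le_NT hT
    linarith
  have hq0 := H.q0
  have hp0 := H.hp
  set κ' : ℝ := κ / (1 + κ * q) with hκ'
  have h1q : 0 < 1 + κ * q := by positivity
  have hκ'0 : 0 < κ' := by positivity
  have hκ'le : κ' ≤ κ := by
    rw [hκ', div_le_iff₀ h1q]
    have : 0 ≤ κ * (κ * q) := by positivity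
    nlinarith
  have hκ'q : κ' * q ≤ 1 := by
    rw [hκ', div_mul_eq_mul_div, div_le_one h1q]
    linarith
  have hκ'inv : 1 / κ' = 1 / κ + q := by
    rw [hκ', one_div_div]
    field_simp
  -- step 1: change of weight
  have hwx0 : 0 < exp p / 2 := by positivity
  have s0 : ∫ x in (exp p / 2)..(NT T), Dfun (exp p) (exp q) (rT T) x ^ 2 * x ^ (-2 - κ) ≤
      (2 * exp 1 * exp (-(p * κ))) *
        ∫ x in (exp p / 2)..(NT T), Dfun (exp p) (exp q) (rT T) x ^ 2 * x ^ (-2 - κ') := by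
    rw [← intervalIntegral.integral_const_mul]
    apply intervalIntegral.integral_mono_on hwN
      (intervalIntegrable_Dfun_sq_rpow hw hwy hr _ hwx0 hN)
      ((intervalIntegrable_Dfun_sq_rpow hw hwy hr _ hwx0 hN).const_mul _)
    intro x hx
    have hx0 : 0 < x := hwx0.trans_le hx.1
    have hsplit : x ^ (-2 - κ) = x ^ (-(κ - κ')) * x ^ (-2 - κ') := by
      rw [← Real.rpow_add hx0]; congr 1; ring
    have h3 : x ^ (-(κ - κ')) ≤ 2 * exp 1 * exp (-(p * κ)) := by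
      calc x ^ (-(κ - κ')) ≤ (exp p / 2) ^ (-(κ - κ')) :=
            Real.rpow_le_rpow_of_nonpos hwx0 hx.1 (by linarith)
        _ = exp p ^ (-(κ - κ')) * 2 ^ (κ - κ') := by
            rw [Real.div_rpow (by linarith) (by norm_num), Real.rpow_neg (x := 2) (by norm_num),
              div_inv_eq_mul]
        _ ≤ exp p ^ (-(κ - κ')) * 2 := by
            gcongr
            calc (2:ℝ) ^ (κ - κ') ≤ 2 ^ (1:ℝ) :=
                  Real.rpow_le_rpow_of_exponent_le (by norm_num) (by linarith)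
              _ = 2 := Real.rpow_one 2
        _ ≤ (exp 1 * exp (-(p * κ))) * 2 := by
            gcongr
            rw [← exp_mul, ← exp_add]
            apply exp_le_exp.mpr
            have : p * κ' ≤ κ' * q := by rw [mul_comm]; gcongr; exact H.hpq.le
            nlinarith
        _ = 2 * exp 1 * exp (-(p * κ)) := by ring
    rw [hsplit]
    calc Dfun (exp p) (exp q) (rT T) x ^ 2 * (x ^ (-(κ - κ')) * x ^ (-2 - κ'))
        ≤ Dfun (exp p) (exp q) (rT T) x ^ 2 * ((2 * exp 1 * exp (-(p * κ))) * x ^ (-2 - κ')) := by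
          gcongr
      _ = _ := by ring
  have hS := energy_small hw hwy hr hr2.le hκ'0.le (hκ'le.trans hκ1) hrN (a := exp p / 2)
    (by linarith) hwN
  have hsum := H.sum_le hκ'0 (NT T + 1)
  have hB := H.dB_sq_le
  have hd2 : 0 ≤ (q - p) ^ 2 := sq_nonneg _
  set E := 1 + 1 / κ + q with hE
  have hk0 : 0 < 1 / κ := by positivity
  have hE1 : 1 + q ≤ E := by rw [hE]; linarith
  have hE2 : 1 + 1 / κ' = E := by rw [hκ'inv, hE]; ring
  have hE0 : 1 ≤ E := by linarith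
  have hsum2 : (1 + 1 / κ') * (exp (κ' * q) * (64 * (1 + κ' * q) ^ 2 * (exp 14 * (1 + q)))) ≤
      256 * exp 15 * E ^ 2 := by
    rw [hE2]
    calc E * (exp (κ' * q) * (64 * (1 + κ' * q) ^ 2 * (exp 14 * (1 + q))))
        ≤ E * (exp 1 * (64 * (1 + 1) ^ 2 * (exp 14 * E))) := by gcongr
      _ = 256 * (exp 1 * exp 14) * E ^ 2 := by ring
      _ = 256 * exp 15 * E ^ 2 := by rw [← exp_add]; norm_num
  have s1 : (q - p) ^ 2 * (4 * Bv (exp p) (exp q) ^ 2 * (rT T - 1) ^ 2 * NT T) ≤ 256 / T := by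
    calc (q - p) ^ 2 * (4 * Bv (exp p) (exp q) ^ 2 * (rT T - 1) ^ 2 * NT T)
        = 4 * ((q - p) ^ 2 * Bv (exp p) (exp q) ^ 2) * (rT T - 1) * ((rT T - 1) * NT T) := by ring
      _ ≤ 4 * 64 * (1 / T) * 1 := by gcongr
      _ = 256 / T := by ring
  have s2 : (q - p) ^ 2 * (8 * (rT T - 1) * ∑ n ∈ Finset.Ioc 0 (NT T + 1),
      av (exp p) (exp q) n ^ 2 * (n:ℝ) ^ (-(1 + κ'))) ≤ 2048 * exp 15 * E ^ 2 / T := by
    calc (q - p) ^ 2 * (8 * (rT T - 1) * ∑ n ∈ Finset.Ioc 0 (NT T + 1),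
          av (exp p) (exp q) n ^ 2 * (n:ℝ) ^ (-(1 + κ')))
        = 8 * (rT T - 1) * ((q - p) ^ 2 * ∑ n ∈ Finset.Ioc 0 (NT T + 1),
          av (exp p) (exp q) n ^ 2 * (n:ℝ) ^ (-(1 + κ'))) := by ring
      _ ≤ 8 * (1 / T) * (256 * exp 15 * E ^ 2) := by
          have h5 := hsum.trans hsum2
          have h6 : 0 ≤ (q - p) ^ 2 * ∑ n ∈ Finset.Ioc 0 (NT T + 1),
            av (exp p) (exp q) n ^ 2 * (n:ℝ) ^ (-(1 + κ')) := by positivity
          gcongr
      _ = _ := by ring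
  have s3 : (q - p) ^ 2 * ∫ x in (exp p / 2)..(NT T), Dfun (exp p) (exp q) (rT T) x ^ 2 *
      x ^ (-2 - κ') ≤ (256 + 2048 * exp 15 * E ^ 2) / T := by
    have h5 := mul_le_mul_of_nonneg_left hS hd2
    rw [mul_add] at h5
    rw [add_div]
    linarith
  have hE15 : 1 ≤ exp 15 * E ^ 2 := by
    have e1 : 1 ≤ exp 15 := one_le_exp (by norm_num)
    have e2 : 1 ≤ E ^ 2 := one_le_pow₀ hE0
    nlinarith
  calc (q - p) ^ 2 * ∫ x in (exp p / 2)..(NT T), Dfun (exp p) (exp q) (rT T) x ^ 2 * x ^ (-2 - κ)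
      ≤ (q - p) ^ 2 * ((2 * exp 1 * exp (-(p * κ))) *
        ∫ x in (exp p / 2)..(NT T), Dfun (exp p) (exp q) (rT T) x ^ 2 * x ^ (-2 - κ')) := by gcongr
    _ = (2 * exp 1 * exp (-(p * κ))) * ((q - p) ^ 2 *
        ∫ x in (exp p / 2)..(NT T), Dfun (exp p) (exp q) (rT T) x ^ 2 * x ^ (-2 - κ')) := by ring
    _ ≤ (2 * exp 1 * exp (-(p * κ))) * ((256 + 2048 * exp 15 * E ^ 2) / T) := by gcongr
    _ ≤ (2 * exp 1 * exp (-(p * κ))) * ((2500 * exp 15 * E ^ 2) / T) := by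
        gcongr
        linarith
    _ = 5000 * (exp 1 * exp 15) * (exp (-(p * κ)) * E ^ 2) / T := by ring
    _ = _ := by rw [← exp_add]; norm_num

omit H in
/-- `x² e^{-x/2} ≤ 3` -/
lemma sq_mul_exp_le {x : ℝ} (hx : 0 ≤ x) : x ^ 2 * exp (-x) ≤ 3 * exp (-(x / 2)) := by
  have h1 : x / 4 ≤ exp (x / 4 - 1) := by
    have := add_one_le_exp (x / 4 - 1); linarith
  have h2 : (x / 4) ^ 2 ≤ exp (x / 4 - 1) ^ 2 := pow_le_pow_left₀ (by linarith) h1 2
  have h3 : exp (x / 4 - 1) ^ 2 = exp (x / 2) * exp (-2) := by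
    rw [← exp_nat_mul, ← exp_add]; congr 1; push_cast; ring
  have h4 : exp (-2:ℝ) ≤ 3 / 16 := by
    have h5 : exp (2:ℝ) = exp 1 * exp 1 := by rw [← exp_add]; norm_num
    have h6 := Real.exp_one_gt_d9
    have h7 : 16 / 3 ≤ exp (2:ℝ) := by rw [h5]; nlinarith
    rw [exp_neg, inv_le_comm₀ (exp_pos _) (by norm_num)]
    linarith
  have h5 : x ^ 2 ≤ 3 * exp (x / 2) := by
    have h6 : 0 < exp (x / 2) := exp_pos _
    nlinarith
  calc x ^ 2 * exp (-x) ≤ 3 * exp (x / 2) * exp (-x) := by gcongr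
    _ = 3 * (exp (x / 2) * exp (-x)) := by ring
    _ = 3 * exp (-(x / 2)) := by rw [← exp_add]; congr 2; ring

/-- `log T ^ 3 * y^4 / T` is bounded -/
lemma y4_le' : Real.log T ^ 3 * (exp q ^ 4 / T) ≤ 48 := by
  have h0 := hT0 H.hT
  have h16 := hT16 H.hT
  have e0 : exp q ^ 4 ≤ exp (Real.log T / 2) := by
    rw [← exp_nat_mul]
    apply exp_le_exp.mpr
    push_cast
    linarith [H.hq]
  have h3 : exp (Real.log T / 2) / T = exp (-(Real.log T / 2)) := by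
    nth_rewrite 2 [← exp_log h0]
    rw [← exp_sub]; congr 1; ring
  have h4 : (Real.log T / 2) ^ 3 / 6 ≤ exp (Real.log T / 2) := by
    have := Real.pow_div_factorial_le_exp (Real.log T / 2) (by linarith) 3
    rw [show Nat.factorial 3 = 6 from rfl] at this
    exact_mod_cast this
  have hL : 0 < Real.log T := by linarith
  calc Real.log T ^ 3 * (exp q ^ 4 / T) ≤ Real.log T ^ 3 * (exp (Real.log T / 2) / T) := by gcongr
    _ ≤ 48 := by
      rw [h3, exp_neg, ← div_eq_mul_inv, div_le_iff₀ (exp_pos _)]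
      nlinarith

/-- the large region -/
lemma large {κ : ℝ} (hκ : 2 / Real.log T ≤ κ) :
    (q - p) ^ 2 * ∫ x in (NT T : ℝ)..(XT T), Dfun (exp p) (exp q) (rT T) x ^ 2 * x ^ (-2 - κ) ≤
      5000 * exp 16 * (exp (-(p * κ)) * (1 + 1 / κ + q) ^ 2) / T := by
  have hT := H.hT
  have h0 := hT0 hT
  have h1000 := hT1000 hT
  have h16 := hT16 hT
  have hL : 0 < Real.log T := by linarith
  have hκ0 : 0 < κ := lt_of_lt_of_le (by positivity) hκ
  have hw := H.w1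
  have hwy := H.wy
  have hr := one_le_rT hT
  have hrT := rT_sub_le' hT
  have hN : (0:ℝ) < NT T := h0.trans_le (le_NT hT)
  have hX := XT_pos hT
  have hNX : (NT T : ℝ) ≤ XT T := by
    unfold XT
    push_cast
    have : (1:ℝ) ≤ 2 ^ JT T := one_le_pow₀ (by norm_num)
    nlinarith
  have hq0 := H.q0
  have hp0 := H.hp
  have hqL := H.hq
  have hpL : p ≤ Real.log T / 8 := H.hpq.le.trans hqL
  have hd := H.dpos
  have hdq : q - p ≤ Real.log T / 8 := by linarith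
  -- the weight
  have s0 : ∫ x in (NT T : ℝ)..(XT T), Dfun (exp p) (exp q) (rT T) x ^ 2 * x ^ (-2 - κ) ≤
      exp (-(κ * Real.log T)) *
        ∫ x in (NT T : ℝ)..(XT T), Dfun (exp p) (exp q) (rT T) x ^ 2 * x ^ (-2 - (0:ℝ)) := by
    rw [← intervalIntegral.integral_const_mul]
    apply intervalIntegral.integral_mono_on hNX
      (intervalIntegrable_Dfun_sq_rpow hw hwy hr _ hN hX)
      ((intervalIntegrable_Dfun_sq_rpow hw hwy hr _ hN hX).const_mul _)
    intro x hx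
    have hx0 : 0 < x := hN.trans_le hx.1
    have hxT : T ≤ x := (le_NT hT).trans hx.1
    have hsplit : x ^ (-2 - κ) = x ^ (-κ) * x ^ (-2 - (0:ℝ)) := by
      rw [← Real.rpow_add hx0]; congr 1; ring
    have h3 : x ^ (-κ) ≤ exp (-(κ * Real.log T)) := by
      calc x ^ (-κ) ≤ T ^ (-κ) := Real.rpow_le_rpow_of_nonpos h0 hxT (by linarith)
        _ = exp (-(κ * Real.log T)) := by rw [Real.rpow_def_of_pos h0]; congr 1; ring
    rw [hsplit]
    calc Dfun (exp p) (exp q) (rT T) x ^ 2 * (x ^ (-κ) * x ^ (-2 - (0:ℝ)))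
        ≤ Dfun (exp p) (exp q) (rT T) x ^ 2 * (exp (-(κ * Real.log T)) * x ^ (-2 - (0:ℝ))) := by
          gcongr
      _ = _ := by ring
  have hLg := energy_large (κ := 0) hw hwy hr le_rfl (by linarith) hrT (le_NT hT) (JT T)
  have hXeq : ((2 ^ JT T * NT T : ℕ) : ℝ) = (XT T : ℝ) := rfl
  rw [hXeq] at hLg
  have hB := H.dB_sq_le
  have hQ := H.dQ_eq
  have hd2 : 0 ≤ (q - p) ^ 2 := sq_nonneg _
  have hd64 : (q - p) ^ 2 ≤ Real.log T ^ 2 / 64 := by
    calc (q - p) ^ 2 ≤ (Real.log T / 8) ^ 2 := by gcongr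
      _ = _ := by ring
  have s1 : (q - p) ^ 2 * ((JT T : ℝ) * (10 * Qc (exp p) (exp q) / T + 20 * exp q ^ 4 / T ^ 2
      + 2 * Bv (exp p) (exp q) ^ 2 / T)) ≤ 1000 * exp 14 * Real.log T ^ 2 / T := by
    have e1 : (q - p) ^ 2 * ((JT T : ℝ) * (10 * Qc (exp p) (exp q) / T + 20 * exp q ^ 4 / T ^ 2
      + 2 * Bv (exp p) (exp q) ^ 2 / T)) = (JT T : ℝ) * (10 * ((q - p) ^ 2 * Qc (exp p) (exp q)) / T
        + 20 * (q - p) ^ 2 * exp q ^ 4 / T ^ 2
        + 2 * ((q - p) ^ 2 * Bv (exp p) (exp q) ^ 2) / T) := by ring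
    rw [e1, hQ]
    have hq1 : 1 + q ≤ 3 / 16 * Real.log T := by linarith
    calc (JT T : ℝ) * (10 * (64 * (exp 14 * (1 + q))) / T
        + 20 * (q - p) ^ 2 * exp q ^ 4 / T ^ 2
        + 2 * ((q - p) ^ 2 * Bv (exp p) (exp q) ^ 2) / T)
        ≤ (6 * Real.log T) * (10 * (64 * (exp 14 * (3 / 16 * Real.log T))) / T
        + 20 * (Real.log T ^ 2 / 64) * exp q ^ 4 / T ^ 2
        + 2 * 64 / T) := by
          gcongr
          exact JT_le hT
      _ = (720 * exp 14 * Real.log T ^ 2 + 15 / 8 * (Real.log T ^ 3 * (exp q ^ 4 / T))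
          + 768 * Real.log T) / T := by
          field_simp
          ring
      _ ≤ (720 * exp 14 * Real.log T ^ 2 + 15 / 8 * 48 + 768 * Real.log T) / T := by
          gcongr
          exact H.y4_le'
      _ ≤ 1000 * exp 14 * Real.log T ^ 2 / T := by
          gcongr
          have e14 : 3 ≤ exp 14 := by
            have := add_one_le_exp (14:ℝ); linarith
          have e15 : 0 ≤ Real.log T ^ 2 := by positivity
          have e16 : 16 * Real.log T ≤ Real.log T ^ 2 := by nlinarith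
          nlinarith
  have hX2 := sq_mul_exp_le (x := κ * Real.log T) (by positivity)
  have s2 : exp (-(κ * Real.log T)) * Real.log T ^ 2 ≤ 3 * (exp (-(p * κ)) * (1 / κ) ^ 2) := by
    have e1 : exp (-(κ * Real.log T)) * Real.log T ^ 2 =
        (κ * Real.log T) ^ 2 * exp (-(κ * Real.log T)) * (1 / κ) ^ 2 := by
      field_simp
    rw [e1]
    calc (κ * Real.log T) ^ 2 * exp (-(κ * Real.log T)) * (1 / κ) ^ 2
        ≤ 3 * exp (-(κ * Real.log T / 2)) * (1 / κ) ^ 2 := by gcongr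
      _ ≤ 3 * exp (-(p * κ)) * (1 / κ) ^ 2 := by
          gcongr
          nlinarith
      _ = _ := by ring
  have hk0 : 0 < 1 / κ := by positivity
  have s3 : (1 / κ) ^ 2 ≤ (1 + 1 / κ + q) ^ 2 := by
    apply pow_le_pow_left₀ hk0.le
    linarith
  calc (q - p) ^ 2 * ∫ x in (NT T : ℝ)..(XT T), Dfun (exp p) (exp q) (rT T) x ^ 2 * x ^ (-2 - κ)
      ≤ (q - p) ^ 2 * (exp (-(κ * Real.log T)) * ∫ x in (NT T : ℝ)..(XT T),
        Dfun (exp p) (exp q) (rT T) x ^ 2 * x ^ (-2 - (0:ℝ))) := by gcongr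
    _ = exp (-(κ * Real.log T)) * ((q - p) ^ 2 * ∫ x in (NT T : ℝ)..(XT T),
        Dfun (exp p) (exp q) (rT T) x ^ 2 * x ^ (-2 - (0:ℝ))) := by ring
    _ ≤ exp (-(κ * Real.log T)) * ((q - p) ^ 2 * ((JT T : ℝ) *
        (10 * Qc (exp p) (exp q) / T + 20 * exp q ^ 4 / T ^ 2
          + 2 * Bv (exp p) (exp q) ^ 2 / T))) := by gcongr
    _ ≤ exp (-(κ * Real.log T)) * (1000 * exp 14 * Real.log T ^ 2 / T) := by gcongr
    _ = 1000 * exp 14 * (exp (-(κ * Real.log T)) * Real.log T ^ 2) / T := by ring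
    _ ≤ 1000 * exp 14 * (3 * (exp (-(p * κ)) * (1 / κ) ^ 2)) / T := by gcongr
    _ ≤ 1000 * exp 14 * (3 * (exp (-(p * κ)) * (1 + 1 / κ + q) ^ 2)) / T := by gcongr
    _ = 3000 * exp 14 * (exp (-(p * κ)) * (1 + 1 / κ + q) ^ 2) / T := by ring
    _ ≤ 5000 * exp 16 * (exp (-(p * κ)) * (1 + 1 / κ + q) ^ 2) / T := by
        gcongr
        · norm_num
        · norm_num

/-- the energy of a block -/
lemma energy {κ : ℝ} (hκ : 2 / Real.log T ≤ κ) (hκ1 : κ ≤ 1) :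
    (q - p) ^ 2 * ∫ x in (exp p / 2)..(XT T), Dfun (exp p) (exp q) (rT T) x ^ 2 * x ^ (-2 - κ) ≤
      10 ^ 4 * exp 16 * (exp (-(p * κ)) * (1 + 1 / κ + q) ^ 2) / T := by
  have hT := H.hT
  have h0 := hT0 hT
  have h16 := hT16 hT
  have hκ0 : 0 < κ := lt_of_lt_of_le (by positivity) hκ
  have hN : (0:ℝ) < NT T := h0.trans_le (le_NT hT)
  have hwx0 : 0 < exp p / 2 := by positivity
  rw [← intervalIntegral.integral_add_adjacent_intervals
    (intervalIntegrable_Dfun_sq_rpow H.w1 H.wy (one_le_rT hT) _ hwx0 hN)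
    (intervalIntegrable_Dfun_sq_rpow H.w1 H.wy (one_le_rT hT) _ hN (XT_pos hT)), mul_add]
  have e1 := H.small hκ0 hκ1
  have e2 := H.large hκ
  have e3 : 10 ^ 4 * exp 16 * (exp (-(p * κ)) * (1 + 1 / κ + q) ^ 2) / T =
      5000 * exp 16 * (exp (-(p * κ)) * (1 + 1 / κ + q) ^ 2) / T +
      5000 * exp 16 * (exp (-(p * κ)) * (1 + 1 / κ + q) ^ 2) / T := by ring
  rw [e3]
  exact add_le_add e1 e2

end BlkH

end Pool.Agent.H77.HZ
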