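import Pool.Agent.H77.HZ.Moll

/-!
# The mollified second moment, final form
-/

namespace Pool.Agent.H77.HZ

open MeasureTheory Set Real
open Pool.Agent.PC10

/-- The function whose Mellin transform is used. -/
noncomputable def fn (T ℓ : ℝ) (x : ℝ) : ℂ :=
  (Ioi (1/2:ℝ)).indicator (fun x => ((Dfun (exp ℓ) (exp (2 * ℓ)) (rT T) x : ℝ) : ℂ)) x

/-- The mollifier. -/
noncomputable def Mo (ℓ : ℝ) (s : ℂ) : ℂ :=
  PairCorr.moll (lam (exp ℓ) (exp (2 * ℓ))) ⌊exp (2 * ℓ)⌋₊ s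

/-- The mollified zeta function minus one. -/
noncomputable def zn (ℓ : ℝ) (s : ℂ) : ℂ := riemannZeta s * Mo ℓ s - 1

lemma measurable_fn (T ℓ : ℝ) : Measurable (fn T ℓ) := by
  unfold fn
  apply Measurable.indicator _ measurableSet_Ioi
  exact Complex.measurable_ofReal.comp (measurable_Dfun _ _ _)

lemma fn_supp (T ℓ : ℝ) (x : ℝ) (hx : x ≤ 1/2) : fn T ℓ x = 0 := by
  unfold fn
  rw [indicator_of_notMem]
  simpa using hx

lemma norm_fn_sq {T ℓ σ : ℝ} :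
    ∫ x in Ioi (1/2:ℝ), ‖fn T ℓ x‖ ^ 2 * x ^ (-2 * σ - 1) = Jn T ℓ σ := by
  unfold Jn
  refine setIntegral_congr_fun measurableSet_Ioi fun x hx => ?_
  show ‖fn T ℓ x‖ ^ 2 * x ^ (-2 * σ - 1) = _
  unfold fn
  rw [indicator_of_mem hx, Complex.norm_real, Real.norm_eq_abs, sq_abs]

lemma mellin_fn (T ℓ : ℝ) (s : ℂ) : mellin (fn T ℓ) (-s) =
    ∫ x in Ioi (1/2:ℝ), ((Dfun (exp ℓ) (exp (2 * ℓ)) (rT T) x : ℝ) : ℂ) * (x:ℂ) ^ (-s - 1) := by
  unfold mellin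
  have h1 : ∀ x : ℝ, (x:ℂ) ^ (-s - 1) • fn T ℓ x = (Ioi (1/2:ℝ)).indicator
      (fun x : ℝ => ((Dfun (exp ℓ) (exp (2 * ℓ)) (rT T) x : ℝ) : ℂ) * (x:ℂ) ^ (-s - 1)) x := by
    intro x
    unfold fn
    by_cases hx : x ∈ Ioi (1/2:ℝ)
    · rw [indicator_of_mem hx, indicator_of_mem hx, smul_eq_mul, mul_comm]
    · rw [indicator_of_notMem hx, indicator_of_notMem hx, smul_zero]
  simp_rw [h1]
  rw [setIntegral_indicator measurableSet_Ioi]
  congr 2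
  ext x
  simp only [mem_inter_iff, mem_Ioi]
  constructor
  · exact fun h => h.2
  · exact fun h => ⟨lt_trans (by norm_num) h, h⟩

section
variable {T ℓ : ℝ} (hT : exp 16 ≤ T) (h1 : 1 ≤ ℓ) (h2 : ℓ ≤ Real.log T / 16)

include hT h1 in
lemma norm_fn_le (x : ℝ) : ‖fn T ℓ x‖ ≤ exp (2 * ℓ) + 1 := by
  have hy : 0 ≤ exp (2 * ℓ) + 1 := by positivity
  unfold fn
  by_cases hx : x ∈ Ioi (1/2:ℝ)
  · rw [indicator_of_mem hx, Complex.norm_real, Real.norm_eq_abs]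
    apply abs_Dfun_le (one_le_w h1) (w_lt_y h1) (one_le_rT hT)
    exact lt_trans (by norm_num) hx
  · rw [indicator_of_notMem hx, norm_zero]; exact hy

include hT in
lemma norm_div_le {σ t : ℝ} (hσ : 1/4 ≤ σ) (hσ5 : σ ≤ 5) (ht : |t| ≤ T) :
    ‖(σ + t * Complex.I : ℂ)‖ ≤ 5 * T * ‖(rT T : ℂ) ^ (σ + t * Complex.I : ℂ) - 1‖ := by
  have h0 := hT0 hT
  have h1000 := hT1000 hT
  set s : ℂ := σ + t * Complex.I with hs
  have hns : ‖s‖ ≤ 5 + T := by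
    rw [hs]
    refine (norm_add_le _ _).trans ?_
    rw [norm_mul, Complex.norm_I, mul_one, Complex.norm_real, Complex.norm_real,
      Real.norm_eq_abs, Real.norm_eq_abs, abs_of_nonneg (by linarith : 0 ≤ σ)]
    linarith
  have hrpos : 0 < rT T := by linarith [one_le_rT hT]
  have hr : (rT T : ℂ) ^ s = Complex.exp (s / (2 * T)) := by
    rw [Complex.cpow_def_of_ne_zero (by exact_mod_cast hrpos.ne'), ← Complex.ofReal_log hrpos.le]
    unfold rT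
    rw [Real.log_exp]
    congr 1
    push_cast
    ring
  set z : ℂ := s / (2 * T) with hz
  have hnz : ‖z‖ = ‖s‖ / (2 * T) := by
    rw [hz, norm_div]
    congr 1
    rw [norm_mul, Complex.norm_real, Complex.norm_ofNat, Real.norm_eq_abs, abs_of_pos h0]
  have hz6 : ‖z‖ ≤ 3/5 := by
    rw [hnz, div_le_iff₀ (by linarith)]
    linarith
  have h2 := Complex.norm_exp_sub_one_sub_id_le (x := z) (by linarith)
  have h3 : ‖z‖ ≤ ‖Complex.exp z - 1‖ + ‖Complex.exp z - 1 - z‖ := by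
    have : z = (Complex.exp z - 1) - (Complex.exp z - 1 - z) := by ring
    calc ‖z‖ = ‖(Complex.exp z - 1) - (Complex.exp z - 1 - z)‖ := by rw [← this]
      _ ≤ _ := norm_sub_le _ _
  have h4 : ‖z‖ * (2/5) ≤ ‖Complex.exp z - 1‖ := by
    nlinarith [norm_nonneg z]
  rw [hr]
  have h5 : ‖s‖ = 2 * T * ‖z‖ := by rw [hnz]; field_simp
  rw [h5]
  nlinarith

include hT h1 in
lemma norm_zn_sq_le {σ t : ℝ} (hσ : 1/4 ≤ σ) (hσ5 : σ ≤ 5) (ht : |t| ≤ T)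
    (hgood : 1 + t ^ 2 ≤ 16 * ‖(1:ℂ) - (σ + t * Complex.I)‖ ^ 2) :
    ‖zn ℓ (σ + t * Complex.I)‖ ^ 2 ≤
      50 * T ^ 2 * ‖mellin (fn T ℓ) (-(σ + t * Complex.I))‖ ^ 2 + 13107200 * (1 + t ^ 2)⁻¹ := by
  have h0 := hT0 hT
  have h1000 := hT1000 hT
  have hdiv := norm_div_le hT hσ hσ5 ht
  set s : ℂ := σ + t * Complex.I with hs
  have hsre : s.re = σ := by simp [hs]
  have hs1 : s ≠ 1 := by
    intro h
    rw [h] at hgood
    simp at hgood
    nlinarith [sq_nonneg t]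
  have hs0 : s ≠ 0 := by
    intro h
    rw [h] at hsre
    simp at hsre
    linarith
  have hrep := repr_formula (one_le_w h1) (w_lt_y h1) (one_le_rT hT) (rT_lt_two hT)
    (s := s) (by rw [hsre]; linarith) hs1
  rw [← mellin_fn] at hrep
  set F := mellin (fn T ℓ) (-s) with hF
  set R : ℂ := Bv (exp ℓ) (exp (2 * ℓ)) * (rT T - 1) * ((1/2:ℝ) : ℂ) ^ (1 - s) / (1 - s) with hR
  set q : ℂ := (rT T : ℂ) ^ s - 1 with hq
  have hq0 : q ≠ 0 := by
    intro h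
    rw [h, norm_zero, mul_zero] at hdiv
    exact hs0 (norm_le_zero_iff.mp hdiv)
  have hz : q * zn ℓ s = -(s * (F + R)) := by
    have : F = -(q / s * zn ℓ s) - R := hrep
    rw [this]
    field_simp
    ring
  have hnorm : ‖zn ℓ s‖ ≤ 5 * T * ‖F + R‖ := by
    have h3 : ‖q‖ * ‖zn ℓ s‖ = ‖s‖ * ‖F + R‖ := by
      rw [← norm_mul, hz, norm_neg, norm_mul]
    have h4 : ‖q‖ * ‖zn ℓ s‖ ≤ ‖q‖ * (5 * T * ‖F + R‖) := by
      rw [h3]
      calc ‖s‖ * ‖F + R‖ ≤ (5 * T * ‖q‖) * ‖F + R‖ := by gcongr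
        _ = _ := by ring
    exact le_of_mul_le_mul_left h4 (norm_pos_iff.mpr hq0)
  have hRn : ‖R‖ * ‖(1:ℂ) - s‖ ≤ 128 / T := by
    have h1s : (1:ℂ) - s ≠ 0 := sub_ne_zero.mpr (Ne.symm hs1)
    rw [hR, norm_div, div_mul_cancel₀ _ (norm_ne_zero_iff.mpr h1s), norm_mul, norm_mul,
      Complex.norm_real, Real.norm_eq_abs]
    have h3 : ‖((rT T : ℂ) - 1)‖ ≤ 1 / T := by
      rw [← Complex.ofReal_one, ← Complex.ofReal_sub, Complex.norm_real, Real.norm_eq_abs,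
        abs_of_nonneg (by linarith [one_le_rT hT])]
      exact rT_sub_le' hT
    have h4 : ‖((1/2:ℝ) : ℂ) ^ (1 - s)‖ ≤ 16 := by
      rw [Complex.norm_cpow_eq_rpow_re_of_pos (by norm_num)]
      have h5 : (1 - s).re = 1 - σ := by simp [hsre]
      rw [h5]
      calc (1/2:ℝ) ^ (1 - σ) ≤ (1/2:ℝ) ^ (-4:ℝ) :=
            Real.rpow_le_rpow_of_exponent_ge (by norm_num) (by norm_num) (by linarith)
        _ = 16 := by
            rw [one_div, Real.inv_rpow (by norm_num), Real.rpow_neg (by norm_num), inv_inv]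
            have : ((4:ℕ):ℝ) = 4 := by norm_num
            rw [← this, Real.rpow_natCast]; norm_num
    calc |Bv (exp ℓ) (exp (2 * ℓ))| * ‖((rT T : ℂ) - 1)‖ * ‖((1/2:ℝ) : ℂ) ^ (1 - s)‖
        ≤ 8 * (1 / T) * 16 := by
          gcongr
          exact Bv_le8 h1
      _ = 128 / T := by ring
  have hn1s : 0 < ‖(1:ℂ) - s‖ := norm_pos_iff.mpr (sub_ne_zero.mpr (Ne.symm hs1))
  have ht2 : 0 < 1 + t ^ 2 := by positivity
  have hR2 : T ^ 2 * ‖R‖ ^ 2 ≤ 262144 * (1 + t ^ 2)⁻¹ := by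
    have h3 : (T * (‖R‖ * ‖(1:ℂ) - s‖)) ^ 2 ≤ 128 ^ 2 := by
      apply pow_le_pow_left₀ (by positivity)
      calc T * (‖R‖ * ‖(1:ℂ) - s‖) ≤ T * (128 / T) := by gcongr
        _ = 128 := by field_simp
    have h4 : T ^ 2 * ‖R‖ ^ 2 * (1 + t ^ 2) ≤ 262144 := by
      calc T ^ 2 * ‖R‖ ^ 2 * (1 + t ^ 2) ≤ T ^ 2 * ‖R‖ ^ 2 * (16 * ‖(1:ℂ) - s‖ ^ 2) := by gcongr
        _ = 16 * (T * (‖R‖ * ‖(1:ℂ) - s‖)) ^ 2 := by ring
        _ ≤ 16 * 128 ^ 2 := by gcongr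
        _ = 262144 := by norm_num
    rw [← div_eq_mul_inv, le_div_iff₀ ht2]
    exact h4
  have hFR : ‖F + R‖ ^ 2 ≤ 2 * ‖F‖ ^ 2 + 2 * ‖R‖ ^ 2 := by
    have h3 : ‖F + R‖ ≤ ‖F‖ + ‖R‖ := norm_add_le _ _
    have h4 : ‖F + R‖ ^ 2 ≤ (‖F‖ + ‖R‖) ^ 2 := pow_le_pow_left₀ (norm_nonneg _) h3 2
    nlinarith [sq_nonneg (‖F‖ - ‖R‖)]
  calc ‖zn ℓ s‖ ^ 2 ≤ (5 * T * ‖F + R‖) ^ 2 := pow_le_pow_left₀ (norm_nonneg _) hnorm 2
    _ = 25 * T ^ 2 * ‖F + R‖ ^ 2 := by ring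
    _ ≤ 25 * T ^ 2 * (2 * ‖F‖ ^ 2 + 2 * ‖R‖ ^ 2) := by gcongr
    _ = 50 * T ^ 2 * ‖F‖ ^ 2 + 50 * (T ^ 2 * ‖R‖ ^ 2) := by ring
    _ ≤ 50 * T ^ 2 * ‖F‖ ^ 2 + 50 * (262144 * (1 + t ^ 2)⁻¹) := by gcongr
    _ = _ := by ring

lemma good_of_one_le {σ t : ℝ} (ht : 1 ≤ t) :
    1 + t ^ 2 ≤ 16 * ‖(1:ℂ) - (σ + t * Complex.I)‖ ^ 2 := by
  rw [← Complex.normSq_eq_norm_sq, Complex.normSq_apply]
  simp
  nlinarith [sq_nonneg t, mul_self_nonneg (1 - σ)]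

lemma continuousOn_zn (ℓ : ℝ) {σ a b : ℝ} (ha : 1 ≤ a) :
    ContinuousOn (fun t : ℝ => zn ℓ (σ + t * Complex.I)) (Icc a b) := by
  unfold zn
  apply ContinuousOn.sub _ continuousOn_const
  apply ContinuousOn.mul
  · intro t ht
    apply ContinuousAt.continuousWithinAt
    have hne : (σ + t * Complex.I : ℂ) ≠ 1 := by
      intro h
      have := congrArg Complex.im h
      simp at this
      linarith [ht.1]
    have h1 := (differentiableAt_riemannZeta hne).continuousAt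
    exact ContinuousAt.comp (f := fun t : ℝ => (σ + t * Complex.I : ℂ)) h1
      (by fun_prop)
  · apply Continuous.continuousOn
    unfold Mo PairCorr.moll
    apply continuous_finsetSum
    intro d hd
    simp only [Finset.mem_Icc] at hd
    apply Continuous.mul continuous_const
    apply Continuous.const_cpow (by fun_prop)
    left
    exact_mod_cast (by omega : d ≠ 0)

include hT h1 h2 in
/-- **Mollified second moment** near the critical line, mollifier of length `e^{2ℓ}`. -/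
theorem moll_moment {σ : ℝ} (hσ : 1/2 ≤ σ) (hσ5 : σ ≤ 5) :
    ∫ t in Ioc 1 T, ‖zn ℓ (σ + t * Complex.I)‖ ^ 2 ≤
      2 * 10 ^ 8 * π * exp 26 * (Real.log T / ℓ) * T * exp (-(2 * ℓ * (min σ 1 - 1 / 2))) := by
  have h0 := hT0 hT
  have h16 := hT16 hT
  have h1000 := hT1000 hT
  have hℓ : 0 < ℓ := by linarith
  obtain ⟨hint, hbd⟩ := mellin_bessel (T := T) (σ := σ) (measurable_fn T ℓ) (norm_fn_le hT h1)
    (fn_supp T ℓ) (by linarith) h0
  rw [norm_fn_sq] at hbd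
  have hi1 : IntegrableOn (fun t : ℝ => ‖zn ℓ (σ + t * Complex.I)‖ ^ 2) (Ioc 1 T) :=
    (((continuousOn_zn ℓ (σ := σ) (a := 1) (b := T) le_rfl).norm.pow 2).integrableOn_Icc).mono_set
      Ioc_subset_Icc_self
  have hii : IntegrableOn (fun t : ℝ => ‖mellin (fn T ℓ) (-(σ + t * Complex.I))‖ ^ 2)
      (Ioc (-T) T) := hint.1
  have hi2 : IntegrableOn (fun t : ℝ => ‖mellin (fn T ℓ) (-(σ + t * Complex.I))‖ ^ 2)
      (Ioc 1 T) := hii.mono_set (Ioc_subset_Ioc_left (by linarith))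
  have hi3 : IntegrableOn (fun t : ℝ => (1 + t ^ 2)⁻¹) (Ioc 1 T) :=
    integrable_inv_one_add_sq.integrableOn
  have e1 : ∫ t in Ioc 1 T, ‖zn ℓ (σ + t * Complex.I)‖ ^ 2 ≤
      ∫ t in Ioc 1 T, (50 * T ^ 2 * ‖mellin (fn T ℓ) (-(σ + t * Complex.I))‖ ^ 2
        + 13107200 * (1 + t ^ 2)⁻¹) := by
    apply setIntegral_mono_on hi1 ((hi2.const_mul _).add (hi3.const_mul _)) measurableSet_Ioc
    intro t ht
    apply norm_zn_sq_le hT h1 (by linarith) hσ5 _ (good_of_one_le ht.1.le)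
    rw [abs_le]
    exact ⟨by linarith [ht.1], ht.2⟩
  refine e1.trans ?_
  rw [integral_add (hi2.const_mul _) (hi3.const_mul _), integral_const_mul, integral_const_mul]
  have e2 : ∫ t in Ioc 1 T, ‖mellin (fn T ℓ) (-(σ + t * Complex.I))‖ ^ 2 ≤
      2 * π * exp 1 * Jn T ℓ σ := by
    refine le_trans ?_ hbd
    rw [intervalIntegral.integral_of_le (by linarith)]
    apply setIntegral_mono_set hii
    · exact Filter.Eventually.of_forall fun t => by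
        show (0:ℝ) ≤ ‖mellin (fn T ℓ) (-(σ + t * Complex.I))‖ ^ 2
        positivity
    · exact Filter.Eventually.of_forall fun x hx => ⟨by linarith [hx.1], hx.2⟩
  have e3 : ∫ t in Ioc 1 T, (1 + t ^ 2)⁻¹ ≤ π := by
    rw [← integral_univ_inv_one_add_sq]
    apply setIntegral_le_integral integrable_inv_one_add_sq
    exact Filter.Eventually.of_forall fun t => by
      show (0:ℝ) ≤ (1 + t ^ 2)⁻¹
      positivity
  have e4 := Jn_le hT h1 h2 hσ hσ5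
  set Q : ℝ := Real.log T / ℓ with hQdef
  have hQ16 : 16 ≤ Q := by
    rw [hQdef, le_div_iff₀ hℓ]; linarith
  set e := exp (-(2 * ℓ * (min σ 1 - 1 / 2))) with he
  have he0 : 0 < e := exp_pos _
  have hmin1 : min σ 1 ≤ 1 := min_le_right _ _
  have hTe : 1 ≤ T * e := by
    nth_rewrite 1 [← exp_log h0]
    rw [he, ← exp_add]
    apply one_le_exp
    nlinarith
  have hE26 : exp 1 * exp 25 = exp 26 := by rw [← exp_add]; norm_num
  have h26 : 1 ≤ exp 26 := one_le_exp (by norm_num)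
  have hπ := Real.pi_pos
  have e5 : 50 * T ^ 2 * (∫ t in Ioc 1 T, ‖mellin (fn T ℓ) (-(σ + t * Complex.I))‖ ^ 2) ≤
      10 ^ 8 * π * exp 26 * Q * (T * e) := by
    calc 50 * T ^ 2 * (∫ t in Ioc 1 T, ‖mellin (fn T ℓ) (-(σ + t * Complex.I))‖ ^ 2)
        ≤ 50 * T ^ 2 * (2 * π * exp 1 * Jn T ℓ σ) := by gcongr
      _ ≤ 50 * T ^ 2 * (2 * π * exp 1 * (10 ^ 6 * exp 25 * Q * e / T)) := by gcongr
      _ = 10 ^ 8 * π * (exp 1 * exp 25) * Q * (T * e) := by field_simp; ring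
      _ = _ := by rw [hE26]
  have e6 : 13107200 * (∫ t in Ioc 1 T, (1 + t ^ 2)⁻¹) ≤ 10 ^ 8 * π * exp 26 * Q * (T * e) := by
    calc 13107200 * (∫ t in Ioc 1 T, (1 + t ^ 2)⁻¹) ≤ 13107200 * π := by gcongr
      _ ≤ 10 ^ 8 * π := by nlinarith
      _ ≤ 10 ^ 8 * π * exp 26 := le_mul_of_one_le_right (by positivity) h26
      _ ≤ 10 ^ 8 * π * exp 26 * Q := le_mul_of_one_le_right (by positivity) (by linarith)
      _ ≤ 10 ^ 8 * π * exp 26 * Q * (T * e) := le_mul_of_one_le_right (by positivity) hTe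
  linarith

end

end Pool.Agent.H77.HZ
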