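import Pool.Agent.H77.HZ.Blk
import Pool.Agent.H77.HZ.Moll2

/-!
# The second moment of a block
-/

namespace Pool.Agent.H77.HZ

open MeasureTheory Set Real
open Pool.Agent.PC10

/-- `∫_{1/2}^∞ D(x)² x^{-2σ-1} dx`. -/
noncomputable def Jb (T p q σ : ℝ) : ℝ :=
  ∫ x in Ioi (1/2:ℝ), Dfun (exp p) (exp q) (rT T) x ^ 2 * x ^ (-2 * σ - 1)

/-- The function whose Mellin transform is used. -/
noncomputable def fb (T p q : ℝ) (x : ℝ) : ℂ :=
  (Ioi (1/2:ℝ)).indicator (fun x => ((Dfun (exp p) (exp q) (rT T) x : ℝ) : ℂ)) x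

/-- The mollified zeta function minus one, block `(p,q)`. -/
noncomputable def zb (p q : ℝ) (s : ℂ) : ℂ :=
  riemannZeta s * PairCorr.moll (lam (exp p) (exp q)) ⌊exp q⌋₊ s - 1

lemma measurable_fb (T p q : ℝ) : Measurable (fb T p q) := by
  unfold fb
  apply Measurable.indicator _ measurableSet_Ioi
  exact Complex.measurable_ofReal.comp (measurable_Dfun _ _ _)

lemma fb_supp (T p q : ℝ) (x : ℝ) (hx : x ≤ 1/2) : fb T p q x = 0 := by
  unfold fb
  rw [indicator_of_notMem]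
  simpa using hx

lemma norm_fb_sq {T p q σ : ℝ} :
    ∫ x in Ioi (1/2:ℝ), ‖fb T p q x‖ ^ 2 * x ^ (-2 * σ - 1) = Jb T p q σ := by
  unfold Jb
  refine setIntegral_congr_fun measurableSet_Ioi fun x hx => ?_
  show ‖fb T p q x‖ ^ 2 * x ^ (-2 * σ - 1) = _
  unfold fb
  rw [indicator_of_mem hx, Complex.norm_real, Real.norm_eq_abs, sq_abs]

lemma mellin_fb (T p q : ℝ) (s : ℂ) : mellin (fb T p q) (-s) =
    ∫ x in Ioi (1/2:ℝ), ((Dfun (exp p) (exp q) (rT T) x : ℝ) : ℂ) * (x:ℂ) ^ (-s - 1) := by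
  unfold mellin
  have h1 : ∀ x : ℝ, (x:ℂ) ^ (-s - 1) • fb T p q x = (Ioi (1/2:ℝ)).indicator
      (fun x : ℝ => ((Dfun (exp p) (exp q) (rT T) x : ℝ) : ℂ) * (x:ℂ) ^ (-s - 1)) x := by
    intro x
    unfold fb
    by_cases hx : x ∈ Ioi (1/2:ℝ)
    · rw [indicator_of_mem hx, indicator_of_mem hx, smul_eq_mul, mul_comm]
    · rw [indicator_of_notMem hx, indicator_of_notMem hx, smul_zero]
  simp_rw [h1]
  rw [setIntegral_indicator measurableSet_Ioi]
  congr 2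
  ext x
  simp only [mem_inter_iff, mem_Ioi]
  constructor
  · exact fun h => h.2
  · exact fun h => ⟨lt_trans (by norm_num) h, h⟩

lemma continuousOn_zb (p q : ℝ) {σ a b : ℝ} (ha : 1 ≤ a) :
    ContinuousOn (fun t : ℝ => zb p q (σ + t * Complex.I)) (Icc a b) := by
  unfold zb
  apply ContinuousOn.sub _ continuousOn_const
  apply ContinuousOn.mul
  · intro t ht
    apply ContinuousAt.continuousWithinAt
    have hne : (σ + t * Complex.I : ℂ) ≠ 1 := by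
      intro h
      have := congrArg Complex.im h
      simp at this
      linarith [ht.1]
    have h1 := (differentiableAt_riemannZeta hne).continuousAt
    exact ContinuousAt.comp (f := fun t : ℝ => (σ + t * Complex.I : ℂ)) h1
      (by fun_prop)
  · apply Continuous.continuousOn
    unfold PairCorr.moll
    apply continuous_finsetSum
    intro d hd
    simp only [Finset.mem_Icc] at hd
    apply Continuous.mul continuous_const
    apply Continuous.const_cpow (by fun_prop)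
    left
    exact_mod_cast (by omega : d ≠ 0)

namespace BlkH
variable {T p q : ℝ} (H : BlkH T p q)
include H

lemma integrableOn_Jb {σ : ℝ} (hσ : 0 < σ) {a : ℝ} (ha : 0 < a) :
    IntegrableOn (fun x => Dfun (exp p) (exp q) (rT T) x ^ 2 * x ^ (-2 * σ - 1)) (Ioi a) := by
  have e1 : IntegrableOn (fun x : ℝ => x ^ (-2 * σ - 1)) (Ioi a) :=
    integrableOn_Ioi_rpow_of_lt (by linarith) ha
  refine Integrable.bdd_mul (c := (exp q + 1) ^ 2) e1
    ((measurable_Dfun _ _ _).pow_const 2).aestronglyMeasurable ?_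
  refine (ae_restrict_iff' measurableSet_Ioi).mpr (Filter.Eventually.of_forall fun x hx => ?_)
  have hx0 : 0 < x := ha.trans hx
  rw [norm_pow, Real.norm_eq_abs]
  exact pow_le_pow_left₀ (abs_nonneg _)
    (abs_Dfun_le H.w1 H.wy (one_le_rT H.hT) hx0) 2

/-- Region 1. -/
lemma region1 {σ κ : ℝ} (hσ : 1 / 2 ≤ σ) (hσ5 : σ ≤ 5) (hκ0 : 0 < κ) (hκ1 : κ ≤ 1) :
    (q - p) ^ 2 * ∫ x in (1/2:ℝ)..(exp p / 2),
      Dfun (exp p) (exp q) (rT T) x ^ 2 * x ^ (-2 * σ - 1)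
      ≤ 16384 * exp (-(p * κ)) / T := by
  have hT := H.hT
  have h0 := hT0 hT
  have h16 := hT16 hT
  have hw := H.w1
  have hwy := H.wy
  have hr := one_le_rT hT
  have hr2 := rT_lt_two hT
  have hp0 := H.hp
  have hpL : p ≤ Real.log T / 8 := H.hpq.le.trans H.hq
  have hle : (1/2:ℝ) ≤ exp p / 2 := by linarith
  have hB2 := H.dB_sq_le
  have hr1 : 0 ≤ rT T - 1 := by linarith
  have hrT := rT_sub_le' hT
  have hpt : ∀ x ∈ Icc (1/2:ℝ) (exp p / 2),
      Dfun (exp p) (exp q) (rT T) x ^ 2 * x ^ (-2 * σ - 1) ≤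
        Bv (exp p) (exp q) ^ 2 * ((1 / T) ^ 2 * (512 * exp p)) := by
    intro x hx
    have hx0 : 0 < x := by linarith [hx.1]
    have hD : Dfun (exp p) (exp q) (rT T) x =
        Bv (exp p) (exp q) * ((rT T - 1) * x) := by
      apply Dfun_of_le hw hwy hr hx0
      nlinarith [hx.2]
    rw [hD]
    have hxx : x ^ 2 * x ^ (-2 * σ - 1) = x ^ (1 - 2 * σ) := by
      rw [← Real.rpow_natCast, ← Real.rpow_add hx0]
      congr 1; push_cast; ring
    have hxb : x ^ (1 - 2 * σ) ≤ 512 * exp p := by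
      rcases le_total 1 x with h3 | h3
      · calc x ^ (1 - 2 * σ) ≤ x ^ (1:ℝ) := Real.rpow_le_rpow_of_exponent_le h3 (by linarith)
          _ = x := Real.rpow_one x
          _ ≤ 512 * exp p := by linarith [hx.2]
      · have h4 : x ^ (1 - 2 * σ) ≤ x ^ (-9:ℝ) :=
          Real.rpow_le_rpow_of_exponent_ge hx0 h3 (by linarith)
        have h5 : x ^ (-9:ℝ) ≤ (1/2:ℝ) ^ (-9:ℝ) :=
          Real.rpow_le_rpow_of_nonpos (by norm_num) hx.1 (by norm_num)
        have h6 : (1/2:ℝ) ^ (-9:ℝ) = 512 := by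
          rw [one_div, Real.inv_rpow (by norm_num), Real.rpow_neg (by norm_num), inv_inv]
          have : ((9:ℕ):ℝ) = 9 := by norm_num
          rw [← this, Real.rpow_natCast]; norm_num
        rw [h6] at h5
        linarith
    calc (Bv (exp p) (exp q) * ((rT T - 1) * x)) ^ 2 * x ^ (-2 * σ - 1)
        = Bv (exp p) (exp q) ^ 2 * ((rT T - 1) ^ 2 * (x ^ 2 * x ^ (-2 * σ - 1))) := by ring
      _ = Bv (exp p) (exp q) ^ 2 * ((rT T - 1) ^ 2 * x ^ (1 - 2 * σ)) := by rw [hxx]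
      _ ≤ Bv (exp p) (exp q) ^ 2 * ((1 / T) ^ 2 * (512 * exp p)) := by gcongr
  have e1 : ∫ x in (1/2:ℝ)..(exp p / 2), Dfun (exp p) (exp q) (rT T) x ^ 2 * x ^ (-2 * σ - 1)
      ≤ ∫ x in (1/2:ℝ)..(exp p / 2), Bv (exp p) (exp q) ^ 2 * ((1 / T) ^ 2 * (512 * exp p)) :=
    intervalIntegral.integral_mono_on hle
      (intervalIntegrable_Dfun_sq_rpow hw hwy hr _ (by norm_num) (by linarith))
      intervalIntegrable_const hpt
  rw [intervalIntegral.integral_const, smul_eq_mul] at e1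
  have hT2 : 1 / T = exp (-Real.log T) := by rw [exp_neg, exp_log h0, one_div]
  have hc : 0 ≤ Bv (exp p) (exp q) ^ 2 * ((1 / T) ^ 2 * (512 * exp p)) := by positivity
  have e4 : exp p * exp p * (1 / T) ≤ exp (-(p * κ)) := by
    rw [hT2, ← exp_add, ← exp_add]
    apply exp_le_exp.mpr
    nlinarith
  calc (q - p) ^ 2 * ∫ x in (1/2:ℝ)..(exp p / 2),
      Dfun (exp p) (exp q) (rT T) x ^ 2 * x ^ (-2 * σ - 1)
      ≤ (q - p) ^ 2 * ((exp p / 2 - 1 / 2) *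
        (Bv (exp p) (exp q) ^ 2 * ((1 / T) ^ 2 * (512 * exp p)))) := by gcongr
    _ ≤ (q - p) ^ 2 * ((exp p / 2) *
        (Bv (exp p) (exp q) ^ 2 * ((1 / T) ^ 2 * (512 * exp p)))) := by
          gcongr
          linarith
    _ = 256 * ((q - p) ^ 2 * Bv (exp p) (exp q) ^ 2) * (exp p * exp p * (1 / T)) / T := by
          field_simp
          ring
    _ ≤ 256 * 64 * exp (-(p * κ)) / T := by gcongr
    _ = _ := by norm_num

/-- Region 3. -/
lemma region3 {σ κ : ℝ} (hσ : 1 / 2 ≤ σ) (hκ0 : 0 < κ) (hκ1 : κ ≤ 1) :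
    (q - p) ^ 2 * ∫ x in Ioi (XT T : ℝ), Dfun (exp p) (exp q) (rT T) x ^ 2 * x ^ (-2 * σ - 1)
      ≤ 8 * exp (-(p * κ)) / T := by
  have hT := H.hT
  have h0 := hT0 hT
  have h16 := hT16 hT
  have h1000 := hT1000 hT
  have hw := H.w1
  have hwy := H.wy
  have hr := one_le_rT hT
  have hX := XT_pos hT
  have hX4 := le_XT hT
  have hq0 := H.q0
  have hp0 := H.hp
  have hqL := H.hq
  have hpq := H.hpq
  have hy1 : 1 ≤ exp q := by linarith
  have e1 : ∫ x in Ioi (XT T : ℝ), Dfun (exp p) (exp q) (rT T) x ^ 2 * x ^ (-2 * σ - 1)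
      ≤ ∫ x in Ioi (XT T : ℝ), (exp q + 1) ^ 2 * x ^ (-2 * σ - 1) := by
    apply setIntegral_mono_on (H.integrableOn_Jb (by linarith) hX)
      ((integrableOn_Ioi_rpow_of_lt (by linarith) hX).const_mul _) measurableSet_Ioi
    intro x hx
    have hx0 : 0 < x := hX.trans hx
    have := abs_Dfun_le hw hwy hr hx0
    rw [← sq_abs]
    gcongr
  rw [integral_const_mul, integral_Ioi_rpow_of_lt (by linarith) hX] at e1
  have e2 : -(XT T : ℝ) ^ (-2 * σ - 1 + 1) / (-2 * σ - 1 + 1) = (XT T : ℝ) ^ (-2 * σ) / (2 * σ) := by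
    rw [show -2 * σ - 1 + 1 = -(2 * σ) by ring, show -2 * σ = -(2 * σ) by ring]
    rw [neg_div_neg_eq]
  rw [e2] at e1
  have e3 : (XT T : ℝ) ^ (-2 * σ) ≤ exp (-(4 * Real.log T)) := by
    calc (XT T : ℝ) ^ (-2 * σ) ≤ (T ^ 4) ^ (-2 * σ) :=
          Real.rpow_le_rpow_of_nonpos (by positivity) hX4 (by linarith)
      _ = exp (-(8 * σ * Real.log T)) := by
          rw [Real.rpow_def_of_pos (by positivity), log_pow]; congr 1; push_cast; ring
      _ ≤ exp (-(4 * Real.log T)) := by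
          apply exp_le_exp.mpr
          nlinarith
  have e4 : (exp q + 1) ^ 2 ≤ 4 * exp (2 * q) := by
    calc (exp q + 1) ^ 2 ≤ (2 * exp q) ^ 2 := by gcongr; linarith
      _ = 4 * (exp q * exp q) := by ring
      _ = 4 * exp (2 * q) := by rw [← exp_add]; congr 2; ring
  have e5 : (q - p) ^ 2 ≤ 2 * exp q := by
    have h3 : (q - p) ^ 2 ≤ q ^ 2 := by
      apply pow_le_pow_left₀ (by linarith); linarith
    have h4 := Real.quadratic_le_exp_of_nonneg hq0.le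
    nlinarith
  have hT2 : 1 / T = exp (-Real.log T) := by rw [exp_neg, exp_log h0, one_div]
  calc (q - p) ^ 2 * ∫ x in Ioi (XT T : ℝ), Dfun (exp p) (exp q) (rT T) x ^ 2 * x ^ (-2 * σ - 1)
      ≤ (2 * exp q) * ((exp q + 1) ^ 2 * ((XT T : ℝ) ^ (-2 * σ) / (2 * σ))) := by
        have hnn : 0 ≤ ∫ x in Ioi (XT T : ℝ),
            Dfun (exp p) (exp q) (rT T) x ^ 2 * x ^ (-2 * σ - 1) := by
          apply setIntegral_nonneg measurableSet_Ioi
          intro x hx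
          have hx0 : 0 < x := hX.trans hx
          positivity
        gcongr
    _ ≤ (2 * exp q) * ((4 * exp (2 * q)) * (exp (-(4 * Real.log T)) / 1)) := by
        gcongr; linarith
    _ = 8 * (exp q * exp (2 * q) * exp (-(4 * Real.log T))) := by ring
    _ ≤ 8 * (exp (-(p * κ)) * (1 / T)) := by
        rw [hT2, ← exp_add, ← exp_add, ← exp_add]
        apply mul_le_mul_of_nonneg_left (exp_le_exp.mpr _) (by norm_num)
        nlinarith
    _ = _ := by ring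

/-- Region 2. -/
lemma region2 {σ κ : ℝ} (hσ5 : σ ≤ 5) (hκ : 2 / Real.log T ≤ κ) (hκ1 : κ ≤ 1)
    (hκσ : κ ≤ 2 * σ - 1 + 2 / Real.log T) :
    (q - p) ^ 2 * ∫ x in (exp p / 2)..(XT T),
      Dfun (exp p) (exp q) (rT T) x ^ 2 * x ^ (-2 * σ - 1)
      ≤ 10 ^ 4 * exp 26 * (exp (-(p * κ)) * (1 + 1 / κ + q) ^ 2) / T := by
  have hT := H.hT
  have h0 := hT0 hT
  have h16 := hT16 hT
  have h1000 := hT1000 hT
  have hw := H.w1
  have hwT := H.w_le
  have hwy := H.wy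
  have hr := one_le_rT hT
  have hX := XT_pos hT
  have hX4 := le_XT hT
  have hL : 0 < Real.log T := by linarith
  have hκ0 : 0 < κ := lt_of_lt_of_le (by positivity) hκ
  have hTX : T ≤ XT T := by
    refine le_trans ?_ hX4
    nlinarith [pow_pos h0 2, pow_pos h0 3, pow_le_pow_left₀ (by norm_num : (0:ℝ) ≤ 1000) h1000 3]
  have hle : exp p / 2 ≤ XT T := by linarith
  have hwx : 0 < exp p / 2 := by positivity
  have hE := H.energy hκ hκ1
  have s1 : ∫ x in (exp p / 2)..(XT T), Dfun (exp p) (exp q) (rT T) x ^ 2 * x ^ (-2 * σ - 1) ≤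
      exp 10 * ∫ x in (exp p / 2)..(XT T), Dfun (exp p) (exp q) (rT T) x ^ 2 * x ^ (-2 - κ) := by
    rw [← intervalIntegral.integral_const_mul]
    apply intervalIntegral.integral_mono_on hle
      (intervalIntegrable_Dfun_sq_rpow hw hwy hr _ hwx hX)
      ((intervalIntegrable_Dfun_sq_rpow hw hwy hr _ hwx hX).const_mul _)
    intro x hx
    have hx0 : 0 < x := hwx.trans_le hx.1
    have hx2 : 1 / 2 ≤ x := by linarith [hx.1]
    have hsplit : x ^ (-2 * σ - 1) = x ^ (1 + κ - 2 * σ) * x ^ (-2 - κ) := by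
      rw [← Real.rpow_add hx0]
      congr 1; ring
    have hXk : x ^ (1 + κ - 2 * σ) ≤ exp 10 := by
      rcases le_total 1 x with h3 | h3
      · calc x ^ (1 + κ - 2 * σ) ≤ x ^ (2 / Real.log T) :=
              Real.rpow_le_rpow_of_exponent_le h3 (by linarith)
          _ ≤ (XT T : ℝ) ^ (2 / Real.log T) := by gcongr; exact hx.2
          _ = exp (Real.log (XT T) * (2 / Real.log T)) := by rw [Real.rpow_def_of_pos hX]
          _ ≤ exp ((5 * Real.log T) * (2 / Real.log T)) := by gcongr; exact log_XT_le hT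
          _ = exp 10 := by congr 1; field_simp; norm_num
      · have h4 : x ^ (1 + κ - 2 * σ) ≤ x ^ (-9:ℝ) :=
          Real.rpow_le_rpow_of_exponent_ge hx0 h3 (by linarith)
        have h5 : x ^ (-9:ℝ) ≤ (1/2:ℝ) ^ (-9:ℝ) :=
          Real.rpow_le_rpow_of_nonpos (by norm_num) hx2 (by norm_num)
        have h6 : (1/2:ℝ) ^ (-9:ℝ) = 512 := by
          rw [one_div, Real.inv_rpow (by norm_num), Real.rpow_neg (by norm_num), inv_inv]
          have : ((9:ℕ):ℝ) = 9 := by norm_num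
          rw [← this, Real.rpow_natCast]; norm_num
        have h7 : (512:ℝ) ≤ exp 10 := by
          have e2 : exp (10:ℝ) = exp 1 ^ 10 := by rw [← exp_nat_mul]; norm_num
          have e3 := Real.exp_one_gt_d9
          rw [e2]
          calc (512:ℝ) ≤ 2 ^ 10 := by norm_num
            _ ≤ exp 1 ^ 10 := by gcongr; linarith
        rw [h6] at h5
        linarith
    rw [hsplit]
    calc Dfun (exp p) (exp q) (rT T) x ^ 2 * (x ^ (1 + κ - 2 * σ) * x ^ (-2 - κ))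
        ≤ Dfun (exp p) (exp q) (rT T) x ^ 2 * (exp 10 * x ^ (-2 - κ)) := by gcongr
      _ = _ := by ring
  calc (q - p) ^ 2 * ∫ x in (exp p / 2)..(XT T),
      Dfun (exp p) (exp q) (rT T) x ^ 2 * x ^ (-2 * σ - 1)
      ≤ (q - p) ^ 2 * (exp 10 * ∫ x in (exp p / 2)..(XT T),
        Dfun (exp p) (exp q) (rT T) x ^ 2 * x ^ (-2 - κ)) := by gcongr
    _ = exp 10 * ((q - p) ^ 2 * ∫ x in (exp p / 2)..(XT T),
        Dfun (exp p) (exp q) (rT T) x ^ 2 * x ^ (-2 - κ)) := by ring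
    _ ≤ exp 10 * (10 ^ 4 * exp 16 * (exp (-(p * κ)) * (1 + 1 / κ + q) ^ 2) / T) := by gcongr
    _ = 10 ^ 4 * (exp 10 * exp 16) * (exp (-(p * κ)) * (1 + 1 / κ + q) ^ 2) / T := by ring
    _ = _ := by rw [← exp_add]; norm_num

lemma Jb_le {σ κ : ℝ} (hσ : 1 / 2 ≤ σ) (hσ5 : σ ≤ 5) (hκ : 2 / Real.log T ≤ κ) (hκ1 : κ ≤ 1)
    (hκσ : κ ≤ 2 * σ - 1 + 2 / Real.log T) :
    (q - p) ^ 2 * Jb T p q σ ≤
      2 * 10 ^ 4 * exp 26 * (exp (-(p * κ)) * (1 + 1 / κ + q) ^ 2) / T := by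
  have hT := H.hT
  have h0 := hT0 hT
  have h16 := hT16 hT
  have hκ0 : 0 < κ := lt_of_lt_of_le (by positivity) hκ
  have hq0 := H.q0
  have hwx : 0 < exp p / 2 := by positivity
  have hsplit : Jb T p q σ =
      (∫ x in (1/2:ℝ)..(exp p / 2), Dfun (exp p) (exp q) (rT T) x ^ 2 * x ^ (-2 * σ - 1))
      + (∫ x in (exp p / 2)..(XT T), Dfun (exp p) (exp q) (rT T) x ^ 2 * x ^ (-2 * σ - 1))
      + ∫ x in Ioi (XT T : ℝ), Dfun (exp p) (exp q) (rT T) x ^ 2 * x ^ (-2 * σ - 1) := by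
    unfold Jb
    rw [intervalIntegral.integral_add_adjacent_intervals
      (intervalIntegrable_Dfun_sq_rpow H.w1 H.wy (one_le_rT hT) _ (by norm_num) hwx)
      (intervalIntegrable_Dfun_sq_rpow H.w1 H.wy (one_le_rT hT) _ hwx (XT_pos hT)),
      intervalIntegral.integral_interval_add_Ioi (H.integrableOn_Jb (by linarith) (by norm_num))
        (H.integrableOn_Jb (by linarith) (XT_pos hT))]
  rw [hsplit, mul_add, mul_add]
  have e1 := H.region1 hσ hσ5 hκ0 hκ1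
  have e2 := H.region2 hσ5 hκ hκ1 hκσ
  have e3 := H.region3 hσ hκ0 hκ1
  set e := exp (-(p * κ)) with he
  have he0 : 0 < e := exp_pos _
  have hk0 : 0 < 1 / κ := by positivity
  have hE2 : 1 ≤ (1 + 1 / κ + q) ^ 2 := one_le_pow₀ (by linarith)
  have h26 : 3 ≤ exp 26 := by
    have := add_one_le_exp (26:ℝ); linarith
  have h3 : e ≤ e * (1 + 1 / κ + q) ^ 2 := le_mul_of_one_le_right he0.le hE2
  have h4 : 16392 * e ≤ 10 ^ 4 * exp 26 * (e * (1 + 1 / κ + q) ^ 2) := by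
    calc 16392 * e ≤ (10 ^ 4 * 3) * (e * (1 + 1 / κ + q) ^ 2) := by nlinarith
      _ ≤ 10 ^ 4 * exp 26 * (e * (1 + 1 / κ + q) ^ 2) := by gcongr
  have h5 : 16384 * e / T + 10 ^ 4 * exp 26 * (e * (1 + 1 / κ + q) ^ 2) / T + 8 * e / T ≤
      2 * 10 ^ 4 * exp 26 * (e * (1 + 1 / κ + q) ^ 2) / T := by
    rw [← add_div, ← add_div]
    gcongr
    linarith
  linarith

lemma norm_fb_le (x : ℝ) : ‖fb T p q x‖ ≤ exp q + 1 := by
  have hy : 0 ≤ exp q + 1 := by positivity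
  unfold fb
  by_cases hx : x ∈ Ioi (1/2:ℝ)
  · rw [indicator_of_mem hx, Complex.norm_real, Real.norm_eq_abs]
    apply abs_Dfun_le H.w1 H.wy (one_le_rT H.hT)
    exact lt_trans (by norm_num) hx
  · rw [indicator_of_notMem hx, norm_zero]; exact hy

lemma norm_zb_sq_le {σ t : ℝ} (hσ : 1/4 ≤ σ) (hσ5 : σ ≤ 5) (ht : |t| ≤ T)
    (hgood : 1 + t ^ 2 ≤ 16 * ‖(1:ℂ) - (σ + t * Complex.I)‖ ^ 2) :
    (q - p) ^ 2 * ‖zb p q (σ + t * Complex.I)‖ ^ 2 ≤
      50 * T ^ 2 * ((q - p) ^ 2 * ‖mellin (fb T p q) (-(σ + t * Complex.I))‖ ^ 2) +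
        13107200 * (1 + t ^ 2)⁻¹ := by
  have hT := H.hT
  have h0 := hT0 hT
  have h1000 := hT1000 hT
  have hdiv := norm_div_le hT hσ hσ5 ht
  have hd := H.dpos
  set s : ℂ := σ + t * Complex.I with hs
  have hsre : s.re = σ := by simp [hs]
  have hs1 : s ≠ 1 := by
    intro h
    rw [h] at hgood
    simp at hgood
    nlinarith [sq_nonneg t]
  have hs0 : s ≠ 0 := by
    intro h
    rw [h] at hsre
    simp at hsre
    linarith
  have hrep := repr_formula H.w1 H.wy (one_le_rT hT) (rT_lt_two hT)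
    (s := s) (by rw [hsre]; linarith) hs1
  rw [← mellin_fb] at hrep
  set F := mellin (fb T p q) (-s) with hF
  set R : ℂ := Bv (exp p) (exp q) * (rT T - 1) * ((1/2:ℝ) : ℂ) ^ (1 - s) / (1 - s) with hR
  set u : ℂ := (rT T : ℂ) ^ s - 1 with hu
  have hu0 : u ≠ 0 := by
    intro h
    rw [h, norm_zero, mul_zero] at hdiv
    exact hs0 (norm_le_zero_iff.mp hdiv)
  have hz : u * zb p q s = -(s * (F + R)) := by
    have : F = -(u / s * zb p q s) - R := hrep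
    rw [this]
    field_simp
    ring
  have hnorm : ‖zb p q s‖ ≤ 5 * T * ‖F + R‖ := by
    have h3 : ‖u‖ * ‖zb p q s‖ = ‖s‖ * ‖F + R‖ := by
      rw [← norm_mul, hz, norm_neg, norm_mul]
    have h4 : ‖u‖ * ‖zb p q s‖ ≤ ‖u‖ * (5 * T * ‖F + R‖) := by
      rw [h3]
      calc ‖s‖ * ‖F + R‖ ≤ (5 * T * ‖u‖) * ‖F + R‖ := by gcongr
        _ = _ := by ring
    exact le_of_mul_le_mul_left h4 (norm_pos_iff.mpr hu0)
  have hRn : (q - p) * (‖R‖ * ‖(1:ℂ) - s‖) ≤ 128 / T := by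
    have h1s : (1:ℂ) - s ≠ 0 := sub_ne_zero.mpr (Ne.symm hs1)
    rw [hR, norm_div, div_mul_cancel₀ _ (norm_ne_zero_iff.mpr h1s), norm_mul, norm_mul,
      Complex.norm_real, Real.norm_eq_abs]
    have h3 : ‖((rT T : ℂ) - 1)‖ ≤ 1 / T := by
      rw [← Complex.ofReal_one, ← Complex.ofReal_sub, Complex.norm_real, Real.norm_eq_abs,
        abs_of_nonneg (by linarith [one_le_rT hT])]
      exact rT_sub_le' hT
    have h4 : ‖((1/2:ℝ) : ℂ) ^ (1 - s)‖ ≤ 16 := by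
      rw [Complex.norm_cpow_eq_rpow_re_of_pos (by norm_num)]
      have h5 : (1 - s).re = 1 - σ := by simp [hsre]
      rw [h5]
      calc (1/2:ℝ) ^ (1 - σ) ≤ (1/2:ℝ) ^ (-4:ℝ) :=
            Real.rpow_le_rpow_of_exponent_ge (by norm_num) (by norm_num) (by linarith)
        _ = 16 := by
            rw [one_div, Real.inv_rpow (by norm_num), Real.rpow_neg (by norm_num), inv_inv]
            have : ((4:ℕ):ℝ) = 4 := by norm_num
            rw [← this, Real.rpow_natCast]; norm_num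
    calc (q - p) * (|Bv (exp p) (exp q)| * ‖((rT T : ℂ) - 1)‖ * ‖((1/2:ℝ) : ℂ) ^ (1 - s)‖)
        = ((q - p) * |Bv (exp p) (exp q)|) * ‖((rT T : ℂ) - 1)‖ * ‖((1/2:ℝ) : ℂ) ^ (1 - s)‖ := by
          ring
      _ ≤ 8 * (1 / T) * 16 := by
          gcongr
          exact H.dB_le
      _ = 128 / T := by ring
  have hn1s : 0 < ‖(1:ℂ) - s‖ := norm_pos_iff.mpr (sub_ne_zero.mpr (Ne.symm hs1))
  have ht2 : 0 < 1 + t ^ 2 := by positivity
  have hR2 : T ^ 2 * ((q - p) ^ 2 * ‖R‖ ^ 2) ≤ 262144 * (1 + t ^ 2)⁻¹ := by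
    have h3 : (T * ((q - p) * (‖R‖ * ‖(1:ℂ) - s‖))) ^ 2 ≤ 128 ^ 2 := by
      apply pow_le_pow_left₀ (by positivity)
      calc T * ((q - p) * (‖R‖ * ‖(1:ℂ) - s‖)) ≤ T * (128 / T) := by gcongr
        _ = 128 := by field_simp
    have h4 : T ^ 2 * ((q - p) ^ 2 * ‖R‖ ^ 2) * (1 + t ^ 2) ≤ 262144 := by
      calc T ^ 2 * ((q - p) ^ 2 * ‖R‖ ^ 2) * (1 + t ^ 2)
          ≤ T ^ 2 * ((q - p) ^ 2 * ‖R‖ ^ 2) * (16 * ‖(1:ℂ) - s‖ ^ 2) := by gcongr
        _ = 16 * (T * ((q - p) * (‖R‖ * ‖(1:ℂ) - s‖))) ^ 2 := by ring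
        _ ≤ 16 * 128 ^ 2 := by gcongr
        _ = 262144 := by norm_num
    rw [← div_eq_mul_inv, le_div_iff₀ ht2]
    exact h4
  have hFR : ‖F + R‖ ^ 2 ≤ 2 * ‖F‖ ^ 2 + 2 * ‖R‖ ^ 2 := by
    have h3 : ‖F + R‖ ≤ ‖F‖ + ‖R‖ := norm_add_le _ _
    have h4 : ‖F + R‖ ^ 2 ≤ (‖F‖ + ‖R‖) ^ 2 := pow_le_pow_left₀ (norm_nonneg _) h3 2
    nlinarith [sq_nonneg (‖F‖ - ‖R‖)]
  calc (q - p) ^ 2 * ‖zb p q s‖ ^ 2 ≤ (q - p) ^ 2 * (5 * T * ‖F + R‖) ^ 2 := by
        gcongr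
    _ = 25 * T ^ 2 * ((q - p) ^ 2 * ‖F + R‖ ^ 2) := by ring
    _ ≤ 25 * T ^ 2 * ((q - p) ^ 2 * (2 * ‖F‖ ^ 2 + 2 * ‖R‖ ^ 2)) := by gcongr
    _ = 50 * T ^ 2 * ((q - p) ^ 2 * ‖F‖ ^ 2) + 50 * (T ^ 2 * ((q - p) ^ 2 * ‖R‖ ^ 2)) := by ring
    _ ≤ 50 * T ^ 2 * ((q - p) ^ 2 * ‖F‖ ^ 2) + 50 * (262144 * (1 + t ^ 2)⁻¹) := by gcongr
    _ = _ := by ring

/-- **Second moment of a block.** -/
theorem moment {σ κ : ℝ} (hσ : 1 / 2 ≤ σ) (hσ5 : σ ≤ 5) (hκ : 2 / Real.log T ≤ κ) (hκ1 : κ ≤ 1)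
    (hκσ : κ ≤ 2 * σ - 1 + 2 / Real.log T) :
    ∫ t in Ioc 1 T, (q - p) ^ 2 * ‖zb p q (σ + t * Complex.I)‖ ^ 2 ≤
      3 * 10 ^ 6 * π * exp 27 * (T * exp (-(p * κ)) * (1 + 1 / κ + q) ^ 2) := by
  have hT := H.hT
  have h0 := hT0 hT
  have h16 := hT16 hT
  have h1000 := hT1000 hT
  have hκ0 : 0 < κ := lt_of_lt_of_le (by positivity) hκ
  obtain ⟨hint, hbd⟩ := mellin_bessel (T := T) (σ := σ) (measurable_fb T p q) H.norm_fb_le
    (fb_supp T p q) (by linarith) h0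
  rw [norm_fb_sq] at hbd
  have hi1 : IntegrableOn (fun t : ℝ => (q - p) ^ 2 * ‖zb p q (σ + t * Complex.I)‖ ^ 2)
      (Ioc 1 T) :=
    ((((continuousOn_zb p q (σ := σ) (a := 1) (b := T) le_rfl).norm.pow 2).integrableOn_Icc).mono_set
      Ioc_subset_Icc_self).const_mul _
  have hii : IntegrableOn (fun t : ℝ => ‖mellin (fb T p q) (-(σ + t * Complex.I))‖ ^ 2)
      (Ioc (-T) T) := hint.1
  have hi2 : IntegrableOn (fun t : ℝ => ‖mellin (fb T p q) (-(σ + t * Complex.I))‖ ^ 2)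
      (Ioc 1 T) := hii.mono_set (Ioc_subset_Ioc_left (by linarith))
  have hi3 : IntegrableOn (fun t : ℝ => (1 + t ^ 2)⁻¹) (Ioc 1 T) :=
    integrable_inv_one_add_sq.integrableOn
  have e1 : ∫ t in Ioc 1 T, (q - p) ^ 2 * ‖zb p q (σ + t * Complex.I)‖ ^ 2 ≤
      ∫ t in Ioc 1 T, (50 * T ^ 2 * ((q - p) ^ 2 *
        ‖mellin (fb T p q) (-(σ + t * Complex.I))‖ ^ 2) + 13107200 * (1 + t ^ 2)⁻¹) := by
    apply setIntegral_mono_on hi1 (((hi2.const_mul _).const_mul _).add (hi3.const_mul _))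
      measurableSet_Ioc
    intro t ht
    apply H.norm_zb_sq_le (by linarith) hσ5 _ (good_of_one_le ht.1.le)
    rw [abs_le]
    exact ⟨by linarith [ht.1], ht.2⟩
  refine e1.trans ?_
  rw [integral_add ((hi2.const_mul _).const_mul _) (hi3.const_mul _), integral_const_mul,
    integral_const_mul, integral_const_mul]
  have e2 : ∫ t in Ioc 1 T, ‖mellin (fb T p q) (-(σ + t * Complex.I))‖ ^ 2 ≤
      2 * π * exp 1 * Jb T p q σ := by
    refine le_trans ?_ hbd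
    rw [intervalIntegral.integral_of_le (by linarith)]
    apply setIntegral_mono_set hii
    · exact Filter.Eventually.of_forall fun t => by
        show (0:ℝ) ≤ ‖mellin (fb T p q) (-(σ + t * Complex.I))‖ ^ 2
        positivity
    · exact Filter.Eventually.of_forall fun x hx => ⟨by linarith [hx.1], hx.2⟩
  have e3 : ∫ t in Ioc 1 T, (1 + t ^ 2)⁻¹ ≤ π := by
    rw [← integral_univ_inv_one_add_sq]
    apply setIntegral_le_integral integrable_inv_one_add_sq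
    exact Filter.Eventually.of_forall fun t => by
      show (0:ℝ) ≤ (1 + t ^ 2)⁻¹
      positivity
  have e4 := H.Jb_le hσ hσ5 hκ hκ1 hκσ
  set E := (1 + 1 / κ + q) ^ 2 with hE
  set e := exp (-(p * κ)) with he
  have he0 : 0 < e := exp_pos _
  have hk0 : 0 < 1 / κ := by positivity
  have hq0 := H.q0
  have hp0 := H.hp
  have hE1 : 1 ≤ E := one_le_pow₀ (by linarith)
  have hTe : 1 ≤ T * e := by
    nth_rewrite 1 [← exp_log h0]
    rw [he, ← exp_add]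
    apply one_le_exp
    have hpL : p ≤ Real.log T / 8 := H.hpq.le.trans H.hq
    nlinarith
  have hE26 : exp 1 * exp 26 = exp 27 := by rw [← exp_add]; norm_num
  have h27 : 14 ≤ exp 27 := by
    have := add_one_le_exp (27:ℝ); linarith
  have hπ := Real.pi_pos
  have hTeE : 1 ≤ T * e * E := by nlinarith
  have e5 : 50 * T ^ 2 * ((q - p) ^ 2 *
      (∫ t in Ioc 1 T, ‖mellin (fb T p q) (-(σ + t * Complex.I))‖ ^ 2)) ≤
      2 * 10 ^ 6 * π * exp 27 * (T * e * E) := by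
    calc 50 * T ^ 2 * ((q - p) ^ 2 *
        (∫ t in Ioc 1 T, ‖mellin (fb T p q) (-(σ + t * Complex.I))‖ ^ 2))
        ≤ 50 * T ^ 2 * ((q - p) ^ 2 * (2 * π * exp 1 * Jb T p q σ)) := by gcongr
      _ = 100 * π * exp 1 * T ^ 2 * ((q - p) ^ 2 * Jb T p q σ) := by ring
      _ ≤ 100 * π * exp 1 * T ^ 2 * (2 * 10 ^ 4 * exp 26 * (e * E) / T) := by gcongr
      _ = 2 * 10 ^ 6 * π * (exp 1 * exp 26) * (T * e * E) := by field_simp; ring
      _ = _ := by rw [hE26]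
  have e6 : 13107200 * (∫ t in Ioc 1 T, (1 + t ^ 2)⁻¹) ≤ 10 ^ 6 * π * exp 27 * (T * e * E) := by
    calc 13107200 * (∫ t in Ioc 1 T, (1 + t ^ 2)⁻¹) ≤ 13107200 * π := by gcongr
      _ ≤ 10 ^ 6 * π * 14 := by nlinarith
      _ ≤ 10 ^ 6 * π * exp 27 := by gcongr
      _ ≤ 10 ^ 6 * π * exp 27 * (T * e * E) := le_mul_of_one_le_right (by positivity) hTeE
  linarith

end BlkH

end Pool.Agent.H77.HZ
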