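import Pool.Agent.H77.HZ.Ph
import Pool.Agent.PairCorr.JensenSum

/-!
# Phase variation of an analytic function along a vertical segment

Let `F, G` be analytic near the closed disc `|s - c| ≤ R`, of modulus at most `K` there, with
`G = conj F` on the segment `{σ + i t : τ ≤ t ≤ τ + 2}`, which lies in `|s - c| ≤ r < R`.  For each
`φ` the real function `Re (e^{-iφ} F(σ+it))` changes sign only at zeros of
`f_φ = e^{-iφ} F + e^{iφ} G`, of which there are at most `(log 2K - log |f_φ(c)|)/log (R/r)` by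
Jensen's formula; the mean over `φ` of `log |f_φ(c)|` is at least `log |F(c)|`, again by Jensen's
formula (in `e^{iφ}`).  Hence the `L¹` modulus of continuity of the phase of `F(σ+it)` is at most
`π h (log 2K - log |F(c)|)/log (R/r)`.
-/

namespace Pool.Agent.H77.HZ

open MeasureTheory Set Real Metric

/-- `1` if the real function `Re (e^{-iφ} f)` vanishes somewhere in `[t, t + H]` -/
noncomputable def Xc (f : ℝ → ℂ) (H φ t : ℝ) : ℝ := by
  classical
  exact if ∃ s ∈ Icc t (t + H), (Complex.exp (-(Complex.I * φ)) * f s).re = 0 then 1 else 0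

lemma Xc_nonneg (f : ℝ → ℂ) (H φ t : ℝ) : 0 ≤ Xc f H φ t := by
  unfold Xc; split_ifs <;> norm_num

lemma Xc_le_one (f : ℝ → ℂ) (H φ t : ℝ) : Xc f H φ t ≤ 1 := by
  unfold Xc; split_ifs <;> norm_num

lemma sg_le_Xc {f : ℝ → ℂ} (hf : Continuous f) {H h : ℝ} (φ t : ℝ) (hh : 0 ≤ h) (hhH : h ≤ H) :
    |sg ((Complex.exp (-(Complex.I * φ)) * f (t + h)).re) -
      sg ((Complex.exp (-(Complex.I * φ)) * f t).re)| ≤ 2 * Xc f H φ t := by
  set g : ℝ → ℝ := fun s => (Complex.exp (-(Complex.I * φ)) * f s).re with hg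
  have hgc : Continuous g := Complex.continuous_re.comp (continuous_const.mul hf)
  by_cases hex : ∃ s ∈ Icc t (t + H), (Complex.exp (-(Complex.I * φ)) * f s).re = 0
  · have hX : Xc f H φ t = 1 := by unfold Xc; rw [if_pos hex]
    rw [hX]
    have h1 := abs_sg_le (g (t + h))
    have h2 := abs_sg_le (g t)
    calc |sg (g (t + h)) - sg (g t)| ≤ |sg (g (t + h))| + |sg (g t)| := abs_sub _ _
      _ ≤ 2 * 1 := by linarith
  · have hX : Xc f H φ t = 0 := by unfold Xc; rw [if_neg hex]
    rw [hX, mul_zero]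
    push Not at hex
    have hne : ∀ x ∈ Icc t (t + h), g x ≠ 0 := by
      intro x hx
      exact hex x ⟨hx.1, by linarith [hx.2]⟩
    have hle : t ≤ t + h := by linarith
    have hgc' : ContinuousOn g (Icc t (t + h)) := hgc.continuousOn
    have ht1 := hne t ⟨le_rfl, hle⟩
    have ht2 := hne (t + h) ⟨hle, le_rfl⟩
    have heq : sg (g (t + h)) = sg (g t) := by
      rcases lt_or_gt_of_ne ht1 with h1 | h1
      · rcases lt_or_gt_of_ne ht2 with h2 | h2
        · rw [sg_of_neg h1, sg_of_neg h2]
        · exfalso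
          obtain ⟨x, hx, hx0⟩ := intermediate_value_Icc hle hgc' ⟨h1.le, h2.le⟩
          exact hne x hx hx0
      · rcases lt_or_gt_of_ne ht2 with h2 | h2
        · exfalso
          obtain ⟨x, hx, hx0⟩ := intermediate_value_Icc' hle hgc' ⟨h2.le, h1.le⟩
          exact hne x hx hx0
        · rw [sg_of_pos h1, sg_of_pos h2]
    show |sg (g (t + h)) - sg (g t)| ≤ 0
    rw [heq, sub_self, abs_zero]

lemma measurable_Xc {f : ℝ → ℂ} (hf : Continuous f) (H : ℝ) :
    Measurable fun p : ℝ × ℝ => Xc f H p.2 p.1 := by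
  have hcl : IsClosed {p : ℝ × ℝ | ∃ s ∈ Icc p.1 (p.1 + H),
      (Complex.exp (-(Complex.I * p.2)) * f s).re = 0} := by
    set A : Set ((ℝ × ℝ) × Icc (0:ℝ) H) := {q | (Complex.exp (-(Complex.I * q.1.2)) *
      f (q.1.1 + (q.2 : ℝ))).re = 0} with hA
    have hAc : IsClosed A := by
      apply isClosed_eq _ continuous_const
      apply Complex.continuous_re.comp
      apply Continuous.mul
      · fun_prop
      · exact hf.comp (by fun_prop)
    have himg : {p : ℝ × ℝ | ∃ s ∈ Icc p.1 (p.1 + H),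
      (Complex.exp (-(Complex.I * p.2)) * f s).re = 0} = Prod.fst '' A := by
      ext p
      simp only [Set.mem_ofPred_eq, mem_image]
      constructor
      · rintro ⟨s, hs, h0⟩
        refine ⟨(p, ⟨s - p.1, by constructor <;> linarith [hs.1, hs.2]⟩), ?_, rfl⟩
        show (Complex.exp (-(Complex.I * p.2)) * f (p.1 + (s - p.1))).re = 0
        rw [add_sub_cancel]; exact h0
      · rintro ⟨⟨q, s⟩, h0, rfl⟩
        refine ⟨q.1 + s, ⟨?_, ?_⟩, h0⟩
        · linarith [s.2.1]
        · linarith [s.2.2]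
    rw [himg]
    exact isClosedMap_fst_of_compactSpace A hAc
  have heq : (fun p : ℝ × ℝ => Xc f H p.2 p.1) = {p : ℝ × ℝ | ∃ s ∈ Icc p.1 (p.1 + H),
      (Complex.exp (-(Complex.I * p.2)) * f s).re = 0}.indicator (fun _ => (1:ℝ)) := by
    funext p
    by_cases hex : ∃ s ∈ Icc p.1 (p.1 + H), (Complex.exp (-(Complex.I * p.2)) * f s).re = 0
    · rw [indicator_of_mem (by exact hex)]
      unfold Xc; rw [if_pos hex]
    · rw [indicator_of_notMem (by exact hex)]
      unfold Xc; rw [if_neg hex]
  rw [heq]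
  exact measurable_const.indicator hcl.measurableSet

lemma crossing {f : ℝ → ℂ} {τ H φ : ℝ} (hH : 0 ≤ H) (hH1 : H ≤ 1) (Z : Finset ℝ)
    (hZ : ∀ t ∈ Icc τ (τ + 2), (Complex.exp (-(Complex.I * φ)) * f t).re = 0 → t ∈ Z) :
    ∫ t in Ioc τ (τ + 1), Xc f H φ t ≤ H * Z.card := by
  have hpt : ∀ t ∈ Ioc τ (τ + 1), Xc f H φ t ≤
      ∑ z ∈ Z, (Icc (z - H) z).indicator (fun _ => (1:ℝ)) t := by
    intro t ht
    have hnn : ∀ z ∈ Z, 0 ≤ (Icc (z - H) z).indicator (fun _ => (1:ℝ)) t := by
      intro z _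
      apply indicator_nonneg
      intro _ _; norm_num
    by_cases hex : ∃ s ∈ Icc t (t + H), (Complex.exp (-(Complex.I * φ)) * f s).re = 0
    · obtain ⟨z, hz2, h0⟩ := hex
      have hz : z ∈ Z := hZ z ⟨by linarith [ht.1, hz2.1], by linarith [ht.2, hz2.2]⟩ h0
      refine le_trans ?_ (Finset.single_le_sum hnn hz)
      rw [indicator_of_mem (by constructor <;> linarith [hz2.1, hz2.2])]
      exact Xc_le_one _ _ _ _
    · have hX : Xc f H φ t = 0 := by unfold Xc; rw [if_neg hex]
      rw [hX]
      exact Finset.sum_nonneg hnn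
  have hind : ∀ z ∈ Z, Integrable ((Icc (z - H) z).indicator (fun _ => (1:ℝ))) volume := by
    intro z _
    rw [integrable_indicator_iff measurableSet_Icc]
    exact continuousOn_const.integrableOn_Icc
  have h1 : ∫ t in Ioc τ (τ + 1), Xc f H φ t ≤
      ∫ t in Ioc τ (τ + 1), ∑ z ∈ Z, (Icc (z - H) z).indicator (fun _ => (1:ℝ)) t := by
    apply integral_mono_of_nonneg
    · exact Filter.Eventually.of_forall fun t => Xc_nonneg _ _ _ _
    · exact (integrable_finsetSum _ hind).integrableOn
    · exact (ae_restrict_iff' measurableSet_Ioc).mpr (Filter.Eventually.of_forall hpt)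
  refine h1.trans ?_
  rw [integral_finsetSum _ fun z hz => (hind z hz).integrableOn]
  have h2 : ∀ z ∈ Z, ∫ t in Ioc τ (τ + 1), (Icc (z - H) z).indicator (fun _ => (1:ℝ)) t ≤ H := by
    intro z hz
    refine (setIntegral_le_integral (hind z hz) (Filter.Eventually.of_forall fun t => ?_)).trans ?_
    · apply indicator_nonneg
      intro _ _; norm_num
    · rw [integral_indicator measurableSet_Icc, setIntegral_const, measureReal_def,
        Real.volume_Icc, ENNReal.toReal_ofReal (by linarith), smul_eq_mul]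
      linarith
  refine (Finset.sum_le_sum h2).trans (le_of_eq ?_)
  rw [Finset.sum_const, nsmul_eq_mul]
  ring

/-- the number of zeros, from Jensen's formula -/
lemma count_zeros {f : ℂ → ℂ} {c : ℂ} {r R K : ℝ} (hr : 0 < r) (hrR : r < R)
    (hf : AnalyticOnNhd ℂ f (closedBall c R)) (hfc : f c ≠ 0) (hK1 : 1 ≤ K)
    (hK : ∀ z ∈ closedBall c R, ‖f z‖ ≤ K) (S : Finset ℂ) (hS : ∀ ρ ∈ S, ‖ρ - c‖ ≤ r)
    (hS0 : ∀ ρ ∈ S, f ρ = 0) :
    S.card * Real.log (R / r) ≤ Real.log K - Real.log ‖f c‖ := by
  have hR : 0 < R := hr.trans hrR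
  have hJ := PairCorr.jensen_sum_le hr hrR hf hfc S hS
  have hlog : 0 < Real.log (R / r) := Real.log_pos (by rw [lt_div_iff₀ hr]; linarith)
  have hord : ∀ ρ ∈ S, (1:ℝ) ≤ (analyticOrderNatAt f ρ : ℝ) := by
    intro ρ hρ
    have hmem : ρ ∈ closedBall c R := by
      rw [mem_closedBall, dist_eq_norm]
      exact (hS ρ hρ).trans hrR.le
    have hcm : c ∈ closedBall c R := by simp [hR.le]
    have htop : analyticOrderAt f ρ ≠ ⊤ := by
      intro h
      rw [analyticOrderAt_eq_top] at h
      have := hf.eqOn_zero_of_preconnected_of_eventuallyEq_zero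
        (convex_closedBall c R).isPreconnected hmem h
      exact hfc (this hcm)
    have h1 := Nat.cast_analyticOrderNatAt htop
    have h0 : analyticOrderNatAt f ρ ≠ 0 := by
      intro h0
      rw [h0] at h1
      have := ((hf ρ hmem).analyticOrderAt_eq_zero.mp (by rw [← h1]; simp))
      exact this (hS0 ρ hρ)
    exact_mod_cast Nat.one_le_iff_ne_zero.mpr h0
  have h1 : (S.card : ℝ) ≤ ∑ ρ ∈ S, (analyticOrderNatAt f ρ : ℝ) := by
    have := Finset.sum_le_sum hord
    simpa using this
  have h2 : circleAverage (fun z => Real.log ‖f z‖) c R ≤ Real.log K := by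
    apply circleAverage_mono_on_of_le_circle
    · have : MeromorphicOn f (sphere c |R|) := by
        rw [abs_of_pos hR]
        exact (hf.mono sphere_subset_closedBall).meromorphicOn
      exact this.circleIntegrable_log_norm
    · intro z hz
      rw [abs_of_pos hR] at hz
      have hz' := hK z (sphere_subset_closedBall hz)
      rcases eq_or_ne (f z) 0 with h | h
      · rw [h, norm_zero, Real.log_zero]
        exact Real.log_nonneg hK1
      · exact Real.log_le_log (norm_pos_iff.mpr h) hz'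
  calc (S.card : ℝ) * Real.log (R / r)
      ≤ (∑ ρ ∈ S, (analyticOrderNatAt f ρ : ℝ)) * Real.log (R / r) := by gcongr
    _ ≤ circleAverage (fun z => Real.log ‖f z‖) c R - Real.log ‖f c‖ := hJ
    _ ≤ _ := by linarith

/-- the mean over the angle -/
lemma angle_mean {a b : ℂ} (ha : a ≠ 0) :
    IntervalIntegrable (fun φ : ℝ => Real.log ‖Complex.exp (-(Complex.I * φ)) * a +
      Complex.exp (Complex.I * φ) * b‖) volume 0 (2 * π) ∧
    2 * π * Real.log ‖a‖ ≤ ∫ φ in (0:ℝ)..(2 * π), Real.log ‖Complex.exp (-(Complex.I * φ)) * a +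
      Complex.exp (Complex.I * φ) * b‖ := by
  have hπ := Real.pi_pos
  set f : ℂ → ℂ := fun z => a + b * z ^ 2 with hf
  have hfan : AnalyticOnNhd ℂ f univ := by
    have : Differentiable ℂ f := by rw [hf]; fun_prop
    exact fun z _ => this.analyticAt z
  have hf0 : f 0 = a := by simp [hf]
  have hcm : ∀ φ : ℝ, circleMap (0:ℂ) 1 φ = Complex.exp (Complex.I * φ) := by
    intro φ
    rw [circleMap_zero]; push_cast
    rw [one_mul, mul_comm]
  have heq : ∀ φ : ℝ, ‖Complex.exp (-(Complex.I * φ)) * a + Complex.exp (Complex.I * φ) * b‖ =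
      ‖f (circleMap 0 1 φ)‖ := by
    intro φ
    have h1 : f (circleMap 0 1 φ) = Complex.exp (Complex.I * φ) *
        (Complex.exp (-(Complex.I * φ)) * a + Complex.exp (Complex.I * φ) * b) := by
      rw [hf, hcm]
      show a + b * Complex.exp (Complex.I * φ) ^ 2 = _
      have : Complex.exp (Complex.I * φ) * Complex.exp (-(Complex.I * φ)) = 1 := by
        rw [← Complex.exp_add]; simp
      calc a + b * Complex.exp (Complex.I * φ) ^ 2
          = 1 * a + Complex.exp (Complex.I * φ) * (Complex.exp (Complex.I * φ) * b) := by ring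
        _ = (Complex.exp (Complex.I * φ) * Complex.exp (-(Complex.I * φ))) * a +
            Complex.exp (Complex.I * φ) * (Complex.exp (Complex.I * φ) * b) := by rw [this]
        _ = _ := by ring
    rw [h1, norm_mul]
    have : ‖Complex.exp (Complex.I * φ)‖ = 1 := by
      rw [mul_comm]; exact Complex.norm_exp_ofReal_mul_I φ
    rw [this, one_mul]
  simp_rw [heq]
  have hci : CircleIntegrable (fun z => Real.log ‖f z‖) 0 1 := by
    have : MeromorphicOn f (sphere (0:ℂ) |1|) := (hfan.mono (subset_univ _)).meromorphicOn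
    exact this.circleIntegrable_log_norm
  refine ⟨hci, ?_⟩
  have hJ := PairCorr.jensen_sum_le (f := f) (c := 0) (r := 1/2) (R := 1)
    (by norm_num) (by norm_num) (hfan.mono (subset_univ _)) (by rw [hf0]; exact ha) ∅ (by simp)
  rw [hf0] at hJ
  simp only [Finset.sum_empty, zero_mul] at hJ
  have h2 : circleAverage (fun z => Real.log ‖f z‖) 0 1 =
      (2 * π)⁻¹ * ∫ φ in (0:ℝ)..(2 * π), Real.log ‖f (circleMap 0 1 φ)‖ := by
    rw [circleAverage_def]; rfl
  rw [h2] at hJ
  have h3 : Real.log ‖a‖ ≤ (2 * π)⁻¹ * ∫ φ in (0:ℝ)..(2 * π), Real.log ‖f (circleMap 0 1 φ)‖ := by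
    linarith
  calc 2 * π * Real.log ‖a‖ ≤ 2 * π * ((2 * π)⁻¹ * ∫ φ in (0:ℝ)..(2 * π),
        Real.log ‖f (circleMap 0 1 φ)‖) := by gcongr
    _ = _ := by rw [← mul_assoc, mul_inv_cancel₀ (by positivity), one_mul]

/-- exceptional angles form a null set -/
lemma angle_null {a : ℂ} (ha : a ≠ 0) (b : ℂ) :
    ∀ᵐ φ : ℝ, Complex.exp (-(Complex.I * φ)) * a + Complex.exp (Complex.I * φ) * b ≠ 0 := by
  have hc : ({φ : ℝ | ¬ (Complex.exp (-(Complex.I * φ)) * a +
      Complex.exp (Complex.I * φ) * b ≠ 0)}).Countable := by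
    by_cases hex : ∃ φ₀ : ℝ, Complex.exp (-(Complex.I * φ₀)) * a +
        Complex.exp (Complex.I * φ₀) * b = 0
    · obtain ⟨φ₀, h0⟩ := hex
      apply (countable_range (fun n : ℤ => φ₀ + n * π)).mono
      intro φ hφ
      simp only [Set.mem_ofPred_eq, not_not] at hφ
      have key : ∀ ψ : ℝ, Complex.exp (-(Complex.I * ψ)) * a +
        Complex.exp (Complex.I * ψ) * b = 0 → a = - (Complex.exp (2 * (Complex.I * ψ)) * b) := by
        intro ψ hψ
        have h1 : Complex.exp (Complex.I * ψ) * (Complex.exp (-(Complex.I * ψ)) * a +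
          Complex.exp (Complex.I * ψ) * b) = a + Complex.exp (2 * (Complex.I * ψ)) * b := by
          rw [mul_add, ← mul_assoc, ← mul_assoc, ← Complex.exp_add, ← Complex.exp_add]
          rw [add_neg_cancel, Complex.exp_zero, one_mul, ← two_mul]
        rw [hψ, mul_zero] at h1
        exact eq_neg_of_add_eq_zero_left h1.symm
      have k1 := key φ hφ
      have k2 := key φ₀ h0
      have hb : b ≠ 0 := by
        intro hb; rw [hb, mul_zero, neg_zero] at k1; exact ha k1
      have h2 : Complex.exp (2 * (Complex.I * φ)) = Complex.exp (2 * (Complex.I * φ₀)) := by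
        have : Complex.exp (2 * (Complex.I * φ)) * b = Complex.exp (2 * (Complex.I * φ₀)) * b := by
          have := k1.symm.trans k2
          exact neg_injective this
        exact mul_right_cancel₀ hb this
      rw [Complex.exp_eq_exp_iff_exists_int] at h2
      obtain ⟨n, hn⟩ := h2
      refine ⟨n, ?_⟩
      have h3 : (φ : ℂ) = ((φ₀ + n * π : ℝ) : ℂ) := by
        have h4 : (2 * Complex.I) * (φ : ℂ) = (2 * Complex.I) * ((φ₀ + n * π : ℝ) : ℂ) := by
          push_cast
          linear_combination hn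
        exact mul_left_cancel₀ (mul_ne_zero two_ne_zero Complex.I_ne_zero) h4
      have h5 : φ = φ₀ + n * π := by exact_mod_cast h3
      exact h5.symm
    · push Not at hex
      have : {φ : ℝ | ¬ (Complex.exp (-(Complex.I * φ)) * a +
          Complex.exp (Complex.I * φ) * b ≠ 0)} = ∅ := by
        ext φ
        simp only [Set.mem_ofPred_eq, not_not, mem_empty_iff_false, iff_false]
        exact hex φ
      rw [this]
      exact countable_empty
  exact hc.measure_zero volume

end Pool.Agent.H77.HZ
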