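import Pool.Agent.H77.HZ.Phase

/-!
# Phase variation of Dirichlet polynomials and of zeta far to the right
-/

namespace Pool.Agent.H77.HZ

open MeasureTheory Set Real Metric

/-- A Dirichlet polynomial. -/
noncomputable def DP (a : ℕ → ℂ) (N : ℕ) (s : ℂ) : ℂ :=
  ∑ n ∈ Finset.Icc 1 N, a n * (n : ℂ) ^ (-s)

lemma sum_inv_cube_le (N : ℕ) (hN : 1 ≤ N) :
    ∑ n ∈ Finset.Icc 2 N, ((n:ℝ) ^ 3)⁻¹ ≤ 1 / 2 - 1 / (2 * N) := by
  induction N, hN using Nat.le_induction with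
  | base => simp
  | succ N hN ih =>
    rw [Finset.sum_Icc_succ_top (by omega)]
    have hN0 : (1:ℝ) ≤ N := by exact_mod_cast hN
    have h1 : (((N + 1 : ℕ) : ℝ) ^ 3)⁻¹ ≤ 1 / (2 * N) - 1 / (2 * ((N + 1 : ℕ) : ℝ)) := by
      push_cast
      rw [inv_eq_one_div, div_sub_div _ _ (by positivity) (by positivity),
        div_le_div_iff₀ (by positivity) (by positivity)]
      nlinarith [mul_pos (show (0:ℝ) < N by linarith) (show (0:ℝ) < N by linarith), pow_pos (show (0:ℝ) < N by linarith) 3]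
    linarith

variable {a : ℕ → ℂ} {N : ℕ}

lemma differentiable_DP (a : ℕ → ℂ) (N : ℕ) : Differentiable ℂ (DP a N) := by
  unfold DP
  have : (fun s => ∑ n ∈ Finset.Icc 1 N, a n * (n : ℂ) ^ (-s)) =
      ∑ n ∈ Finset.Icc 1 N, fun s : ℂ => a n * (n : ℂ) ^ (-s) := by
    funext s; simp
  rw [this]
  apply Differentiable.sum
  intro n hn
  simp only [Finset.mem_Icc] at hn
  apply Differentiable.const_mul
  intro s
  apply DifferentiableAt.const_cpow (by fun_prop)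
  left
  exact_mod_cast (by omega : n ≠ 0)

lemma norm_natCast_cpow_neg {n : ℕ} (hn : 1 ≤ n) (s : ℂ) :
    ‖(n : ℂ) ^ (-s)‖ = (n:ℝ) ^ (-s.re) := by
  rw [Complex.norm_natCast_cpow_of_pos (by omega)]
  simp

lemma norm_DP_le (ha : ∀ n, ‖a n‖ ≤ 1) (hN : 1 ≤ N) {s : ℂ} {m : ℕ} (hs : -(m:ℝ) ≤ s.re) :
    ‖DP a N s‖ ≤ (N:ℝ) ^ (m + 1) := by
  unfold DP
  have hN1 : (1:ℝ) ≤ N := by exact_mod_cast hN
  have h1 : ∀ n ∈ Finset.Icc 1 N, ‖a n * (n : ℂ) ^ (-s)‖ ≤ (N:ℝ) ^ m := by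
    intro n hn
    simp only [Finset.mem_Icc] at hn
    have hn1 : (1:ℝ) ≤ n := by exact_mod_cast hn.1
    have hnN : (n:ℝ) ≤ N := by exact_mod_cast hn.2
    rw [norm_mul, norm_natCast_cpow_neg hn.1]
    calc ‖a n‖ * (n:ℝ) ^ (-s.re) ≤ 1 * (n:ℝ) ^ (m:ℝ) := by
          gcongr
          · exact ha n
          · linarith
      _ = (n:ℝ) ^ m := by rw [one_mul, Real.rpow_natCast]
      _ ≤ (N:ℝ) ^ m := by gcongr
  refine (norm_sum_le _ _).trans ?_
  refine (Finset.sum_le_sum h1).trans (le_of_eq ?_)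
  rw [Finset.sum_const, Nat.card_Icc, nsmul_eq_mul]
  simp only [add_tsub_cancel_right]
  ring

lemma norm_DP_ge (ha : ∀ n, ‖a n‖ ≤ 1) (ha1 : a 1 = 1) (hN : 1 ≤ N) {s : ℂ} (hs : 3 ≤ s.re) :
    1 / 2 ≤ ‖DP a N s‖ := by
  have hN1 : (1:ℝ) ≤ N := by exact_mod_cast hN
  have hsplit : DP a N s = 1 + ∑ n ∈ Finset.Icc 2 N, a n * (n : ℂ) ^ (-s) := by
    unfold DP
    rw [← Finset.add_sum_Ioc_eq_sum_Icc hN, ha1]
    have : Finset.Ioc 1 N = Finset.Icc 2 N := by ext x; simp; omega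
    rw [this]
    simp
  have h1 : ‖∑ n ∈ Finset.Icc 2 N, a n * (n : ℂ) ^ (-s)‖ ≤ 1 / 2 := by
    refine (norm_sum_le _ _).trans ?_
    refine le_trans (Finset.sum_le_sum (g := fun n : ℕ => ((n:ℝ) ^ 3)⁻¹) ?_) ?_
    · intro n hn
      simp only [Finset.mem_Icc] at hn
      have hn1 : (1:ℝ) ≤ n := by exact_mod_cast (by omega : 1 ≤ n)
      rw [norm_mul, norm_natCast_cpow_neg (by omega)]
      calc ‖a n‖ * (n:ℝ) ^ (-s.re) ≤ 1 * (n:ℝ) ^ (-(3:ℝ)) := by
            gcongr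
            exact ha n
        _ = ((n:ℝ) ^ 3)⁻¹ := by
            rw [one_mul, Real.rpow_neg (by positivity)]
            congr 1
            exact_mod_cast Real.rpow_natCast (n:ℝ) 3
    · refine (sum_inv_cube_le N hN).trans ?_
      have : 0 ≤ 1 / (2 * (N:ℝ)) := by positivity
      linarith
  rw [hsplit]
  have h2 := norm_sub_le (1 + ∑ n ∈ Finset.Icc 2 N, a n * (n : ℂ) ^ (-s))
    (∑ n ∈ Finset.Icc 2 N, a n * (n : ℂ) ^ (-s))
  rw [add_sub_cancel_right, norm_one] at h2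
  linarith

lemma conj_DP (a : ℕ → ℂ) (N : ℕ) (σ t : ℝ) :
    DP (fun n => (starRingEnd ℂ) (a n)) N (2 * σ - pt σ t) = (starRingEnd ℂ) (DP a N (pt σ t)) := by
  unfold DP
  rw [map_sum]
  refine Finset.sum_congr rfl fun n hn => ?_
  rw [map_mul]
  congr 1
  have h1 : (2 * (σ:ℂ) - pt σ t) = (starRingEnd ℂ) (pt σ t) := by
    unfold pt
    rw [map_add, map_mul, Complex.conj_ofReal, Complex.conj_ofReal, Complex.conj_I]
    ring
  rw [h1, ← map_neg]
  have h2 : (starRingEnd ℂ) ((n:ℂ) ^ (-pt σ t)) =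
      (starRingEnd ℂ) (n:ℂ) ^ (starRingEnd ℂ) (-pt σ t) := by
    rw [Complex.cpow_conj]
    · simp
    · rw [Complex.conj_natCast, Complex.natCast_arg]; exact Real.pi_pos.ne
  rw [h2, Complex.conj_natCast]

lemma continuous_DP_pt (a : ℕ → ℂ) (N : ℕ) (σ : ℝ) : Continuous fun t : ℝ => DP a N (pt σ t) :=
  (differentiable_DP a N).continuous.comp (continuous_pt σ)

lemma DP_ball {τ : ℝ} : ∀ z ∈ closedBall (pt 3 (τ + 1)) (6.4:ℝ), |z.re - 3| ≤ 6.4 := by
  intro z hz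
  rw [mem_closedBall, dist_eq_norm] at hz
  have := Complex.abs_re_le_norm (z - pt 3 (τ + 1))
  rw [Complex.sub_re, pt_re] at this
  exact this.trans hz

lemma DP_seg {σ τ : ℝ} (hσ : 0 ≤ σ) (hσ5 : σ ≤ 5) :
    ∀ t ∈ Icc τ (τ + 2), ‖pt σ t - pt 3 (τ + 1)‖ ≤ 3.2 := by
  intro t ht
  have e : pt σ t - pt 3 (τ + 1) = ((σ - 3 : ℝ) : ℂ) + ((t - (τ + 1) : ℝ) : ℂ) * Complex.I := by
    unfold pt; push_cast; ring
  rw [e]
  have h2 : ‖((σ - 3 : ℝ) : ℂ) + ((t - (τ + 1) : ℝ) : ℂ) * Complex.I‖ ^ 2 ≤ 3.2 ^ 2 := by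
    rw [← Complex.normSq_eq_norm_sq, Complex.normSq_add_mul_I]
    have h3 : (σ - 3) ^ 2 ≤ 9 := by nlinarith
    have h4 : (t - (τ + 1)) ^ 2 ≤ 1 := by nlinarith [ht.1, ht.2]
    norm_num
    linarith
  exact le_of_sq_le_sq h2 (by norm_num)

lemma DP_ne (ha : ∀ n, ‖a n‖ ≤ 1) (ha1 : a 1 = 1) (hN : 1 ≤ N) (τ : ℝ) :
    DP a N (pt 3 (τ + 1)) ≠ 0 := by
  have hc0 : 1 / 2 ≤ ‖DP a N (pt 3 (τ + 1))‖ := norm_DP_ge ha ha1 hN (by rw [pt_re])
  intro h0
  rw [h0, norm_zero] at hc0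
  norm_num at hc0

/-- zeros on a vertical line form a null set -/
lemma DP_zeros_null (ha : ∀ n, ‖a n‖ ≤ 1) (ha1 : a 1 = 1) (hN : 1 ≤ N) {σ : ℝ} (hσ : 0 ≤ σ)
    (hσ5 : σ ≤ 5) : ∀ᵐ t : ℝ, DP a N (pt σ t) ≠ 0 := by
  have hN1 : (1:ℝ) ≤ N := by exact_mod_cast hN
  have hfin : ∀ k : ℤ, {t : ℝ | t ∈ Icc (k:ℝ) (k + 2) ∧ DP a N (pt σ t) = 0}.Finite := by
    intro k
    exact finite_zeros (F := DP a N) (c := pt 3 (k + 1)) (r := 3.2) (R := 6.4) (K := (N:ℝ) ^ 11)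
      (by norm_num) (by norm_num) (fun z _ => (differentiable_DP a N).analyticAt z)
      (one_le_pow₀ hN1)
      (by
        intro z hz
        have h1 := abs_le.mp (DP_ball z hz)
        refine (norm_DP_le (m := 4) ha hN (by push_cast; linarith [h1.1])).trans ?_
        exact pow_le_pow_right₀ hN1 (by norm_num))
      (DP_ne ha ha1 hN k) (DP_seg hσ hσ5)
  have hcount : ({t : ℝ | ¬ (DP a N (pt σ t) ≠ 0)}).Countable := by
    apply (countable_iUnion fun k : ℤ => (hfin k).countable).mono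
    intro t ht
    simp only [Set.mem_ofPred_eq, not_not] at ht
    rw [mem_iUnion]
    refine ⟨⌊t⌋, ⟨Int.floor_le t, ?_⟩, ht⟩
    linarith [Int.lt_floor_add_one t]
  exact hcount.measure_zero volume

/-- The phase of a Dirichlet polynomial varies by at most `O(log N)` in unit time. -/
theorem DP_phase (ha : ∀ n, ‖a n‖ ≤ 1) (ha1 : a 1 = 1) (hN : 1 ≤ N) {σ : ℝ} (hσ : 0 ≤ σ)
    (hσ5 : σ ≤ 5) (τ : ℝ) {H : ℝ} (hh : 0 ≤ H) (hh1 : H ≤ 1) :
    ∫ t in Ioc τ (τ + 1), Wf (fun t => DP a N (pt σ t)) H t ≤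
      51 * H * (Real.log N + 1) := by
  have hN1 : (1:ℝ) ≤ N := by exact_mod_cast hN
  have hlogN : 0 ≤ Real.log N := Real.log_nonneg hN1
  set c : ℂ := pt 3 (τ + 1) with hc
  have hcre : c.re = 3 := by rw [hc, pt_re]
  have hball : ∀ z ∈ closedBall c (6.4:ℝ), |z.re - 3| ≤ 6.4 := by
    intro z hz
    rw [mem_closedBall, dist_eq_norm] at hz
    have := Complex.abs_re_le_norm (z - c)
    rw [Complex.sub_re, hcre] at this
    exact this.trans hz
  have hc0 : 1 / 2 ≤ ‖DP a N c‖ := norm_DP_ge ha ha1 hN (by rw [hcre])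
  have hcne : DP a N c ≠ 0 := by
    intro h0
    rw [h0, norm_zero] at hc0
    norm_num at hc0
  have hmain := phase_variation (F := DP a N)
    (G := fun s => DP (fun n => (starRingEnd ℂ) (a n)) N (2 * σ - s)) (c := c) (r := 3.2) (R := 6.4)
    (K := (N:ℝ) ^ 11) (σ := σ) (τ := τ) (H := H) (by norm_num) (by norm_num)
    (fun z _ => (differentiable_DP a N).analyticAt z)
    (fun z _ => by
      have : Differentiable ℂ (fun s : ℂ => DP (fun n => (starRingEnd ℂ) (a n)) N (2 * σ - s)) :=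
        (differentiable_DP _ N).comp (by fun_prop)
      exact this.analyticAt z)
    (one_le_pow₀ hN1)
    (by
      intro z hz
      have h1 := abs_le.mp (hball z hz)
      refine (norm_DP_le (m := 4) ha hN (by push_cast; linarith [h1.1])).trans ?_
      exact pow_le_pow_right₀ hN1 (by norm_num))
    (by
      intro z hz
      have h1 := abs_le.mp (hball z hz)
      refine (norm_DP_le (m := 10) (fun n => by rw [Complex.norm_conj]; exact ha n) hN ?_).trans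
        (le_refl _)
      rw [Complex.sub_re]
      have : ((2:ℂ) * σ).re = 2 * σ := by simp
      rw [this]
      push_cast
      linarith [h1.2])
    hcne
    (DP_seg hσ hσ5)
    (fun t _ => conj_DP a N σ t)
    (continuous_DP_pt a N σ) hh hh1
  refine hmain.trans ?_
  have hl2 := Real.log_two_gt_d9
  have hl2' := Real.log_two_lt_d9
  have hπ := Real.pi_lt_d2
  have hπ0 := Real.pi_pos
  have e1 : (6.4:ℝ) / 3.2 = 2 := by norm_num
  rw [e1, Real.log_mul (by norm_num) (by positivity), Real.log_pow]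
  have h5 : -Real.log 2 ≤ Real.log ‖DP a N c‖ := by
    rw [← Real.log_inv]
    apply Real.log_le_log (by norm_num)
    rw [inv_eq_one_div]; exact hc0
  have h6 : (Real.log 2 + (11:ℕ) * Real.log N - Real.log ‖DP a N c‖) / Real.log 2 ≤
      15.9 * (Real.log N + 1) := by
    rw [div_le_iff₀ (by linarith)]
    push_cast
    nlinarith
  calc π * H * ((Real.log 2 + (11:ℕ) * Real.log N - Real.log ‖DP a N c‖) / Real.log 2)
      ≤ π * H * (15.9 * (Real.log N + 1)) := by gcongr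
    _ ≤ 3.15 * H * (15.9 * (Real.log N + 1)) := by gcongr
    _ ≤ 51 * H * (Real.log N + 1) := by
        nlinarith [mul_nonneg hh (by linarith : 0 ≤ Real.log N + 1)]

end Pool.Agent.H77.HZ
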