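import Pool.Agent.H77.HZ.DirPoly

/-!
# Phase of zeta far to the right, and sums over unit intervals
-/

namespace Pool.Agent.H77.HZ

open MeasureTheory Set Real Metric

lemma tsum_inv_sq_tail : ∑' n : ℕ, (((n:ℝ) + 2) ^ 2)⁻¹ ≤ 3 / 4 ∧
    Summable fun n : ℕ => (((n:ℝ) + 2) ^ 2)⁻¹ := by
  have h0 : Summable fun n : ℕ => ((n:ℝ) ^ 2)⁻¹ := Real.summable_nat_pow_inv.mpr (by norm_num)
  have h2 : Summable fun n : ℕ => (((n:ℝ) + 2) ^ 2)⁻¹ := by
    have := (summable_nat_add_iff 2).mpr h0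
    simpa using this
  refine ⟨?_, h2⟩
  have hz : ∑' n : ℕ, ((n:ℝ) ^ 2)⁻¹ = π ^ 2 / 6 := by
    have := hasSum_zeta_two.tsum_eq
    simpa using this
  have hsplit := h0.sum_add_tsum_nat_add 2
  rw [hz] at hsplit
  have e : ∑' n : ℕ, (((n + 2 : ℕ) : ℝ) ^ 2)⁻¹ = ∑' n : ℕ, (((n:ℝ) + 2) ^ 2)⁻¹ := by
    congr 1; funext n; push_cast; rfl
  rw [e] at hsplit
  have e2 : ∑ i ∈ Finset.range 2, ((i:ℝ) ^ 2)⁻¹ = 1 := by
    simp [Finset.sum_range_succ]
  rw [e2] at hsplit
  have hπ := Real.pi_lt_d2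
  have hπ0 := Real.pi_pos
  nlinarith

lemma norm_zeta_sub_one_le {s : ℂ} (hs : 2 ≤ s.re) : ‖riemannZeta s - 1‖ ≤ 3 / 4 := by
  obtain ⟨hle, hsum⟩ := tsum_inv_sq_tail
  have hs1 : 1 < s.re := by linarith
  have hS : Summable fun n : ℕ => 1 / ((n:ℂ) + 1) ^ s := by
    have := (Complex.summable_one_div_nat_cpow (p := s)).mpr hs1
    have h2 := (summable_nat_add_iff 1).mpr this
    simpa using h2
  rw [zeta_eq_tsum_one_div_nat_add_one_cpow hs1, hS.tsum_eq_zero_add]
  have e0 : 1 / (((0:ℕ):ℂ) + 1) ^ s = 1 := by simp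
  rw [e0, add_sub_cancel_left]
  have hb : ∀ n : ℕ, ‖1 / (((n + 1 : ℕ) : ℂ) + 1) ^ s‖ ≤ (((n:ℝ) + 2) ^ 2)⁻¹ := by
    intro n
    have e1 : (((n + 1 : ℕ) : ℂ) + 1) = (((n + 2 : ℕ) : ℕ) : ℂ) := by push_cast; ring
    rw [e1, norm_div, norm_one, Complex.norm_natCast_cpow_of_pos (by omega), one_div]
    have h2 : (1:ℝ) ≤ ((n + 2 : ℕ) : ℝ) := by exact_mod_cast (by omega : 1 ≤ n + 2)
    apply inv_anti₀ (by positivity)
    calc ((n:ℝ) + 2) ^ 2 = (((n + 2 : ℕ) : ℝ)) ^ (2:ℝ) := by
          rw [show (2:ℝ) = ((2:ℕ) : ℝ) by norm_num, Real.rpow_natCast]; push_cast; ring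
      _ ≤ _ := Real.rpow_le_rpow_of_exponent_le h2 hs
  exact (tsum_of_norm_bounded hsum.hasSum hb).trans hle

lemma measurable_zeta : Measurable riemannZeta := by
  apply measurable_of_continuousOn_compl_singleton 1
  intro z hz
  exact (differentiableAt_riemannZeta hz).continuousAt.continuousWithinAt

lemma measurable_zeta_pt (σ : ℝ) : Measurable fun t : ℝ => riemannZeta (pt σ t) :=
  measurable_zeta.comp (continuous_pt σ).measurable

lemma continuous_zeta_pt {σ : ℝ} (hσ : 1 < σ) : Continuous fun t : ℝ => riemannZeta (pt σ t) := by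
  rw [continuous_iff_continuousAt]
  intro t
  have hne : pt σ t ≠ 1 := by
    intro h1
    have := congrArg Complex.re h1
    rw [pt_re] at this
    simp at this
    linarith
  exact ContinuousAt.comp (f := pt σ) (differentiableAt_riemannZeta hne).continuousAt
    (continuous_pt σ).continuousAt

lemma conj_zeta (σ t : ℝ) : riemannZeta (2 * σ - pt σ t) = (starRingEnd ℂ) (riemannZeta (pt σ t)) := by
  have h1 : (2 * (σ:ℂ) - pt σ t) = (starRingEnd ℂ) (pt σ t) := by
    unfold pt
    rw [map_add, map_mul, Complex.conj_ofReal, Complex.conj_ofReal, Complex.conj_I]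
    ring
  rw [h1, riemannZeta_conj]

/-- The phase of zeta far to the right. -/
theorem zeta_phase {σ : ℝ} (hσ : 4 ≤ σ) (τ : ℝ) {H : ℝ} (hh : 0 ≤ H) (hh1 : H ≤ 1) :
    ∫ t in Ioc τ (τ + 1), Wf (fun t => riemannZeta (pt σ t)) H t ≤ 16 * H := by
  set c : ℂ := pt σ (τ + 1) with hc
  have hcre : c.re = σ := by rw [hc, pt_re]
  have hball : ∀ z ∈ closedBall c (2:ℝ), |z.re - σ| ≤ 2 := by
    intro z hz
    rw [mem_closedBall, dist_eq_norm] at hz
    have := Complex.abs_re_le_norm (z - c)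
    rw [Complex.sub_re, hcre] at this
    exact this.trans hz
  have hc0 : 1 / 4 ≤ ‖riemannZeta c‖ := by
    have h1 := norm_zeta_sub_one_le (s := c) (by rw [hcre]; linarith)
    have h2 := norm_sub_le (riemannZeta c) (riemannZeta c - 1)
    rw [sub_sub_cancel, norm_one] at h2
    linarith
  have hcne : riemannZeta c ≠ 0 := by
    intro h0
    rw [h0, norm_zero] at hc0
    norm_num at hc0
  have hub : ∀ s : ℂ, 2 ≤ s.re → ‖riemannZeta s‖ ≤ 2 := by
    intro s hs
    have h1 := norm_zeta_sub_one_le hs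
    have h2 := norm_add_le (riemannZeta s - 1) 1
    rw [sub_add_cancel, norm_one] at h2
    linarith
  have hopen : ∀ s : ℂ, 2 ≤ s.re → AnalyticAt ℂ riemannZeta s := by
    intro s hs
    have hne : s ≠ 1 := by
      intro h1; rw [h1] at hs; norm_num at hs
    have hd : DifferentiableOn ℂ riemannZeta {1}ᶜ := fun z hz =>
      (differentiableAt_riemannZeta hz).differentiableWithinAt
    exact hd.analyticAt (isOpen_compl_singleton.mem_nhds hne)
  have hmain := phase_variation (F := riemannZeta)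
    (G := fun s => riemannZeta (2 * σ - s)) (c := c) (r := 1) (R := 2)
    (K := 2) (σ := σ) (τ := τ) (H := H) (by norm_num) (by norm_num)
    (fun z hz => hopen z (by have := abs_le.mp (hball z hz); linarith [this.1]))
    (fun z hz => by
      have h1 := abs_le.mp (hball z hz)
      have h2 : AnalyticAt ℂ riemannZeta (2 * σ - z) := hopen _ (by
        rw [Complex.sub_re]
        have : ((2:ℂ) * σ).re = 2 * σ := by simp
        rw [this]; linarith [h1.2])
      exact h2.comp (f := fun s : ℂ => 2 * (σ:ℂ) - s) (by fun_prop))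
    (by norm_num)
    (fun z hz => hub z (by have := abs_le.mp (hball z hz); linarith [this.1]))
    (fun z hz => by
      have h1 := abs_le.mp (hball z hz)
      apply hub
      rw [Complex.sub_re]
      have : ((2:ℂ) * σ).re = 2 * σ := by simp
      rw [this]; linarith [h1.2])
    hcne
    (by
      intro t ht
      have e : pt σ t - c = ((t - (τ + 1) : ℝ) : ℂ) * Complex.I := by
        rw [hc]; unfold pt; push_cast; ring
      rw [e, norm_mul, Complex.norm_I, mul_one, Complex.norm_real, Real.norm_eq_abs, abs_le]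
      constructor <;> linarith [ht.1, ht.2])
    (fun t _ => conj_zeta σ t)
    (continuous_zeta_pt (by linarith)) hh hh1
  refine hmain.trans ?_
  have hl2 := Real.log_two_gt_d9
  have hl2' := Real.log_two_lt_d9
  have hπ := Real.pi_lt_d2
  have hπ0 := Real.pi_pos
  have e1 : (2:ℝ) / 1 = 2 := by norm_num
  have e2 : Real.log (2 * 2) = 2 * Real.log 2 := by
    rw [Real.log_mul (by norm_num) (by norm_num)]; ring
  rw [e1, e2]
  have h5 : -(2 * Real.log 2) ≤ Real.log ‖riemannZeta c‖ := by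
    rw [← e2, ← Real.log_inv]
    apply Real.log_le_log (by norm_num)
    refine le_trans (by norm_num) hc0
  have h6 : (2 * Real.log 2 - Real.log ‖riemannZeta c‖) / Real.log 2 ≤ 4 := by
    rw [div_le_iff₀ (by linarith)]
    linarith
  calc π * H * ((2 * Real.log 2 - Real.log ‖riemannZeta c‖) / Real.log 2)
      ≤ π * H * 4 := by gcongr
    _ ≤ 4 * H * 4 := by gcongr; linarith
    _ = 16 * H := by ring

/-- from unit intervals to `(T, 2T]` -/
lemma sum_unit {f : ℝ → ℝ} (hf : ∀ a b, IntervalIntegrable f volume a b) (hnn : ∀ x, 0 ≤ f x)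
    {T B : ℝ} (hT : 1 ≤ T) (h : ∀ τ, ∫ t in Ioc τ (τ + 1), f t ≤ B) :
    ∫ t in Ioc T (2 * T), f t ≤ 2 * T * B := by
  have hB : 0 ≤ B := (setIntegral_nonneg measurableSet_Ioc fun x _ => hnn x).trans (h 0)
  set n : ℕ := ⌈T⌉₊ with hn
  have hTn : T ≤ n := Nat.le_ceil T
  have hnT : (n:ℝ) ≤ 2 * T := by
    have := (Nat.ceil_lt_add_one (by linarith : 0 ≤ T)).le
    linarith
  have h1 : ∫ t in Ioc T (2 * T), f t ≤ ∫ t in Ioc T (T + n), f t := by
    apply setIntegral_mono_set
    · exact (hf T (T + n)).1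
    · exact Filter.Eventually.of_forall hnn
    · exact (Ioc_subset_Ioc_right (by linarith)).eventuallyLE
  refine h1.trans ?_
  have h2 : ∫ t in Ioc T (T + n), f t = ∑ k ∈ Finset.range n, ∫ t in (T + k)..(T + (k + 1 : ℕ)), f t := by
    rw [← intervalIntegral.integral_of_le (by linarith)]
    rw [intervalIntegral.sum_integral_adjacent_intervals (a := fun k : ℕ => T + (k:ℝ))
      (fun k _ => hf _ _)]
    simp
  rw [h2]
  have h3 : ∀ k ∈ Finset.range n, ∫ t in (T + k)..(T + (k + 1 : ℕ)), f t ≤ B := by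
    intro k _
    rw [intervalIntegral.integral_of_le (by push_cast; linarith)]
    have := h (T + k)
    have e : T + (k:ℝ) + 1 = T + ((k + 1 : ℕ) : ℝ) := by push_cast; ring
    rwa [e] at this
  refine (Finset.sum_le_sum h3).trans ?_
  rw [Finset.sum_const, Finset.card_range, nsmul_eq_mul]
  gcongr

end Pool.Agent.H77.HZ
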