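import Pool.Agent.H77.HZ.Rot
import Pool.Agent.H77.HZ.ZetaFar

/-!
# The functional equation for the phase

For `t` large and bounded `σ`, `e^{iθ(t)} ph ζ(1-σ+it)` is within `O(1/t)` of the complex conjugate
of `e^{iθ(t)} ph ζ(σ+it)`.
-/

namespace Pool.Agent.H77.HZ

open MeasureTheory Set Real

/-- `Γ(z + δ)` for real `δ`, `z = 1/4 + i t/2` -/
lemma Gamma_real_shift {t δ : ℝ} (ht : 60 ≤ t) (hδ : |δ| ≤ 9 / 4) :
    ‖ph (Complex.Gamma (1 / 4 + Complex.I * t / 2 + δ)) -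
      ph (Complex.Gamma (1 / 4 + Complex.I * t / 2)) *
        Complex.exp (Complex.I * ((δ * Complex.arg (1 / 4 + Complex.I * t / 2) : ℝ) : ℂ))‖ ≤
      240 / t := by
  set z : ℂ := ((1 / 4 : ℝ) : ℂ) + ((t / 2 : ℝ) : ℂ) * Complex.I with hz
  have hzt : (1 / 4 + Complex.I * t / 2 : ℂ) = z := by rw [hz]; push_cast; ring
  rw [hzt]
  have ht0 : 0 < t := by linarith
  have hn' : ‖(δ : ℂ)‖ = |δ| := by rw [Complex.norm_real, Real.norm_eq_abs]
  have hty : |t / 2| = t / 2 := abs_of_nonneg (by linarith)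
  have hgr := H74.ZS.gamma_ratio (1 / 4) (t / 2) (by norm_num) (by rw [hty]; linarith) (δ : ℂ)
    (by rw [hn', hty]; linarith)
  rw [← hz, hn', hty] at hgr
  set Γz := Complex.Gamma z with hΓz
  have hΓ0 : Γz ≠ 0 := by
    have := Gamma_ne t
    rwa [hzt] at this
  set E := Complex.exp (δ * Complex.log z) with hE
  have hE0 : E ≠ 0 := Complex.exp_ne_zero _
  set b : ℝ := 4 * (|δ| + |δ| ^ 2) / (t / 2) with hb
  have hb0 : 0 ≤ b := by
    rw [hb]
    positivity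
  have hb1 : b ≤ 60 / t := by
    rw [hb, div_le_div_iff₀ (by linarith) (by linarith)]
    have h0 := abs_nonneg δ
    have : |δ| ^ 2 ≤ 81 / 16 := by nlinarith
    nlinarith
  have hb2 : b ≤ 1 := by
    refine hb1.trans ?_
    rw [div_le_one ht0]; exact ht
  have hexpb : Real.exp b - 1 ≤ 2 * b := by
    have h4 := Real.abs_exp_sub_one_sub_id_le (x := b) (by rw [abs_of_nonneg hb0]; exact hb2)
    have h5 := (abs_le.mp h4).2
    nlinarith
  set q : ℂ := Complex.Gamma (z + δ) / (Γz * E) with hq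
  have hΓE : Γz * E ≠ 0 := mul_ne_zero hΓ0 hE0
  have hq1 : ‖q - 1‖ ≤ 2 * b := by
    have e1 : q - 1 = (Complex.Gamma (z + δ) - Γz * E) / (Γz * E) := by
      rw [hq, sub_div, div_self hΓE]
    rw [e1, norm_div, div_le_iff₀ (norm_pos_iff.mpr hΓE)]
    refine hgr.trans ?_
    rw [mul_comm]
    gcongr
  have hGq : Complex.Gamma (z + δ) = Γz * E * q := by
    rw [hq, mul_div_cancel₀ _ hΓE]
  have hphE : ph E = Complex.exp (Complex.I * ((δ * Complex.arg z : ℝ) : ℂ)) := by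
    have hsplit : (δ:ℂ) * Complex.log z = ((δ * Real.log ‖z‖ : ℝ) : ℂ) +
        Complex.I * ((δ * Complex.arg z : ℝ) : ℂ) := by
      have hlz : Complex.log z = (Real.log ‖z‖ : ℂ) + (Complex.arg z : ℂ) * Complex.I := rfl
      rw [hlz]
      push_cast
      ring
    rw [hE, hsplit, Complex.exp_add, ph_mul, ph_of_norm_one (norm_exp_I _), ← Complex.ofReal_exp]
    have : ph ((Real.exp (δ * Real.log ‖z‖) : ℝ) : ℂ) = 1 := by
      unfold ph
      rw [Complex.norm_real, Real.norm_eq_abs, abs_of_pos (Real.exp_pos _)]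
      apply div_self
      exact_mod_cast (Real.exp_pos _).ne'
    rw [this, one_mul]
  rw [hGq, ph_mul, ph_mul, hphE]
  have e2 : ph Γz * Complex.exp (Complex.I * ((δ * Complex.arg z : ℝ) : ℂ)) * ph q -
      ph Γz * Complex.exp (Complex.I * ((δ * Complex.arg z : ℝ) : ℂ)) =
      ph Γz * Complex.exp (Complex.I * ((δ * Complex.arg z : ℝ) : ℂ)) * (ph q - 1) := by ring
  rw [e2, norm_mul, norm_mul, norm_ph_of_ne hΓ0, norm_exp_I, one_mul, one_mul]
  calc ‖ph q - 1‖ ≤ 2 * ‖q - 1‖ := norm_ph_sub_one_le q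
    _ ≤ 2 * (2 * b) := by gcongr
    _ ≤ 2 * (2 * (60 / t)) := by gcongr
    _ = 240 / t := by ring

/-- phase of the Gamma factor -/
lemma ph_Gammaℝ (σ t : ℝ) : ph (Complex.Gammaℝ (pt σ t)) =
    Complex.exp (Complex.I * ((-(t / 2 * Real.log π) : ℝ) : ℂ)) *
      ph (Complex.Gamma (1 / 4 + Complex.I * t / 2 + (((σ - 1 / 2) / 2 : ℝ) : ℂ))) := by
  have hπ := Real.pi_pos
  rw [Complex.Gammaℝ_def, ph_mul]
  have e1 : pt σ t / 2 = 1 / 4 + Complex.I * t / 2 + (((σ - 1 / 2) / 2 : ℝ) : ℂ) := by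
    unfold pt; push_cast; ring
  have e2 : (π : ℂ) ^ (-pt σ t / 2) = ((π ^ (-(σ / 2)) : ℝ) : ℂ) *
      Complex.exp (Complex.I * ((-(t / 2 * Real.log π) : ℝ) : ℂ)) := by
    have h1 : (-pt σ t / 2 : ℂ) = ((-(σ / 2) : ℝ) : ℂ) + -(Complex.I * t / 2) := by
      unfold pt; push_cast; ring
    rw [h1, Complex.cpow_add _ _ (by exact_mod_cast hπ.ne'), pi_cpow, Complex.ofReal_cpow hπ.le]
  rw [e1, e2, ph_mul, ph_of_norm_one (norm_exp_I _)]
  have h3 : ph ((π ^ (-(σ / 2)) : ℝ) : ℂ) = 1 := by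
    unfold ph
    have : 0 < π ^ (-(σ / 2)) := Real.rpow_pos_of_pos hπ _
    rw [Complex.norm_real, Real.norm_eq_abs, abs_of_pos this]
    apply div_self
    exact_mod_cast this.ne'
  rw [h3, one_mul]

/-- the functional equation for phases -/
lemma ph_fe {σ t : ℝ} (ht : 0 < t) :
    ph (riemannZeta (pt (1 - σ) t)) * ph (Complex.Gammaℝ (pt (1 - σ) t)) =
      (starRingEnd ℂ) (ph (riemannZeta (pt σ t)) * ph (Complex.Gammaℝ (pt σ t))) := by
  have hne0 : ∀ x : ℝ, pt x t ≠ 0 := by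
    intro x h
    have := congrArg Complex.im h
    rw [pt_im] at this
    simp at this
    linarith
  have hG : ∀ x y : ℝ, y ≠ 0 → Complex.Gammaℝ (pt x y) ≠ 0 := by
    intro x y hy h
    rw [Complex.Gammaℝ_eq_zero_iff] at h
    obtain ⟨n, hn⟩ := h
    have := congrArg Complex.im hn
    rw [pt_im] at this
    simp at this
    exact hy this
  have hΛ : ∀ x : ℝ, riemannZeta (pt x t) * Complex.Gammaℝ (pt x t) =
      completedRiemannZeta (pt x t) := by
    intro x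
    rw [riemannZeta_def_of_ne_zero (hne0 x), div_mul_cancel₀ _ (hG x t ht.ne')]
  have hconjpt : (starRingEnd ℂ) (pt σ t) = pt σ (-t) := by
    unfold pt
    rw [map_add, map_mul, Complex.conj_ofReal, Complex.conj_ofReal, Complex.conj_I]
    push_cast; ring
  have h1 : (1:ℂ) - pt (1 - σ) t = pt σ (-t) := by
    unfold pt; push_cast; ring
  have hne0' : pt σ (-t) ≠ 0 := by
    intro h
    have := congrArg Complex.im h
    rw [pt_im] at this
    simp at this
    linarith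
  have hconjG : Complex.Gammaℝ (pt σ (-t)) = (starRingEnd ℂ) (Complex.Gammaℝ (pt σ t)) := by
    have hπ := Real.pi_pos
    rw [Complex.Gammaℝ_def, Complex.Gammaℝ_def, map_mul, ← Complex.Gamma_conj, ← hconjpt, map_div₀,
      Complex.conj_ofNat]
    congr 1
    have e1 : -(starRingEnd ℂ) (pt σ t) / 2 = (starRingEnd ℂ) (-pt σ t / 2) := by
      rw [map_div₀, map_neg, Complex.conj_ofNat]
    rw [e1]
    have e2 : (starRingEnd ℂ) ((π:ℂ) ^ (-pt σ t / 2)) =
        (starRingEnd ℂ) (π:ℂ) ^ (starRingEnd ℂ) (-pt σ t / 2) := by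
      rw [Complex.cpow_conj]
      · rw [Complex.conj_conj]
      · rw [Complex.conj_ofReal, Complex.arg_ofReal_of_nonneg hπ.le]; exact hπ.ne
    rw [e2, Complex.conj_ofReal]
  have h2 : completedRiemannZeta (pt (1 - σ) t) =
      (starRingEnd ℂ) (riemannZeta (pt σ t) * Complex.Gammaℝ (pt σ t)) := by
    rw [← completedRiemannZeta_one_sub, h1, map_mul, ← riemannZeta_conj, hconjpt, ← hconjG,
      riemannZeta_def_of_ne_zero hne0', div_mul_cancel₀ _ (hG σ (-t) (by linarith))]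
  rw [← ph_mul, ← ph_mul, hΛ, h2, ph_conj]

/-- **Reflection.** -/
theorem reflect {σ t : ℝ} (ht : 60 ≤ t) (hσ : 1 / 2 ≤ σ) (hσ5 : σ ≤ 5) :
    ‖eTh t * ph (riemannZeta (pt (1 - σ) t)) -
      (starRingEnd ℂ) (eTh t * ph (riemannZeta (pt σ t)))‖ ≤ 480 / t := by
  have ht0 : 0 < t := by linarith
  set δ : ℝ := (σ - 1 / 2) / 2 with hδ
  have hδ1 : |δ| ≤ 9 / 4 := by
    rw [abs_le]; constructor <;> (rw [hδ]; linarith)
  have hδ2 : |(-δ)| ≤ 9 / 4 := by rw [abs_neg]; exact hδ1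
  have g1 := Gamma_real_shift ht hδ1
  have g2 := Gamma_real_shift ht hδ2
  set ar := Complex.arg (1 / 4 + Complex.I * t / 2) with har
  set X : ℂ := Complex.exp (Complex.I * ((-(t / 2 * Real.log π) : ℝ) : ℂ)) with hX
  set gz : ℂ := ph (Complex.Gamma (1 / 4 + Complex.I * t / 2)) with hgz
  set a : ℂ := Complex.exp (Complex.I * ((δ * ar : ℝ) : ℂ)) with ha
  have hXn : ‖X‖ = 1 := norm_exp_I _
  have hgn : ‖gz‖ = 1 := norm_ph_of_ne (Gamma_ne t)
  have han : ‖a‖ = 1 := norm_exp_I _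
  have haconj : Complex.exp (Complex.I * ((-δ * ar : ℝ) : ℂ)) = (starRingEnd ℂ) a := by
    rw [ha, ← Complex.exp_conj]
    congr 1
    rw [map_mul, Complex.conj_I, Complex.conj_ofReal]
    push_cast; ring
  rw [haconj] at g2
  have hG1 : ph (Complex.Gammaℝ (pt σ t)) =
      X * ph (Complex.Gamma (1 / 4 + Complex.I * t / 2 + (δ : ℂ))) := ph_Gammaℝ σ t
  have hG2 : ph (Complex.Gammaℝ (pt (1 - σ) t)) =
      X * ph (Complex.Gamma (1 / 4 + Complex.I * t / 2 + ((-δ : ℝ) : ℂ))) := by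
    rw [ph_Gammaℝ]
    congr 5
    rw [hδ]; ring
  set p1 := ph (Complex.Gamma (1 / 4 + Complex.I * t / 2 + (δ : ℂ))) with hp1
  set p2 := ph (Complex.Gamma (1 / 4 + Complex.I * t / 2 + ((-δ : ℝ) : ℂ))) with hp2
  have hfe := ph_fe (σ := σ) ht0
  rw [hG1, hG2] at hfe
  set z1 := ph (riemannZeta (pt σ t)) with hz1
  set z2 := ph (riemannZeta (pt (1 - σ) t)) with hz2
  have hz1n : ‖z1‖ ≤ 1 := norm_ph_le _
  have hz2n : ‖z2‖ ≤ 1 := norm_ph_le _
  have hth : eTh t = X * gz := eTh_eq t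
  have haa : (starRingEnd ℂ) a * a = 1 := by
    rw [mul_comm, Complex.mul_conj, Complex.normSq_eq_norm_sq, han]
    norm_num
  -- `z2 X p2 = conj (z1 X p1)`
  have key : eTh t * z2 - (starRingEnd ℂ) (eTh t * z1) =
      a * (-(z2 * X * (p2 - gz * (starRingEnd ℂ) a)) +
        (starRingEnd ℂ) (z1 * X * (p1 - gz * a))) := by
    rw [hth]
    simp only [map_mul, map_sub] at hfe ⊢
    linear_combination a * hfe + (X * gz * z2 - (starRingEnd ℂ) X *
      (starRingEnd ℂ) gz * (starRingEnd ℂ) z1) * (-haa)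
  rw [key, norm_mul, han, one_mul]
  refine (norm_add_le _ _).trans ?_
  rw [norm_neg, Complex.norm_conj, norm_mul, norm_mul, norm_mul, norm_mul, hXn, mul_one, mul_one]
  have k1 : ‖z2‖ * ‖p2 - gz * (starRingEnd ℂ) a‖ ≤ 1 * (240 / t) :=
    mul_le_mul hz2n g2 (norm_nonneg _) (by norm_num)
  have k2 : ‖z1‖ * ‖p1 - gz * a‖ ≤ 1 * (240 / t) :=
    mul_le_mul hz1n g1 (norm_nonneg _) (by norm_num)
  have k3 : 480 / t = 1 * (240 / t) + 1 * (240 / t) := by ring
  rw [k3]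
  exact add_le_add k1 k2

end Pool.Agent.H77.HZ
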