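import Pool.Agent.H77.HZ.Near
import Pool.Agent.H77.HZ.Left

/-!
# Signs of `Re (e^{iθ(t)} ζ(σ+it))` on the lines `|σ - 1/2| ≥ A / log T`
-/

namespace Pool.Agent.H77.HZ

open MeasureTheory Set Real

lemma log_div_ge {A : ℝ} (hA : 2 * 10 ^ 4 ≤ A) : A⁻¹ ≤ Real.log A / A := by
  have hA0 : 0 < A := by linarith
  have hlogA1 : 1 ≤ Real.log A := by
    rw [Real.le_log_iff_exp_le hA0]
    have := Real.exp_one_lt_d9
    linarith
  rw [div_eq_mul_inv]
  exact le_mul_of_one_le_left (by positivity) hlogA1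

/-- far to the right -/
lemma far_lower {A T σ : ℝ} (hA : 2 * 10 ^ 4 ≤ A) (hT : exp A ≤ T) (hσ : 4 ≤ σ) {e : ℂ}
    (he : e = 1 ∨ e = -1) :
    T / 2 - 500 * (Real.log A / A) * T ≤
      ∫ t in Ioc T (2 * T), Pη 0 (eTh t * (e * ph (riemannZeta (pt σ t)))) := by
  obtain ⟨hlA, hAT, hT26, _, _, _, _⟩ := params hA hT
  obtain ⟨hT48, hlog, hH0, hH8, hH1⟩ := Hle hT26
  have hA0 : 0 < A := by linarith
  have hT0 : 0 < T := by linarith
  have hlT : 0 < Real.log T := by linarith
  have hπ2 := Real.pi_lt_d2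
  have hen : ‖e‖ = 1 := by
    rcases he with h | h
    · rw [h, norm_one]
    · rw [h, norm_neg, norm_one]
  set H := 4 * π / Real.log (T / (2 * π)) with hH
  have hc := continuous_zeta_pt (σ := σ) (by linarith)
  have hne : ∀ t : ℝ, riemannZeta (pt σ t) ≠ 0 := by
    intro t h0
    have h1 := norm_zeta_sub_one_le (s := pt σ t) (by rw [pt_re]; linarith)
    rw [h0, zero_sub, norm_neg, norm_one] at h1
    norm_num at h1
  have hD := sum_unit (f := Wf (fun t => riemannZeta (pt σ t)) H)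
    (intervalIntegrable_Wf hc H) (Wf_nonneg _ _) (by linarith : (1:ℝ) ≤ T)
    (fun τ => zeta_phase hσ τ hH0.le hH1)
  have hn1 : ∀ t, ‖e * ph (riemannZeta (pt σ t))‖ = 1 := by
    intro t
    rw [norm_mul, hen, one_mul, norm_ph_of_ne (hne t)]
  have h1 := avg_lower (u := fun t => e * ph (riemannZeta (pt σ t)))
    (W := Wf (fun t => riemannZeta (pt σ t)) H) (D := 2 * T * (16 * H)) (κ := 0) (η := 0)
    (measurable_const.mul (measurable_ph.comp (measurable_zeta_pt σ)))
    (fun t => Or.inr (hn1 t)) hT48 hH1 le_rfl (integrableOn_Wf hc H _ _) (Wf_nonneg _ _)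
    (by
      intro h hh t
      show ‖e * ph (riemannZeta (pt σ (t + h))) - e * ph (riemannZeta (pt σ t))‖ ≤ _
      rw [← mul_sub, norm_mul, hen, one_mul]
      exact norm_ph_shift_le hc hh.1 hh.2 t) hD
    (by
      simp only [hn1, sub_self]
      simp)
  refine le_trans ?_ h1
  rw [← hH]
  have h2 : H ≤ H * T := le_mul_of_one_le_right hH0.le (by linarith)
  have h3 : H * T ≤ 26 * (Real.log A / A) * T := by
    apply mul_le_mul_of_nonneg_right _ hT0.le
    calc H ≤ 8 * π / Real.log T := hH8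
      _ ≤ 8 * π / A := by gcongr
      _ = 8 * π * A⁻¹ := by ring
      _ ≤ 26 * A⁻¹ := by gcongr; linarith
      _ ≤ 26 * (Real.log A / A) := by gcongr; exact log_div_ge hA
  have h4 : 0 ≤ Real.log A / A * T := by positivity
  linarith

lemma Pη_conj (η : ℝ) (z : ℂ) : Pη η ((starRingEnd ℂ) z) = Pη η z := by
  unfold Pη
  rw [Complex.conj_re]

/-- left of the critical line -/
lemma left_lower {A T σ : ℝ} (hA : 2 * 10 ^ 4 ≤ A) (hT : exp A ≤ T)
    (hσ : 1 / 2 + A / Real.log T ≤ σ) (hσ5 : σ ≤ 5) {e : ℂ} (he : e = 1 ∨ e = -1) :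
    T / 2 - (17001 + 16 * Cm) * (Real.log A / A) * T ≤
      ∫ t in Ioc T (2 * T), Pη 0 (eTh t * (e * ph (riemannZeta (pt (1 - σ) t)))) := by
  obtain ⟨hlA, hAT, hT26, _, _, _, _⟩ := params hA hT
  have hA0 : 0 < A := by linarith
  have hlT : 0 < Real.log T := by linarith
  have hT0 : 0 < T := (exp_pos _).trans_le hT26
  have hσ2 : 1 / 2 ≤ σ := by
    have : 0 ≤ A / Real.log T := by positivity
    linarith
  have hTA : 480 * A ≤ T := by
    have h1 := Real.quadratic_le_exp_of_nonneg hA0.le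
    nlinarith
  have h1 := near_lower hA hT hσ hσ5 (η := 1 / A) (by positivity) he
  have hec : (starRingEnd ℂ) e = e := by
    rcases he with h | h
    · rw [h]; simp
    · rw [h]; simp
  have hen : ‖e‖ = 1 := by
    rcases he with h | h
    · rw [h, norm_one]
    · rw [h, norm_neg, norm_one]
  have hpt : ∀ t ∈ Ioc T (2 * T), Pη (1 / A) (eTh t * (e * ph (riemannZeta (pt σ t)))) ≤
      Pη 0 (eTh t * (e * ph (riemannZeta (pt (1 - σ) t)))) := by
    intro t ht
    rw [← Pη_conj (1 / A)]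
    apply Pη_shift
    rw [zero_add]
    have h2 := reflect (σ := σ) (t := t) (by linarith [ht.1]) hσ2 hσ5
    have h3 : eTh t * (e * ph (riemannZeta (pt (1 - σ) t))) -
        (starRingEnd ℂ) (eTh t * (e * ph (riemannZeta (pt σ t)))) =
        e * (eTh t * ph (riemannZeta (pt (1 - σ) t)) -
          (starRingEnd ℂ) (eTh t * ph (riemannZeta (pt σ t)))) := by
      simp only [map_mul, hec]
      ring
    rw [h3, norm_mul, hen, one_mul]
    refine h2.trans ?_
    rw [div_le_div_iff₀ (by linarith [ht.1]) hA0]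
    linarith [ht.1]
  have hm1 : Measurable fun t => eTh t * (e * ph (riemannZeta (pt σ t))) :=
    measurable_eTh.mul (measurable_const.mul (measurable_ph.comp (measurable_zeta_pt σ)))
  have hm2 : Measurable fun t => eTh t * (e * ph (riemannZeta (pt (1 - σ) t))) :=
    measurable_eTh.mul (measurable_const.mul (measurable_ph.comp (measurable_zeta_pt (1 - σ))))
  have h2 := setIntegral_mono_on (integrableOn_Pη hm1 (1 / A) T (2 * T))
    (integrableOn_Pη hm2 0 T (2 * T)) measurableSet_Ioc hpt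
  refine le_trans ?_ h2
  refine le_trans ?_ h1
  have h3 : 1 / A / 2 * T ≤ (Real.log A / A) * T := by
    apply mul_le_mul_of_nonneg_right _ hT0.le
    have := log_div_ge hA
    have h4 : 0 ≤ A⁻¹ := by positivity
    rw [one_div]
    linarith
  have h5 : (17001 + 16 * Cm) * (Real.log A / A) * T =
      (17000 + 16 * Cm) * (Real.log A / A) * T + (Real.log A / A) * T := by ring
  rw [h5]
  linarith

/-- all cases -/
lemma all_lower {A T σ : ℝ} (hA : 2 ≤ A) (hT : exp A ≤ T) (hσ : A / Real.log T ≤ |σ - 1 / 2|)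
    (hσ4 : -4 ≤ σ) {e : ℂ} (he : e = 1 ∨ e = -1) :
    T / 2 - (20000 + 16 * Cm) * (Real.log A / A) * T ≤
      ∫ t in Ioc T (2 * T), Pη 0 (e * (eTh t * riemannZeta (pt σ t))) := by
  have hA0 : 0 < A := by linarith
  have hT0 : 0 < T := (exp_pos _).trans_le hT
  have hC := Cm_pos
  have hlogA : 1 / 2 ≤ Real.log A := by
    have h1 := Real.log_le_log (by norm_num) hA
    have h2 := Real.log_two_gt_d9
    linarith
  have hLA : 0 ≤ (Real.log A / A) * T := by positivity
  have heq : ∀ t, Pη 0 (e * (eTh t * riemannZeta (pt σ t))) =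
      Pη 0 (eTh t * (e * ph (riemannZeta (pt σ t)))) := by
    intro t
    rw [← mul_assoc, Pη_ph]
    congr 1
    ring
  simp_rw [heq]
  rcases lt_or_ge A (2 * 10 ^ 4) with hsmall | hbig
  · have h1 : T / 2 ≤ (20000 + 16 * Cm) * (Real.log A / A) * T := by
      have h2 : 1 / (4 * 10 ^ 4) ≤ Real.log A / A := by
        rw [div_le_div_iff₀ (by norm_num) hA0]
        nlinarith
      have h3 : (1:ℝ) / 2 ≤ (20000 + 16 * Cm) * (Real.log A / A) := by
        calc (1:ℝ) / 2 = 20000 * (1 / (4 * 10 ^ 4)) := by norm_num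
          _ ≤ (20000 + 16 * Cm) * (Real.log A / A) := by
              gcongr
              linarith
      calc T / 2 = 1 / 2 * T := by ring
        _ ≤ _ := mul_le_mul_of_nonneg_right h3 hT0.le
    have h4 : 0 ≤ ∫ t in Ioc T (2 * T), Pη 0 (eTh t * (e * ph (riemannZeta (pt σ t)))) :=
      integral_nonneg fun t => Pη_nonneg _ _
    linarith
  · rcases le_total (σ - 1 / 2) 0 with hneg | hpos
    · rw [abs_of_nonpos hneg] at hσ
      have h1 := left_lower hbig hT (σ := 1 - σ) (by linarith) (by linarith) he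
      rw [sub_sub_cancel] at h1
      refine le_trans ?_ h1
      nlinarith
    · rw [abs_of_nonneg hpos] at hσ
      rcases le_total σ 5 with h5 | h5
      · have h1 := near_lower hbig hT (σ := σ) (by linarith) h5 le_rfl he
        refine le_trans ?_ h1
        nlinarith
      · have h1 := far_lower hbig hT (σ := σ) (by linarith) he
        refine le_trans ?_ h1
        nlinarith [mul_nonneg hC.le hLA]

/-- **Main theorem.** -/
theorem near_signs {A T σ : ℝ} (hA : 2 ≤ A) (hT : exp A ≤ T)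
    (hσ : A / Real.log T ≤ |σ - 1 / 2|) (hσ4 : -4 ≤ σ) :
    |volume.real {t | t ∈ Ioc T (2 * T) ∧ 0 < (eTh t * riemannZeta (pt σ t)).re} - T / 2| ≤
      (20000 + 16 * Cm) * (Real.log A / A) * T ∧
    |volume.real {t | t ∈ Ioc T (2 * T) ∧ (eTh t * riemannZeta (pt σ t)).re < 0} - T / 2| ≤
      (20000 + 16 * Cm) * (Real.log A / A) * T := by
  have hT0 : 0 < T := (exp_pos _).trans_le hT
  have h1 := all_lower hA hT hσ hσ4 (e := 1) (Or.inl rfl)
  have h2 := all_lower hA hT hσ hσ4 (e := -1) (Or.inr rfl)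
  simp only [one_mul, neg_one_mul] at h1 h2
  exact both_signs (measurable_eTh.mul (measurable_zeta_pt σ)) hT0.le h1 h2

end Pool.Agent.H77.HZ
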