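import Pool.Agent.PC10.Weighted
import Pool.Agent.PairCorr.Defs

/-!
# The mollified second moment with a mollifier of variable length

The Barban-Vehov mollifier of `Pool.Agent.PC10` with `w = e^ℓ`, `y = e^{2ℓ}`, `1 ≤ ℓ ≤ (log T)/16`.
-/

namespace Pool.Agent.H77.HZ

open MeasureTheory Set Real
open Pool.Agent.PC10

section
variable {T ℓ : ℝ} (hT : exp 16 ≤ T) (h1 : 1 ≤ ℓ) (h2 : ℓ ≤ Real.log T / 16)

include h1 in
lemma one_le_w : 1 ≤ exp ℓ := one_le_exp (by linarith)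
include h1 in
lemma w_lt_y : exp ℓ < exp (2 * ℓ) := exp_lt_exp.mpr (by linarith)
include h1 in
lemma two_le_w : 2 ≤ exp ℓ := by
  have := add_one_le_exp ℓ
  linarith
lemma log_yw (ℓ : ℝ) : Real.log (exp (2 * ℓ) / exp ℓ) = ℓ := by
  rw [← exp_sub, Real.log_exp]; ring

include h1 in
lemma Bv_le : |Bv (exp ℓ) (exp (2 * ℓ))| ≤ 8 / ℓ := by
  have h := abs_Bv_le (one_le_w h1) (w_lt_y h1)
  rwa [log_yw] at h

include h1 in
lemma Bv_le8 : |Bv (exp ℓ) (exp (2 * ℓ))| ≤ 8 := by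
  refine (Bv_le h1).trans ?_
  rw [div_le_iff₀ (by linarith)]
  linarith

include h1 in
lemma Bv_sq_le : Bv (exp ℓ) (exp (2 * ℓ)) ^ 2 ≤ 64 := by
  rw [← sq_abs]
  calc |Bv (exp ℓ) (exp (2 * ℓ))| ^ 2 ≤ 8 ^ 2 := by
        gcongr
        exact Bv_le8 h1
    _ = 64 := by norm_num

include h1 in
lemma Bv_sq_le' : Bv (exp ℓ) (exp (2 * ℓ)) ^ 2 ≤ 64 / ℓ := by
  rw [← sq_abs]
  calc |Bv (exp ℓ) (exp (2 * ℓ))| ^ 2 = |Bv (exp ℓ) (exp (2 * ℓ))| * |Bv (exp ℓ) (exp (2 * ℓ))| := by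
        ring
    _ ≤ 8 * (8 / ℓ) := by
        gcongr
        · exact Bv_le8 h1
        · exact Bv_le h1
    _ = 64 / ℓ := by ring

include hT h1 h2 in
lemma N1_le (N : ℕ) : ∑ n ∈ Finset.Ioc 0 N, (av (exp ℓ) (exp (2 * ℓ)) n) ^ 2 *
    (n:ℝ) ^ (-(1 + kT T)) ≤ 300 * exp 15 * (Real.log T / ℓ) := by
  have h := sum_av_sq_le (one_le_w h1) (w_lt_y h1) (kT_pos hT) N
  rw [log_yw, Real.log_exp] at h
  have h16 := hT16 hT
  have hL : 0 < Real.log T := by linarith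
  have hℓ : 0 < ℓ := by linarith
  have e1 : kT T * (2 * ℓ) ≤ 1 / 4 := by
    unfold kT
    rw [div_mul_eq_mul_div, div_le_iff₀ hL]
    linarith
  have e1' : 0 ≤ kT T * (2 * ℓ) := mul_nonneg (kT_pos hT).le (by linarith)
  have e2 : exp (2 * ℓ) ^ kT T ≤ exp (1 / 4) := by
    rw [← exp_mul, mul_comm]
    exact exp_le_exp.mpr e1
  refine h.trans ?_
  have h3 : 1 + 1 / kT T ≤ Real.log T := by
    unfold kT
    rw [one_div_div]
    linarith
  have h3' : 0 ≤ 1 + 1 / kT T := by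
    have := kT_pos hT
    positivity
  have h4 : (8 * (1 + kT T * (2 * ℓ)) / ℓ) ^ 2 ≤ (10 / ℓ) ^ 2 := by
    gcongr
    linarith
  have h5 : exp 14 * (1 + 2 * ℓ) ≤ exp 14 * (3 * ℓ) := by gcongr; linarith
  calc (1 + 1 / kT T) * (exp (2 * ℓ) ^ kT T * ((8 * (1 + kT T * (2 * ℓ)) / ℓ) ^ 2 *
        (exp 14 * (1 + 2 * ℓ))))
      ≤ Real.log T * (exp (1 / 4) * ((10 / ℓ) ^ 2 * (exp 14 * (3 * ℓ)))) := by gcongr
    _ = 300 * (exp (1 / 4) * exp 14) * (Real.log T / ℓ) := by field_simp; norm_num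
    _ ≤ 300 * exp 15 * (Real.log T / ℓ) := by
        rw [← exp_add]
        gcongr
        norm_num

include h1 in
lemma Q_le : Qc (exp ℓ) (exp (2 * ℓ)) ≤ 192 * exp 14 / ℓ := by
  unfold Qc
  rw [log_yw, Real.log_exp]
  have hℓ : 0 < ℓ := by linarith
  have h5 : exp 14 * (1 + 2 * ℓ) ≤ exp 14 * (3 * ℓ) := by gcongr; linarith
  calc (8 / ℓ) ^ 2 * (exp 14 * (1 + 2 * ℓ)) ≤ (8 / ℓ) ^ 2 * (exp 14 * (3 * ℓ)) := by gcongr
    _ = 192 * exp 14 / ℓ := by field_simp; norm_num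

include hT h2 in
lemma y4_le : Real.log T * (exp (2 * ℓ) ^ 4 / T) ≤ 4 := by
  have h0 := hT0 hT
  have h16 := hT16 hT
  have e0 : exp (2 * ℓ) ^ 4 ≤ exp (Real.log T / 2) := by
    rw [← exp_nat_mul]
    apply exp_le_exp.mpr
    push_cast
    linarith
  have h3 : exp (Real.log T / 2) / T = exp (-(Real.log T / 2)) := by
    nth_rewrite 2 [← exp_log h0]
    rw [← exp_sub]; congr 1; ring
  have h4 : Real.log T / 2 ≤ exp (Real.log T / 2) := by
    have := add_one_le_exp (Real.log T / 2); linarith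
  calc Real.log T * (exp (2 * ℓ) ^ 4 / T) ≤ Real.log T * (exp (Real.log T / 2) / T) := by gcongr
    _ ≤ 4 := by
      rw [h3, exp_neg, ← div_eq_mul_inv, div_le_iff₀ (exp_pos _)]
      linarith

/-- The basic energy. -/
noncomputable def En (T ℓ : ℝ) : ℝ :=
  ∫ x in (exp ℓ / 2)..(XT T), Dfun (exp ℓ) (exp (2 * ℓ)) (rT T) x ^ 2 * x ^ (-2 - kT T)

include hT h1 h2 in
lemma w_le_T : exp ℓ ≤ T := by
  have h0 := hT0 hT
  calc exp ℓ ≤ exp (Real.log T) := exp_le_exp.mpr (by linarith [hT16 hT])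
    _ = T := exp_log h0

include hT h1 h2 in
lemma En_le : En T ℓ ≤ 10 ^ 5 * exp 15 * (Real.log T / ℓ) / T := by
  have h0 := hT0 hT
  have h1000 := hT1000 hT
  have h16 := hT16 hT
  have hL : 0 < Real.log T := by linarith
  have hℓ : 0 < ℓ := by linarith
  have hw := one_le_w h1
  have hw2 := two_le_w h1
  have hwy := w_lt_y h1
  have hr := one_le_rT hT
  have hr2 := rT_lt_two hT
  have hk := kT_pos hT
  have hk1 := kT_le hT
  have hN : (0:ℝ) < NT T := h0.trans_le (le_NT hT)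
  have hrN := rT_NT hT
  have hrT := rT_sub_le' hT
  have hr1 : 0 ≤ rT T - 1 := by linarith
  have hwN : exp ℓ / 2 ≤ NT T := by
    have e1 := w_le_T hT h1 h2
    have := le_NT hT
    linarith
  unfold En
  rw [← intervalIntegral.integral_add_adjacent_intervals
    (intervalIntegrable_Dfun_sq_rpow hw hwy hr _ (by linarith) hN)
    (intervalIntegrable_Dfun_sq_rpow hw hwy hr _ hN (XT_pos hT))]
  have hS := energy_small hw hwy hr hr2.le hk.le hk1 hrN (a := exp ℓ / 2) (by linarith) hwN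
  have hLg := energy_large (κ := kT T) hw hwy hr hk.le (by linarith) hrT (le_NT hT) (JT T)
  have hB2 := Bv_sq_le h1
  have hN1 := N1_le hT h1 h2 (NT T + 1)
  set Q : ℝ := Real.log T / ℓ with hQdef
  have hQ16 : 16 ≤ Q := by
    rw [hQdef, le_div_iff₀ hℓ]; linarith
  have s1 : 4 * Bv (exp ℓ) (exp (2 * ℓ)) ^ 2 * (rT T - 1) ^ 2 * NT T ≤ 256 / T := by
    calc 4 * Bv (exp ℓ) (exp (2 * ℓ)) ^ 2 * (rT T - 1) ^ 2 * NT T
        = 4 * Bv (exp ℓ) (exp (2 * ℓ)) ^ 2 * (rT T - 1) * ((rT T - 1) * NT T) := by ring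
      _ ≤ 4 * 64 * (1 / T) * 1 := by gcongr
      _ = 256 / T := by ring
  have s2 : 8 * (rT T - 1) * ∑ n ∈ Finset.Ioc 0 (NT T + 1),
      av (exp ℓ) (exp (2 * ℓ)) n ^ 2 * (n:ℝ) ^ (-(1 + kT T)) ≤ 2400 * exp 15 * Q / T := by
    calc _ ≤ 8 * (1 / T) * (300 * exp 15 * Q) := by gcongr
      _ = _ := by ring
  have hBL := Bv_sq_le' h1
  have s3 : (JT T : ℝ) * (10 * Qc (exp ℓ) (exp (2 * ℓ)) / T + 20 * exp (2 * ℓ) ^ 4 / T ^ 2
      + 2 * Bv (exp ℓ) (exp (2 * ℓ)) ^ 2 / T) ≤ (11520 * exp 14 * Q + 480 + 768 * Q) / T := by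
    have hQ := Q_le h1
    have hQ0 := Qc_nonneg hw hwy
    calc (JT T : ℝ) * (10 * Qc (exp ℓ) (exp (2 * ℓ)) / T + 20 * exp (2 * ℓ) ^ 4 / T ^ 2
      + 2 * Bv (exp ℓ) (exp (2 * ℓ)) ^ 2 / T)
        ≤ (6 * Real.log T) * (10 * (192 * exp 14 / ℓ) / T + 20 * exp (2 * ℓ) ^ 4 / T ^ 2
          + 2 * (64 / ℓ) / T) := by
          gcongr
          exact JT_le hT
      _ = (11520 * exp 14 * Q + 120 * (Real.log T * (exp (2 * ℓ) ^ 4 / T)) + 768 * Q) / T := by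
          rw [hQdef]
          field_simp
          ring
      _ ≤ (11520 * exp 14 * Q + 120 * 4 + 768 * Q) / T := by
          gcongr
          exact y4_le hT h2
      _ = _ := by norm_num
  have hXeq : ((2 ^ JT T * NT T : ℕ) : ℝ) = (XT T : ℝ) := rfl
  rw [hXeq] at hLg
  have hE : exp 14 ≤ exp 15 := exp_le_exp.mpr (by norm_num)
  have hE1 : 1 ≤ exp 15 := one_le_exp (by norm_num)
  have s4 : 256 / T + 2400 * exp 15 * Q / T + (11520 * exp 14 * Q + 480 + 768 * Q) / T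
      ≤ 10 ^ 5 * exp 15 * Q / T := by
    rw [← add_div, ← add_div]
    gcongr
    have hQE : Q ≤ exp 15 * Q := le_mul_of_one_le_left (by linarith) hE1
    have hQE2 : exp 14 * Q ≤ exp 15 * Q := mul_le_mul_of_nonneg_right hE (by linarith)
    nlinarith
  linarith [hS.trans (add_le_add s1 s2), hLg.trans s3]

/-- `∫_{1/2}^∞ D(x)² x^{-2σ-1} dx`. -/
noncomputable def Jn (T ℓ σ : ℝ) : ℝ :=
  ∫ x in Ioi (1/2:ℝ), Dfun (exp ℓ) (exp (2 * ℓ)) (rT T) x ^ 2 * x ^ (-2 * σ - 1)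

include hT h1 in
lemma integrableOn_Jn {σ : ℝ} (hσ : 0 < σ) {a : ℝ} (ha : 0 < a) :
    IntegrableOn (fun x => Dfun (exp ℓ) (exp (2 * ℓ)) (rT T) x ^ 2 * x ^ (-2 * σ - 1)) (Ioi a) := by
  have e1 : IntegrableOn (fun x : ℝ => x ^ (-2 * σ - 1)) (Ioi a) :=
    integrableOn_Ioi_rpow_of_lt (by linarith) ha
  refine Integrable.bdd_mul (c := (exp (2 * ℓ) + 1) ^ 2) e1
    ((measurable_Dfun _ _ _).pow_const 2).aestronglyMeasurable ?_
  refine (ae_restrict_iff' measurableSet_Ioi).mpr (Filter.Eventually.of_forall fun x hx => ?_)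
  have hx0 : 0 < x := ha.trans hx
  rw [norm_pow, Real.norm_eq_abs]
  exact pow_le_pow_left₀ (abs_nonneg _)
    (abs_Dfun_le (one_le_w h1) (w_lt_y h1) (one_le_rT hT) hx0) 2

include hT h1 h2 in
/-- Region 1. -/
lemma Jn_region1 {σ : ℝ} (hσ : 1 / 4 ≤ σ) (hσ5 : σ ≤ 5) :
    ∫ x in (1/2:ℝ)..(exp ℓ / 2), Dfun (exp ℓ) (exp (2 * ℓ)) (rT T) x ^ 2 * x ^ (-2 * σ - 1)
      ≤ 32768 * exp (-ℓ) / T := by
  have h0 := hT0 hT
  have h16 := hT16 hT
  have hw := one_le_w h1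
  have hw2 := two_le_w h1
  have hwy := w_lt_y h1
  have hr := one_le_rT hT
  have hr2 := rT_lt_two hT
  have hle : (1/2:ℝ) ≤ exp ℓ / 2 := by linarith
  have hB2 := Bv_sq_le h1
  have hr1 : 0 ≤ rT T - 1 := by linarith
  have hrT := rT_sub_le' hT
  have hpt : ∀ x ∈ Icc (1/2:ℝ) (exp ℓ / 2),
      Dfun (exp ℓ) (exp (2 * ℓ)) (rT T) x ^ 2 * x ^ (-2 * σ - 1) ≤
        64 * (1 / T) ^ 2 * (512 * exp ℓ) := by
    intro x hx
    have hx0 : 0 < x := by linarith [hx.1]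
    have hD : Dfun (exp ℓ) (exp (2 * ℓ)) (rT T) x =
        Bv (exp ℓ) (exp (2 * ℓ)) * ((rT T - 1) * x) := by
      apply Dfun_of_le hw hwy hr hx0
      nlinarith [hx.2]
    rw [hD]
    have hxx : x ^ 2 * x ^ (-2 * σ - 1) = x ^ (1 - 2 * σ) := by
      rw [← Real.rpow_natCast, ← Real.rpow_add hx0]
      congr 1; push_cast; ring
    have hxb : x ^ (1 - 2 * σ) ≤ 512 * exp ℓ := by
      rcases le_total 1 x with h3 | h3
      · calc x ^ (1 - 2 * σ) ≤ x ^ (1:ℝ) := Real.rpow_le_rpow_of_exponent_le h3 (by linarith)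
          _ = x := Real.rpow_one x
          _ ≤ 512 * exp ℓ := by linarith [hx.2]
      · have h4 : x ^ (1 - 2 * σ) ≤ x ^ (-9:ℝ) :=
          Real.rpow_le_rpow_of_exponent_ge hx0 h3 (by linarith)
        have h5 : x ^ (-9:ℝ) ≤ (1/2:ℝ) ^ (-9:ℝ) :=
          Real.rpow_le_rpow_of_nonpos (by norm_num) hx.1 (by norm_num)
        have h6 : (1/2:ℝ) ^ (-9:ℝ) = 512 := by
          rw [one_div, Real.inv_rpow (by norm_num), Real.rpow_neg (by norm_num), inv_inv]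
          have : ((9:ℕ):ℝ) = 9 := by norm_num
          rw [← this, Real.rpow_natCast]; norm_num
        rw [h6] at h5
        linarith
    calc (Bv (exp ℓ) (exp (2 * ℓ)) * ((rT T - 1) * x)) ^ 2 * x ^ (-2 * σ - 1)
        = Bv (exp ℓ) (exp (2 * ℓ)) ^ 2 * (rT T - 1) ^ 2 * (x ^ 2 * x ^ (-2 * σ - 1)) := by ring
      _ = Bv (exp ℓ) (exp (2 * ℓ)) ^ 2 * (rT T - 1) ^ 2 * x ^ (1 - 2 * σ) := by rw [hxx]
      _ ≤ 64 * (1 / T) ^ 2 * (512 * exp ℓ) := by gcongr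
  have e1 : ∫ x in (1/2:ℝ)..(exp ℓ / 2), Dfun (exp ℓ) (exp (2 * ℓ)) (rT T) x ^ 2 * x ^ (-2 * σ - 1)
      ≤ ∫ x in (1/2:ℝ)..(exp ℓ / 2), 64 * (1 / T) ^ 2 * (512 * exp ℓ) :=
    intervalIntegral.integral_mono_on hle
      (intervalIntegrable_Dfun_sq_rpow hw hwy hr _ (by norm_num) (by linarith))
      intervalIntegrable_const hpt
  refine e1.trans ?_
  rw [intervalIntegral.integral_const, smul_eq_mul]
  have hT2 : 1 / T = exp (-Real.log T) := by rw [exp_neg, exp_log h0, one_div]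
  have e2 : (exp ℓ / 2 - 1 / 2) * (64 * (1 / T) ^ 2 * (512 * exp ℓ)) ≤
      (exp ℓ / 2) * (64 * (1 / T) ^ 2 * (512 * exp ℓ)) := by
    gcongr; linarith
  refine e2.trans ?_
  have e3 : (exp ℓ / 2) * (64 * (1 / T) ^ 2 * (512 * exp ℓ)) =
      16384 * (exp ℓ * exp ℓ * (1 / T)) / T := by
    field_simp; norm_num
  have e4 : exp ℓ * exp ℓ * (1 / T) ≤ exp (-ℓ) := by
    rw [hT2, ← exp_add, ← exp_add]
    apply exp_le_exp.mpr
    linarith
  rw [e3]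
  gcongr
  norm_num

include hT h1 h2 in
/-- Region 3. -/
lemma Jn_region3 {σ : ℝ} (hσ : 1 / 4 ≤ σ) :
    ∫ x in Ioi (XT T : ℝ), Dfun (exp ℓ) (exp (2 * ℓ)) (rT T) x ^ 2 * x ^ (-2 * σ - 1)
      ≤ 8 * exp (-ℓ) / T := by
  have h0 := hT0 hT
  have h16 := hT16 hT
  have h1000 := hT1000 hT
  have hw := one_le_w h1
  have hwy := w_lt_y h1
  have hr := one_le_rT hT
  have hX := XT_pos hT
  have hX4 := le_XT hT
  have hy1 : 1 ≤ exp (2 * ℓ) := by linarith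
  have e1 : ∫ x in Ioi (XT T : ℝ), Dfun (exp ℓ) (exp (2 * ℓ)) (rT T) x ^ 2 * x ^ (-2 * σ - 1)
      ≤ ∫ x in Ioi (XT T : ℝ), (exp (2 * ℓ) + 1) ^ 2 * x ^ (-2 * σ - 1) := by
    apply setIntegral_mono_on (integrableOn_Jn hT h1 (by linarith) hX)
      ((integrableOn_Ioi_rpow_of_lt (by linarith) hX).const_mul _) measurableSet_Ioi
    intro x hx
    have hx0 : 0 < x := hX.trans hx
    have := abs_Dfun_le hw hwy hr hx0
    rw [← sq_abs]
    gcongr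
  refine e1.trans ?_
  rw [integral_const_mul, integral_Ioi_rpow_of_lt (by linarith) hX]
  have e2 : -(XT T : ℝ) ^ (-2 * σ - 1 + 1) / (-2 * σ - 1 + 1) = (XT T : ℝ) ^ (-2 * σ) / (2 * σ) := by
    rw [show -2 * σ - 1 + 1 = -(2 * σ) by ring, show -2 * σ = -(2 * σ) by ring]
    rw [neg_div_neg_eq]
  rw [e2]
  have e3 : (XT T : ℝ) ^ (-2 * σ) ≤ exp (-(2 * Real.log T)) := by
    calc (XT T : ℝ) ^ (-2 * σ) ≤ (T ^ 4) ^ (-2 * σ) :=
          Real.rpow_le_rpow_of_nonpos (by positivity) hX4 (by linarith)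
      _ = exp (-(8 * σ * Real.log T)) := by
          rw [Real.rpow_def_of_pos (by positivity), log_pow]; congr 1; push_cast; ring
      _ ≤ exp (-(2 * Real.log T)) := by
          apply exp_le_exp.mpr
          nlinarith
  have e4 : (exp (2 * ℓ) + 1) ^ 2 ≤ 4 * exp (4 * ℓ) := by
    calc (exp (2 * ℓ) + 1) ^ 2 ≤ (2 * exp (2 * ℓ)) ^ 2 := by gcongr; linarith
      _ = 4 * (exp (2 * ℓ) * exp (2 * ℓ)) := by ring
      _ = 4 * exp (4 * ℓ) := by rw [← exp_add]; congr 2; ring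
  have hT2 : 1 / T = exp (-Real.log T) := by rw [exp_neg, exp_log h0, one_div]
  calc (exp (2 * ℓ) + 1) ^ 2 * ((XT T : ℝ) ^ (-2 * σ) / (2 * σ))
      ≤ (4 * exp (4 * ℓ)) * (exp (-(2 * Real.log T)) / (1 / 2)) := by
        gcongr; linarith
    _ = 8 * (exp (4 * ℓ) * exp (-(2 * Real.log T))) := by ring
    _ ≤ 8 * (exp (-ℓ) * (1 / T)) := by
        rw [hT2, ← exp_add, ← exp_add]
        apply mul_le_mul_of_nonneg_left (exp_le_exp.mpr (by linarith)) (by norm_num)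
    _ = _ := by ring

include hT h1 h2 in
/-- Region 2. -/
lemma Jn_region2 {σ : ℝ} (hσ : 1 / 2 ≤ σ) :
    ∫ x in (exp ℓ / 2)..(XT T), Dfun (exp ℓ) (exp (2 * ℓ)) (rT T) x ^ 2 * x ^ (-2 * σ - 1)
      ≤ 2 * exp 10 * exp (-(2 * ℓ * (min σ 1 - 1 / 2))) * En T ℓ := by
  have h0 := hT0 hT
  have h16 := hT16 hT
  have h1000 := hT1000 hT
  have hw := one_le_w h1
  have hw2 := two_le_w h1
  have hwT := w_le_T hT h1 h2
  have hwy := w_lt_y h1
  have hr := one_le_rT hT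
  have hX := XT_pos hT
  have hX4 := le_XT hT
  have hTX : T ≤ XT T := by
    refine le_trans ?_ hX4
    nlinarith [pow_pos h0 2, pow_pos h0 3, pow_le_pow_left₀ (by norm_num : (0:ℝ) ≤ 1000) h1000 3]
  have hle : exp ℓ / 2 ≤ XT T := by linarith
  have hk := kT_pos hT
  unfold En
  rw [← intervalIntegral.integral_const_mul]
  apply intervalIntegral.integral_mono_on hle
    (intervalIntegrable_Dfun_sq_rpow hw hwy hr _ (by linarith) hX)
    ((intervalIntegrable_Dfun_sq_rpow hw hwy hr _ (by linarith) hX).const_mul _)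
  intro x hx
  have hwx : 0 < exp ℓ / 2 := by linarith
  have hx0 : 0 < x := hwx.trans_le hx.1
  have hx1 : 1 ≤ x := by linarith [hx.1]
  have hsplit : x ^ (-2 * σ - 1) = x ^ (kT T) * x ^ (-(2 * σ - 1)) * x ^ (-2 - kT T) := by
    rw [← Real.rpow_add hx0, ← Real.rpow_add hx0]
    congr 1; ring
  have hXk : x ^ kT T ≤ exp 10 := by
    calc x ^ kT T ≤ (XT T : ℝ) ^ kT T := by gcongr; exact hx.2
      _ = exp (Real.log (XT T) * kT T) := by rw [Real.rpow_def_of_pos hX]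
      _ ≤ exp ((5 * Real.log T) * kT T) := by gcongr; exact log_XT_le hT
      _ = exp 10 := by unfold kT; congr 1; field_simp; norm_num
  have hmin : min σ 1 ≤ σ := min_le_left _ _
  have hmin1 : min σ 1 ≤ 1 := min_le_right _ _
  have hmin2 : 1/2 ≤ min σ 1 := le_min hσ (by norm_num)
  have hw3 : x ^ (-(2 * σ - 1)) ≤ 2 * exp (-(2 * ℓ * (min σ 1 - 1 / 2))) := by
    calc x ^ (-(2 * σ - 1)) ≤ x ^ (-(2 * min σ 1 - 1)) :=
          Real.rpow_le_rpow_of_exponent_le hx1 (by linarith)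
      _ ≤ (exp ℓ / 2) ^ (-(2 * min σ 1 - 1)) :=
          Real.rpow_le_rpow_of_nonpos hwx hx.1 (by linarith)
      _ = (exp ℓ) ^ (-(2 * min σ 1 - 1)) * 2 ^ (2 * min σ 1 - 1) := by
          rw [Real.div_rpow (by linarith) (by norm_num), Real.rpow_neg (x := 2) (by norm_num)]
          rw [div_inv_eq_mul]
      _ ≤ (exp ℓ) ^ (-(2 * min σ 1 - 1)) * 2 := by
          gcongr
          calc (2:ℝ) ^ (2 * min σ 1 - 1) ≤ 2 ^ (1:ℝ) :=
                Real.rpow_le_rpow_of_exponent_le (by norm_num) (by linarith)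
            _ = 2 := Real.rpow_one 2
      _ = 2 * exp (-(2 * ℓ * (min σ 1 - 1 / 2))) := by
          rw [← exp_mul, mul_comm]; congr 2; ring
  rw [hsplit]
  calc Dfun (exp ℓ) (exp (2 * ℓ)) (rT T) x ^ 2 * (x ^ (kT T) * x ^ (-(2 * σ - 1)) * x ^ (-2 - kT T))
      ≤ Dfun (exp ℓ) (exp (2 * ℓ)) (rT T) x ^ 2 *
        (exp 10 * (2 * exp (-(2 * ℓ * (min σ 1 - 1 / 2)))) * x ^ (-2 - kT T)) := by gcongr
    _ = _ := by ring

include hT h1 in
lemma Jn_split {σ : ℝ} (hσ : 0 < σ) : Jn T ℓ σ =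
    (∫ x in (1/2:ℝ)..(exp ℓ / 2), Dfun (exp ℓ) (exp (2 * ℓ)) (rT T) x ^ 2 * x ^ (-2 * σ - 1))
    + (∫ x in (exp ℓ / 2)..(XT T), Dfun (exp ℓ) (exp (2 * ℓ)) (rT T) x ^ 2 * x ^ (-2 * σ - 1))
    + ∫ x in Ioi (XT T : ℝ), Dfun (exp ℓ) (exp (2 * ℓ)) (rT T) x ^ 2 * x ^ (-2 * σ - 1) := by
  have hw := one_le_w h1
  have hwy := w_lt_y h1
  have hr := one_le_rT hT
  have hX := XT_pos hT
  unfold Jn
  rw [intervalIntegral.integral_add_adjacent_intervals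
    (intervalIntegrable_Dfun_sq_rpow hw hwy hr _ (by norm_num) (by linarith))
    (intervalIntegrable_Dfun_sq_rpow hw hwy hr _ (by linarith) hX),
    intervalIntegral.integral_interval_add_Ioi (integrableOn_Jn hT h1 hσ (by norm_num))
      (integrableOn_Jn hT h1 hσ hX)]

include hT h1 h2 in
lemma Jn_le {σ : ℝ} (hσ : 1 / 2 ≤ σ) (hσ5 : σ ≤ 5) :
    Jn T ℓ σ ≤ 10 ^ 6 * exp 25 * (Real.log T / ℓ) * exp (-(2 * ℓ * (min σ 1 - 1 / 2))) / T := by
  have h0 := hT0 hT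
  have h16 := hT16 hT
  have hℓ : 0 < ℓ := by linarith
  have hmin1 : min σ 1 ≤ 1 := min_le_right _ _
  have hmin2 : 1/2 ≤ min σ 1 := le_min hσ (by norm_num)
  rw [Jn_split hT h1 (by linarith)]
  have e1 := Jn_region1 hT h1 h2 (by linarith : 1/4 ≤ σ) hσ5
  have e2 := Jn_region2 hT h1 h2 hσ
  have e3 := Jn_region3 hT h1 h2 (by linarith : 1/4 ≤ σ)
  have hE := En_le hT h1 h2
  set Q : ℝ := Real.log T / ℓ with hQdef
  have hQ16 : 16 ≤ Q := by
    rw [hQdef, le_div_iff₀ hℓ]; linarith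
  set e := exp (-(2 * ℓ * (min σ 1 - 1 / 2))) with he
  have ee : exp (-ℓ) ≤ e := by
    apply exp_le_exp.mpr
    nlinarith
  have hE25 : exp 10 * exp 15 = exp 25 := by rw [← exp_add]; norm_num
  have he0 : 0 < e := exp_pos _
  have e2' : 2 * exp 10 * e * En T ℓ ≤ 2 * 10 ^ 5 * exp 25 * Q * e / T := by
    calc 2 * exp 10 * e * En T ℓ ≤ 2 * exp 10 * e * (10 ^ 5 * exp 15 * Q / T) := by gcongr
      _ = 2 * 10 ^ 5 * (exp 10 * exp 15) * Q * e / T := by ring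
      _ = _ := by rw [hE25]
  have e1' : 32768 * exp (-ℓ) / T ≤ 32768 * e / T := by gcongr
  have e3' : 8 * exp (-ℓ) / T ≤ 8 * e / T := by gcongr
  have h25 : 1 ≤ exp 25 := one_le_exp (by norm_num)
  have hfin : 32768 * e / T + 2 * 10 ^ 5 * exp 25 * Q * e / T + 8 * e / T
      ≤ 10 ^ 6 * exp 25 * Q * e / T := by
    rw [← add_div, ← add_div]
    gcongr
    have hQe : 16 * e ≤ exp 25 * Q * e := by
      have h3 : 16 ≤ exp 25 * Q := by nlinarith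
      exact mul_le_mul_of_nonneg_right h3 he0.le
    nlinarith
  linarith

end

end Pool.Agent.H77.HZ
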