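import Pool.Agent.H77.HZ.Sect
import Pool.Agent.H77.HZ.Moll2

/-!
# Signs of `Re (e^{iθ(t)} ζ(σ+it))` near the critical line
-/

namespace Pool.Agent.H77.HZ

open MeasureTheory Set Real
open Pool.Agent.PC10

lemma Pη_chebyshev_sq {η δ : ℝ} (hδ : 0 < δ) (a b : ℂ) :
    Pη (η + δ) b - ‖a - b‖ ^ 2 / δ ^ 2 ≤ Pη η a := by
  by_cases hb : η + δ < b.re
  · by_cases ha : η < a.re
    · have : 0 ≤ ‖a - b‖ ^ 2 / δ ^ 2 := by positivity
      simp only [Pη, hb, ha, if_true]
      linarith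
    · have h1 : 1 ≤ ‖a - b‖ ^ 2 / δ ^ 2 := by
        rw [← div_pow]
        apply one_le_pow₀
        rw [le_div_iff₀ hδ, one_mul]
        have := Complex.abs_re_le_norm (a - b)
        rw [Complex.sub_re] at this
        have h2 := (abs_le.mp this).1
        push Not at ha
        linarith
      simp only [Pη, hb, ha, if_true, if_false]
      linarith
  · have : 0 ≤ ‖a - b‖ ^ 2 / δ ^ 2 := by positivity
    have h2 := Pη_nonneg η a
    have h3 : Pη (η + δ) b = 0 := by simp only [Pη, hb, if_false]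
    linarith

/-- the phase of `ζ` against the conjugate phase of the mollifier -/
lemma ph_conj_le (z m : ℂ) : ‖ph z - (starRingEnd ℂ) (ph m)‖ ≤ 2 * ‖z * m - 1‖ := by
  rcases eq_or_ne m 0 with h | h
  · rw [h, ph_zero, mul_zero, map_zero, sub_zero, zero_sub, norm_neg, norm_one]
    linarith [norm_ph_le z]
  · have h1 : ‖ph m‖ = 1 := norm_ph_of_ne h
    have h2 : (starRingEnd ℂ) (ph m) * ph m = 1 := by
      rw [mul_comm, Complex.mul_conj, Complex.normSq_eq_norm_sq, h1]
      norm_num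
    have h3 : ‖ph z - (starRingEnd ℂ) (ph m)‖ = ‖ph (z * m) - 1‖ := by
      rw [ph_mul, ← h2, ← sub_mul, norm_mul, h1, mul_one]
    rw [h3]
    exact norm_ph_sub_one_le _

/-- the constant in the mollified moment -/
noncomputable def Cm : ℝ := 2 * 10 ^ 8 * π * exp 26

lemma Cm_pos : 0 < Cm := by unfold Cm; positivity

/-- the mollifier is a Dirichlet polynomial -/
lemma Mo_eq (ℓ : ℝ) (s : ℂ) :
    Mo ℓ s = DP (fun n => ((lam (exp ℓ) (exp (2 * ℓ)) n : ℝ) : ℂ)) ⌊exp (2 * ℓ)⌋₊ s := rfl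

/-- parameters -/
lemma params {A T : ℝ} (hA : 2 * 10 ^ 4 ≤ A) (hT : exp A ≤ T) :
    0 < Real.log A ∧ A ≤ Real.log T ∧ exp 26 ≤ T ∧ 64 * Real.log A ≤ A ∧
    1 ≤ 4 * (Real.log A / A) * Real.log T ∧
    4 * (Real.log A / A) * Real.log T ≤ Real.log (2 * T) / 16 ∧
    Real.log (2 * T) ≤ 2 * Real.log T := by
  have hA0 : 0 < A := by linarith
  have h1 : 1 ≤ Real.log A := by
    rw [Real.le_log_iff_exp_le hA0]
    have := Real.exp_one_lt_d9
    linarith
  have h2 : A ≤ Real.log T := by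
    have := Real.log_le_log (exp_pos A) hT
    rwa [Real.log_exp] at this
  have hT0 : 0 < T := (exp_pos A).trans_le hT
  have h3 : exp 26 ≤ T := (exp_le_exp.mpr (by linarith)).trans hT
  have h4 : 64 * Real.log A ≤ A := by
    have h5 : Real.log A = 2 * Real.log (√A) := by
      rw [Real.log_sqrt hA0.le]; ring
    have h6 : Real.log (√A) ≤ √A - 1 := Real.log_le_sub_one_of_pos (Real.sqrt_pos.mpr hA0)
    have h7 : 128 ≤ √A := by
      apply Real.le_sqrt_of_sq_le
      linarith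
    have h8 : √A * √A = A := Real.mul_self_sqrt hA0.le
    nlinarith
  have h5 : Real.log (2 * T) = Real.log 2 + Real.log T :=
    Real.log_mul (by norm_num) hT0.ne'
  have hl2 : 0 ≤ Real.log 2 := Real.log_nonneg (by norm_num)
  have hl2' : Real.log 2 ≤ 1 := by
    have := Real.log_two_lt_d9; linarith
  refine ⟨by linarith, h2, h3, h4, ?_, ?_, by linarith⟩
  · have : 1 ≤ Real.log T / A := by rw [le_div_iff₀ hA0]; linarith
    calc (1:ℝ) ≤ 4 * (Real.log A * (Real.log T / A)) := by nlinarith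
      _ = _ := by ring
  · have h6 : Real.log A / A ≤ 1 / 64 := by
      rw [div_le_div_iff₀ hA0 (by norm_num)]
      linarith
    have hlT : 0 ≤ Real.log T := by linarith
    have h7 : 4 * (Real.log A / A) * Real.log T ≤ 4 * (1 / 64) * Real.log T := by gcongr
    linarith

/-- lower bound for the proportion, both signs at once -/
lemma near_lower {A T σ : ℝ} (hA : 2 * 10 ^ 4 ≤ A) (hT : exp A ≤ T)
    (hσ : 1 / 2 + A / Real.log T ≤ σ) (hσ5 : σ ≤ 5) {η : ℝ} (hη : 0 ≤ η) {e : ℂ}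
    (he : e = 1 ∨ e = -1) :
    T / 2 - η / 2 * T - (17000 + 16 * Cm) * (Real.log A / A) * T ≤
      ∫ t in Ioc T (2 * T), Pη η (eTh t * (e * ph (riemannZeta (pt σ t)))) := by
  obtain ⟨hlA, hAT, hT26, h64, hℓ1, hℓ2, hl2T⟩ := params hA hT
  have hA0 : 0 < A := by linarith
  have hlT : 0 < Real.log T := by linarith
  have hT0 : 0 < T := (exp_pos _).trans_le hT26
  have hT1 : 1 ≤ T := (one_le_exp (by norm_num)).trans hT26
  have hπ := Real.pi_pos
  have hπ2 := Real.pi_lt_d2
  have hlogA1 : 1 ≤ Real.log A := by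
    rw [Real.le_log_iff_exp_le hA0]
    have := Real.exp_one_lt_d9
    linarith
  have hσ2 : 1 / 2 ≤ σ := by
    have : 0 ≤ A / Real.log T := by positivity
    linarith
  have hen : ‖e‖ = 1 := by
    rcases he with h | h
    · rw [h, norm_one]
    · rw [h, norm_neg, norm_one]
  set ℓ : ℝ := 4 * (Real.log A / A) * Real.log T with hℓ
  set N : ℕ := ⌊exp (2 * ℓ)⌋₊ with hN
  set a : ℕ → ℂ := fun n => ((lam (exp ℓ) (exp (2 * ℓ)) n : ℝ) : ℂ) with ha
  have hw := one_le_w hℓ1
  have hwy := w_lt_y hℓ1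
  have han : ∀ n, ‖a n‖ ≤ 1 := by
    intro n
    show ‖((lam (exp ℓ) (exp (2 * ℓ)) n : ℝ) : ℂ)‖ ≤ 1
    rw [Complex.norm_real, Real.norm_eq_abs]
    exact abs_lam_le_one hw hwy n
  have ha1 : a 1 = 1 := by
    show ((lam (exp ℓ) (exp (2 * ℓ)) 1 : ℝ) : ℂ) = 1
    rw [lam_one hw hwy]; simp
  have hN1 : 1 ≤ N := by
    rw [hN, Nat.one_le_floor_iff]
    exact one_le_exp (by linarith)
  have hlogN : Real.log N ≤ 2 * ℓ := by
    have h1 : (N:ℝ) ≤ exp (2 * ℓ) := Nat.floor_le (exp_pos _).le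
    have h2 := Real.log_le_log (by exact_mod_cast hN1) h1
    rwa [Real.log_exp] at h2
  -- the lower bound for the mollifier
  set u : ℝ → ℂ := fun t => e * (starRingEnd ℂ) (ph (DP a N (pt σ t))) with hu
  have hcd := continuous_DP_pt a N σ
  have hum : Measurable u :=
    measurable_const.mul (Complex.continuous_conj.measurable.comp (measurable_ph.comp hcd.measurable))
  have hlow := DP_lower (T := T) hT26 han ha1 hN1 (σ := σ) (by linarith) hσ5
    (η := η + 1 / A) (by positivity) (u := u) hum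
    (fun t => by
      rcases ph_zero_or (z := DP a N (pt σ t)) with h | h
      · left; show e * (starRingEnd ℂ) (ph (DP a N (pt σ t))) = 0; rw [h]; simp
      · right; show ‖e * (starRingEnd ℂ) (ph (DP a N (pt σ t)))‖ = 1
        rw [norm_mul, hen, one_mul, Complex.norm_conj, h])
    (fun t => by
      show ‖e * (starRingEnd ℂ) (ph (DP a N (pt σ t)))‖ = _
      rw [norm_mul, hen, one_mul, Complex.norm_conj])
    (fun t s => by
      show ‖e * (starRingEnd ℂ) (ph (DP a N (pt σ t))) - e * (starRingEnd ℂ) (ph (DP a N (pt σ s)))‖ = _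
      rw [← mul_sub, ← map_sub, norm_mul, hen, one_mul, Complex.norm_conj])
  -- the second moment
  have hexp : exp 16 ≤ 2 * T := by
    have : exp 16 ≤ exp 26 := exp_le_exp.mpr (by norm_num)
    linarith
  have hmom := moll_moment hexp hℓ1 hℓ2 hσ2 hσ5
  have hzc : ContinuousOn (fun t : ℝ => zn ℓ (σ + t * Complex.I)) (Icc 1 (2 * T)) :=
    continuousOn_zn ℓ le_rfl
  have hzi1 : IntegrableOn (fun t : ℝ => ‖zn ℓ (σ + t * Complex.I)‖ ^ 2) (Ioc 1 (2 * T)) :=
    ((hzc.norm.pow 2).integrableOn_Icc).mono_set Ioc_subset_Icc_self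
  have hzi : IntegrableOn (fun t : ℝ => ‖zn ℓ (σ + t * Complex.I)‖ ^ 2) (Ioc T (2 * T)) :=
    hzi1.mono_set (Ioc_subset_Ioc_left hT1)
  have hE : ∫ t in Ioc T (2 * T), ‖zn ℓ (σ + t * Complex.I)‖ ^ 2 ≤ 4 * Cm * T * (A ^ 3)⁻¹ := by
    have h1 : ∫ t in Ioc T (2 * T), ‖zn ℓ (σ + t * Complex.I)‖ ^ 2 ≤
        ∫ t in Ioc 1 (2 * T), ‖zn ℓ (σ + t * Complex.I)‖ ^ 2 := by
      apply setIntegral_mono_set hzi1
      · exact Filter.Eventually.of_forall fun t => by
          show (0:ℝ) ≤ ‖zn ℓ (σ + t * Complex.I)‖ ^ 2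
          positivity
      · exact Filter.Eventually.of_forall fun x hx => ⟨by linarith [hx.1], hx.2⟩
    refine h1.trans (hmom.trans ?_)
    have hQ : Real.log (2 * T) / ℓ ≤ 2 * A := by
      rw [div_le_iff₀ (by linarith)]
      have e1 : 2 * A * ℓ = 8 * Real.log A * Real.log T := by
        rw [hℓ]; field_simp; norm_num
      rw [e1]
      nlinarith
    have hexpb : exp (-(2 * ℓ * (min σ 1 - 1 / 2))) ≤ (A ^ 4)⁻¹ := by
      have e1 : (A ^ 4)⁻¹ = exp (-(4 * Real.log A)) := by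
        rw [exp_neg]
        congr 1
        have : exp (4 * Real.log A) = exp (Real.log A) ^ 4 := by
          rw [← exp_nat_mul]; norm_num
        rw [this, exp_log hA0]
      rw [e1]
      apply exp_le_exp.mpr
      have hAl : A / Real.log T ≤ 1 := by rw [div_le_one hlT]; exact hAT
      have hm : A / Real.log T / 2 ≤ min σ 1 - 1 / 2 := by
        have h3 : 1 / 2 + A / Real.log T / 2 ≤ min σ 1 := by
          apply le_min
          · have : 0 ≤ A / Real.log T := by positivity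
            linarith
          · linarith
        linarith
      have h4 : 2 * ℓ * (A / Real.log T / 2) = 4 * Real.log A := by
        rw [hℓ]; field_simp
      have h5 : 2 * ℓ * (A / Real.log T / 2) ≤ 2 * ℓ * (min σ 1 - 1 / 2) := by gcongr
      linarith
    have hC := Cm_pos
    calc 2 * 10 ^ 8 * π * exp 26 * (Real.log (2 * T) / ℓ) * (2 * T) *
          exp (-(2 * ℓ * (min σ 1 - 1 / 2)))
        = Cm * (Real.log (2 * T) / ℓ) * (2 * T) * exp (-(2 * ℓ * (min σ 1 - 1 / 2))) := rfl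
      _ ≤ Cm * (2 * A) * (2 * T) * (A ^ 4)⁻¹ := by gcongr
      _ = 4 * Cm * T * (A ^ 3)⁻¹ := by field_simp; norm_num
  -- comparison
  have hvm : Measurable fun t => eTh t * (e * ph (riemannZeta (pt σ t))) :=
    measurable_eTh.mul (measurable_const.mul (measurable_ph.comp (measurable_zeta_pt σ)))
  have hwm : Measurable fun t => eTh t * u t := measurable_eTh.mul hum
  have hpt : ∀ t ∈ Ioc T (2 * T), Pη (η + 1 / A) (eTh t * u t) -
      4 * A ^ 2 * ‖zn ℓ (σ + t * Complex.I)‖ ^ 2 ≤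
      Pη η (eTh t * (e * ph (riemannZeta (pt σ t)))) := by
    intro t _
    have h1 := Pη_chebyshev_sq (η := η) (δ := 1 / A) (by positivity)
      (eTh t * (e * ph (riemannZeta (pt σ t)))) (eTh t * u t)
    have h2 : ‖eTh t * (e * ph (riemannZeta (pt σ t))) - eTh t * u t‖ ≤
        2 * ‖zn ℓ (σ + t * Complex.I)‖ := by
      show ‖eTh t * (e * ph (riemannZeta (pt σ t))) -
        eTh t * (e * (starRingEnd ℂ) (ph (DP a N (pt σ t))))‖ ≤ _
      rw [← mul_sub, ← mul_sub, norm_mul, norm_mul, norm_eTh, hen, one_mul, one_mul]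
      exact ph_conj_le _ _
    have h3 : ‖eTh t * (e * ph (riemannZeta (pt σ t))) - eTh t * u t‖ ^ 2 / (1 / A) ^ 2 ≤
        4 * A ^ 2 * ‖zn ℓ (σ + t * Complex.I)‖ ^ 2 := by
      calc ‖eTh t * (e * ph (riemannZeta (pt σ t))) - eTh t * u t‖ ^ 2 / (1 / A) ^ 2
          ≤ (2 * ‖zn ℓ (σ + t * Complex.I)‖) ^ 2 / (1 / A) ^ 2 := by gcongr
        _ = _ := by field_simp; ring
    linarith
  have hint : ∫ t in Ioc T (2 * T), (Pη (η + 1 / A) (eTh t * u t) -
      4 * A ^ 2 * ‖zn ℓ (σ + t * Complex.I)‖ ^ 2) ≤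
      ∫ t in Ioc T (2 * T), Pη η (eTh t * (e * ph (riemannZeta (pt σ t)))) :=
    setIntegral_mono_on
      ((integrableOn_Pη hwm (η + 1 / A) T (2 * T)).sub (hzi.const_mul (4 * A ^ 2)))
      (integrableOn_Pη hvm η T (2 * T)) measurableSet_Ioc hpt
  rw [integral_sub (integrableOn_Pη hwm (η + 1 / A) T (2 * T)) (hzi.const_mul (4 * A ^ 2)),
    integral_const_mul] at hint
  refine le_trans ?_ hint
  have hC := Cm_pos
  have hAinv : A⁻¹ ≤ Real.log A / A := by
    rw [div_eq_mul_inv]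
    exact le_mul_of_one_le_left (by positivity) hlogA1
  have hLA : 0 < Real.log A / A := by positivity
  have f1 : 4 * A ^ 2 * ∫ t in Ioc T (2 * T), ‖zn ℓ (σ + t * Complex.I)‖ ^ 2 ≤
      16 * Cm * (Real.log A / A) * T := by
    calc 4 * A ^ 2 * ∫ t in Ioc T (2 * T), ‖zn ℓ (σ + t * Complex.I)‖ ^ 2
        ≤ 4 * A ^ 2 * (4 * Cm * T * (A ^ 3)⁻¹) := by gcongr
      _ = 16 * Cm * T * A⁻¹ := by field_simp; norm_num
      _ ≤ 16 * Cm * T * (Real.log A / A) := by gcongr
      _ = _ := by ring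
  have f2 : 53 * (8 * π / Real.log T) * T * (Real.log N + 1) ≤ 16100 * (Real.log A / A) * T := by
    have h1 : Real.log N + 1 ≤ 3 * ℓ := by linarith
    calc 53 * (8 * π / Real.log T) * T * (Real.log N + 1)
        ≤ 53 * (8 * π / Real.log T) * T * (3 * ℓ) := by gcongr
      _ = (5088 * π) * (Real.log A / A) * T := by rw [hℓ]; field_simp; norm_num
      _ ≤ 16100 * (Real.log A / A) * T := by
          gcongr
          linarith
  have f3 : 1 / A / 2 * T ≤ (Real.log A / A) * T := by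
    apply mul_le_mul_of_nonneg_right _ hT0.le
    rw [one_div]
    have : 0 ≤ A⁻¹ := by positivity
    linarith
  have f4 : (η + 1 / A) / 2 * T = η / 2 * T + 1 / A / 2 * T := by ring
  have f5 : (17000 + 16 * Cm) * (Real.log A / A) * T =
      16100 * (Real.log A / A) * T + 900 * ((Real.log A / A) * T) +
        16 * Cm * (Real.log A / A) * T := by ring
  have f6 : 0 ≤ (Real.log A / A) * T := by positivity
  rw [f5]
  linarith

end Pool.Agent.H77.HZ
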