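import Mathlib

/-!
# Phases and signs

`ph z = z/|z|` (zero at zero), `sg` the sign of a real number, and the inequality
`4 ‖ph z₁ - ph z₂‖ ≤ ∫₀^{2π} |sg Re(e^{-iφ} z₁) - sg Re(e^{-iφ} z₂)| dφ`.
-/

namespace Pool.Agent.H77.HZ

open MeasureTheory Set Real

/-- The phase of a complex number (zero at zero). -/
noncomputable def ph (z : ℂ) : ℂ := z / (‖z‖ : ℂ)

/-- The sign of a real number. -/
noncomputable def sg (x : ℝ) : ℝ := if 0 < x then 1 else if x < 0 then -1 else 0

lemma ph_zero : ph 0 = 0 := by simp [ph]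

lemma norm_ph_of_ne {z : ℂ} (hz : z ≠ 0) : ‖ph z‖ = 1 := by
  unfold ph
  rw [norm_div, Complex.norm_real, norm_norm, div_self (norm_ne_zero_iff.mpr hz)]

lemma norm_ph_le (z : ℂ) : ‖ph z‖ ≤ 1 := by
  rcases eq_or_ne z 0 with h | h
  · rw [h, ph_zero, norm_zero]; norm_num
  · rw [norm_ph_of_ne h]

lemma ph_mul (a b : ℂ) : ph (a * b) = ph a * ph b := by
  unfold ph
  rw [norm_mul, Complex.ofReal_mul, mul_div_mul_comm]

lemma ph_conj (a : ℂ) : ph ((starRingEnd ℂ) a) = (starRingEnd ℂ) (ph a) := by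
  unfold ph
  rw [Complex.norm_conj, map_div₀, Complex.conj_ofReal]

lemma ph_of_norm_one {z : ℂ} (hz : ‖z‖ = 1) : ph z = z := by
  unfold ph; rw [hz]; simp

lemma norm_mul_ph (z : ℂ) : (‖z‖ : ℂ) * ph z = z := by
  rcases eq_or_ne z 0 with h | h
  · rw [h]; simp
  · unfold ph
    rw [mul_div_cancel₀]
    exact_mod_cast norm_ne_zero_iff.mpr h

lemma measurable_ph : Measurable ph := by
  unfold ph
  exact measurable_id.div (Complex.measurable_ofReal.comp measurable_norm)

lemma norm_ph_sub_one_le (z : ℂ) : ‖ph z - 1‖ ≤ 2 * ‖z - 1‖ := by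
  rcases eq_or_ne z 0 with h | h
  · rw [h, ph_zero]; norm_num
  · have h1 : ‖ph z - z‖ ≤ ‖z - 1‖ := by
      have e : ph z - z = ph z * ((1 - ‖z‖ : ℝ) : ℂ) := by
        nth_rewrite 2 [← norm_mul_ph z]
        push_cast
        ring
      rw [e, norm_mul, norm_ph_of_ne h, one_mul, Complex.norm_real, Real.norm_eq_abs]
      have := abs_norm_sub_norm_le (1 : ℂ) z
      rw [norm_one, norm_sub_rev] at this
      exact this
    calc ‖ph z - 1‖ = ‖(ph z - z) + (z - 1)‖ := by ring_nf
      _ ≤ ‖ph z - z‖ + ‖z - 1‖ := norm_add_le _ _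
      _ ≤ 2 * ‖z - 1‖ := by linarith

lemma sg_of_pos {x : ℝ} (hx : 0 < x) : sg x = 1 := by simp [sg, hx]
lemma sg_of_neg {x : ℝ} (hx : x < 0) : sg x = -1 := by simp [sg, hx, not_lt.mpr hx.le]
lemma sg_zero : sg 0 = 0 := by simp [sg]
lemma abs_sg_le (x : ℝ) : |sg x| ≤ 1 := by
  unfold sg; split_ifs <;> simp
lemma measurable_sg : Measurable sg := by
  unfold sg
  exact Measurable.ite (measurableSet_lt measurable_const measurable_id) measurable_const
    (Measurable.ite (measurableSet_lt measurable_id measurable_const) measurable_const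
      measurable_const)
lemma sg_mul_pos {a x : ℝ} (ha : 0 < a) : sg (a * x) = sg x := by
  unfold sg
  have h1 : 0 < a * x ↔ 0 < x := by rw [mul_pos_iff_of_pos_left ha]
  have h2 : a * x < 0 ↔ x < 0 := by
    constructor
    · intro h
      by_contra hx
      push Not at hx
      have := mul_nonneg ha.le hx
      linarith
    · intro h
      exact mul_neg_of_pos_of_neg ha h
  simp only [h1, h2]

/-- the sign function times the exponential over a period -/
lemma integral_sg_cos :
    ∫ ψ in (-(π / 2))..(3 * π / 2), ((sg (Real.cos ψ) : ℝ) : ℂ) * Complex.exp (Complex.I * ψ) = 4 := by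
  have hπ := Real.pi_pos
  have hb : ∀ a b : ℝ, IntervalIntegrable
      (fun ψ : ℝ => ((sg (Real.cos ψ) : ℝ) : ℂ) * Complex.exp (Complex.I * ψ)) volume a b := by
    intro a b
    have h1 : IntervalIntegrable (fun ψ : ℝ => Complex.exp (Complex.I * ψ)) volume a b := by
      apply Continuous.intervalIntegrable; fun_prop
    refine h1.mono_fun ?_ ?_
    · apply Measurable.aestronglyMeasurable
      exact (Complex.measurable_ofReal.comp (measurable_sg.comp Real.measurable_cos)).mul
        (by fun_prop)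
    · refine Filter.Eventually.of_forall fun ψ => ?_
      show ‖((sg (Real.cos ψ) : ℝ) : ℂ) * Complex.exp (Complex.I * ψ)‖ ≤ _
      rw [norm_mul, Complex.norm_real, Real.norm_eq_abs]
      have := abs_sg_le (Real.cos ψ)
      nlinarith [norm_nonneg (Complex.exp (Complex.I * ψ))]
  rw [← intervalIntegral.integral_add_adjacent_intervals (hb _ (π / 2)) (hb _ _)]
  have e1 : ∫ ψ in (-(π / 2))..(π / 2), ((sg (Real.cos ψ) : ℝ) : ℂ) * Complex.exp (Complex.I * ψ) =
      ∫ ψ in (-(π / 2))..(π / 2), Complex.exp (Complex.I * ψ) := by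
    apply intervalIntegral.integral_congr_Ioo_of_le (by linarith)
    intro ψ hψ
    show ((sg (Real.cos ψ) : ℝ) : ℂ) * Complex.exp (Complex.I * ψ) = _
    rw [sg_of_pos (Real.cos_pos_of_mem_Ioo hψ)]
    simp
  have e2 : ∫ ψ in (π / 2)..(3 * π / 2), ((sg (Real.cos ψ) : ℝ) : ℂ) * Complex.exp (Complex.I * ψ) =
      ∫ ψ in (π / 2)..(3 * π / 2), -Complex.exp (Complex.I * ψ) := by
    apply intervalIntegral.integral_congr_Ioo_of_le (by linarith)
    intro ψ hψ
    show ((sg (Real.cos ψ) : ℝ) : ℂ) * Complex.exp (Complex.I * ψ) = _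
    rw [sg_of_neg (Real.cos_neg_of_pi_div_two_lt_of_lt hψ.1 (by linarith [hψ.2]))]
    simp
  rw [e1, e2, intervalIntegral.integral_neg, integral_exp_mul_complex Complex.I_ne_zero,
    integral_exp_mul_complex Complex.I_ne_zero]
  have c1 : Complex.exp (Complex.I * ((π / 2 : ℝ) : ℂ)) = Complex.I := by
    rw [mul_comm]; push_cast
    exact Complex.exp_pi_div_two_mul_I
  have c2 : Complex.exp (Complex.I * ((-(π / 2) : ℝ) : ℂ)) = -Complex.I := by
    rw [mul_comm]; push_cast
    have := Complex.exp_neg_pi_div_two_mul_I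
    rw [← this]; congr 1; ring
  have c3 : Complex.exp (Complex.I * ((3 * π / 2 : ℝ) : ℂ)) = -Complex.I := by
    have : Complex.I * ((3 * π / 2 : ℝ) : ℂ) = Complex.I * ((π / 2 : ℝ) : ℂ) + π * Complex.I := by
      push_cast; ring
    rw [this, Complex.exp_add, c1, Complex.exp_pi_mul_I]; ring
  rw [c1, c2, c3]
  have hI := Complex.I_ne_zero
  field_simp
  ring

lemma integral_sg_re (z : ℂ) :
    ∫ φ in (0:ℝ)..(2 * π), ((sg ((Complex.exp (-(Complex.I * φ)) * z).re) : ℝ) : ℂ) *
      Complex.exp (Complex.I * φ) = 4 * ph z := by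
  rcases eq_or_ne z 0 with hz | hz
  · rw [hz, ph_zero]
    simp [sg_zero]
  · have hn : 0 < ‖z‖ := norm_pos_iff.mpr hz
    set α := Complex.arg z with hα
    have hzα : z = ‖z‖ * Complex.exp (Complex.I * α) := by
      rw [mul_comm Complex.I]
      exact (Complex.norm_mul_exp_arg_mul_I z).symm
    have hphz : ph z = Complex.exp (Complex.I * α) := by
      unfold ph
      nth_rewrite 1 [hzα]
      rw [mul_div_assoc, mul_div_cancel₀]
      exact_mod_cast hn.ne'
    have hre : ∀ φ : ℝ, (Complex.exp (-(Complex.I * φ)) * z).re = ‖z‖ * Real.cos (φ - α) := by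
      intro φ
      have : Complex.exp (-(Complex.I * φ)) * z =
          (‖z‖ : ℂ) * Complex.exp (((α - φ : ℝ) : ℂ) * Complex.I) := by
        nth_rewrite 1 [hzα]
        rw [mul_left_comm, ← Complex.exp_add]
        congr 2
        push_cast; ring
      rw [this, Complex.re_ofReal_mul, Complex.exp_ofReal_mul_I_re, ← Real.cos_neg]
      congr 2; ring
    have h1 : ∀ φ : ℝ, ((sg ((Complex.exp (-(Complex.I * φ)) * z).re) : ℝ) : ℂ) *
        Complex.exp (Complex.I * φ) =
        Complex.exp (Complex.I * α) * (((sg (Real.cos (φ - α)) : ℝ) : ℂ) *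
          Complex.exp (Complex.I * ((φ - α : ℝ) : ℂ))) := by
      intro φ
      rw [hre, sg_mul_pos hn]
      rw [mul_left_comm, ← Complex.exp_add]
      congr 2
      push_cast; ring
    simp_rw [h1]
    rw [intervalIntegral.integral_const_mul]
    have h2 := intervalIntegral.integral_comp_sub_right (a := 0) (b := 2 * π)
      (fun ψ : ℝ => ((sg (Real.cos ψ) : ℝ) : ℂ) * Complex.exp (Complex.I * ψ)) α
    rw [h2]
    have hper : Function.Periodic
        (fun ψ : ℝ => ((sg (Real.cos ψ) : ℝ) : ℂ) * Complex.exp (Complex.I * ψ)) (2 * π) := by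
      intro ψ
      show ((sg (Real.cos (ψ + 2 * π)) : ℝ) : ℂ) * Complex.exp (Complex.I * ((ψ + 2 * π : ℝ) : ℂ)) = _
      rw [Real.cos_add_two_pi]
      congr 1
      have : Complex.I * ((ψ + 2 * π : ℝ) : ℂ) = Complex.I * ψ + 2 * π * Complex.I := by
        push_cast; ring
      rw [this, Complex.exp_add, Complex.exp_two_pi_mul_I, mul_one]
    have h3 := hper.intervalIntegral_add_eq (0 - α) (-(π / 2))
    have e1 : 0 - α + 2 * π = 2 * π - α := by ring
    have e2 : -(π / 2) + 2 * π = 3 * π / 2 := by ring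
    rw [e1, e2] at h3
    rw [h3, integral_sg_cos, hphz]
    ring

/-- `4‖ph z₁ - ph z₂‖ ≤ ∫ |sg Re(e^{-iφ}z₁) - sg Re(e^{-iφ}z₂)|`. -/
lemma norm_ph_sub_le (z₁ z₂ : ℂ) :
    4 * ‖ph z₁ - ph z₂‖ ≤ ∫ φ in (0:ℝ)..(2 * π),
      |sg ((Complex.exp (-(Complex.I * φ)) * z₁).re) -
        sg ((Complex.exp (-(Complex.I * φ)) * z₂).re)| := by
  have hπ := Real.pi_pos
  have hint : ∀ z : ℂ, IntervalIntegrable (fun φ : ℝ =>
      ((sg ((Complex.exp (-(Complex.I * φ)) * z).re) : ℝ) : ℂ) *
      Complex.exp (Complex.I * φ)) volume 0 (2 * π) := by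
    intro z
    have h1 : IntervalIntegrable (fun ψ : ℝ => Complex.exp (Complex.I * ψ)) volume 0 (2 * π) := by
      apply Continuous.intervalIntegrable; fun_prop
    refine h1.mono_fun ?_ ?_
    · apply Measurable.aestronglyMeasurable
      refine (Complex.measurable_ofReal.comp (measurable_sg.comp ?_)).mul (by fun_prop)
      exact Complex.measurable_re.comp (by fun_prop)
    · refine Filter.Eventually.of_forall fun ψ => ?_
      show ‖((sg _ : ℝ) : ℂ) * Complex.exp (Complex.I * ψ)‖ ≤ _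
      rw [norm_mul, Complex.norm_real, Real.norm_eq_abs]
      have := abs_sg_le ((Complex.exp (-(Complex.I * ψ)) * z).re)
      nlinarith [norm_nonneg (Complex.exp (Complex.I * ψ))]
  have h4 : (4:ℂ) * (ph z₁ - ph z₂) = ∫ φ in (0:ℝ)..(2 * π),
      (((sg ((Complex.exp (-(Complex.I * φ)) * z₁).re) : ℝ) : ℂ) * Complex.exp (Complex.I * φ)
      - ((sg ((Complex.exp (-(Complex.I * φ)) * z₂).re) : ℝ) : ℂ) * Complex.exp (Complex.I * φ)) := by
    rw [intervalIntegral.integral_sub (hint z₁) (hint z₂), integral_sg_re, integral_sg_re]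
    ring
  have h5 : 4 * ‖ph z₁ - ph z₂‖ = ‖(4:ℂ) * (ph z₁ - ph z₂)‖ := by
    rw [norm_mul]; norm_num
  rw [h5, h4]
  refine (intervalIntegral.norm_integral_le_integral_norm (by linarith)).trans (le_of_eq ?_)
  apply intervalIntegral.integral_congr
  intro φ _
  show ‖_ - _‖ = |_|
  rw [← sub_mul, norm_mul, ← Complex.ofReal_sub, Complex.norm_real, Real.norm_eq_abs]
  have : ‖Complex.exp (Complex.I * φ)‖ = 1 := by
    rw [mul_comm]; exact Complex.norm_exp_ofReal_mul_I φ
  rw [this, mul_one]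

end Pool.Agent.H77.HZ
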