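import Pool.Agent.H77.HZ.Cross

/-!
# The phase variation of an analytic function on a vertical segment

`Wf f H t` bounds the variation of the phase of `f` on `[t, t + H]`, and its mean over a unit interval
is `O(H log K)`.
-/

namespace Pool.Agent.H77.HZ

open MeasureTheory Set Real Metric

/-- the point `σ + i t` -/
noncomputable def pt (σ t : ℝ) : ℂ := (σ : ℂ) + t * Complex.I

lemma pt_re (σ t : ℝ) : (pt σ t).re = σ := by simp [pt]
lemma pt_im (σ t : ℝ) : (pt σ t).im = t := by simp [pt]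
lemma continuous_pt (σ : ℝ) : Continuous (pt σ) := by unfold pt; fun_prop

/-- half the measure of the angles `φ` for which `Re (e^{-iφ} f)` vanishes in `[t, t + H]` -/
noncomputable def Wf (f : ℝ → ℂ) (H t : ℝ) : ℝ := (1 / 2) * ∫ φ in Ioc 0 (2 * π), Xc f H φ t

lemma integrable_Xc_prod {f : ℝ → ℂ} (hf : Continuous f) (H a b : ℝ) :
    Integrable (Function.uncurry fun t φ => Xc f H φ t)
      ((volume.restrict (Ioc a b)).prod (volume.restrict (Ioc 0 (2 * π)))) := by
  apply Integrable.of_bound (measurable_Xc hf H).aestronglyMeasurable 1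
  refine Filter.Eventually.of_forall fun p => ?_
  show ‖Xc f H p.2 p.1‖ ≤ 1
  rw [Real.norm_eq_abs, abs_of_nonneg (Xc_nonneg _ _ _ _)]
  exact Xc_le_one _ _ _ _

lemma Wf_nonneg (f : ℝ → ℂ) (H t : ℝ) : 0 ≤ Wf f H t := by
  unfold Wf
  have : 0 ≤ ∫ φ in Ioc 0 (2 * π), Xc f H φ t := integral_nonneg fun φ => Xc_nonneg _ _ _ _
  linarith

lemma integrableOn_Wf {f : ℝ → ℂ} (hf : Continuous f) (H a b : ℝ) :
    IntegrableOn (Wf f H) (Ioc a b) := by
  have := (integrable_Xc_prod hf H a b).integral_prod_left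
  exact this.const_mul (1 / 2)

/-- `W` bounds the change of phase. -/
lemma norm_ph_shift_le {f : ℝ → ℂ} (hf : Continuous f) {H h : ℝ} (hh : 0 ≤ h) (hhH : h ≤ H)
    (t : ℝ) : ‖ph (f (t + h)) - ph (f t)‖ ≤ Wf f H t := by
  have hπ := Real.pi_pos
  have h1 := norm_ph_sub_le (f (t + h)) (f t)
  rw [intervalIntegral.integral_of_le (by linarith)] at h1
  have hXm : Measurable fun φ => Xc f H φ t :=
    (measurable_Xc hf H).comp (measurable_const.prodMk measurable_id)
  have h2 : ∫ φ in Ioc 0 (2 * π), |sg ((Complex.exp (-(Complex.I * φ)) * f (t + h)).re) -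
        sg ((Complex.exp (-(Complex.I * φ)) * f t).re)| ≤
      ∫ φ in Ioc 0 (2 * π), 2 * Xc f H φ t := by
    apply integral_mono_of_nonneg
    · exact Filter.Eventually.of_forall fun φ => abs_nonneg _
    · apply Integrable.const_mul
      apply Integrable.of_bound hXm.aestronglyMeasurable 1
      refine Filter.Eventually.of_forall fun φ => ?_
      rw [Real.norm_eq_abs, abs_of_nonneg (Xc_nonneg _ _ _ _)]
      exact Xc_le_one _ _ _ _
    · exact Filter.Eventually.of_forall fun φ => sg_le_Xc hf φ t hh hhH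
  rw [integral_const_mul] at h2
  unfold Wf
  linarith

section
variable {F G : ℂ → ℂ} {c : ℂ} {r R K σ τ H : ℝ}

lemma inner_bound (hr : 0 < r) (hrR : r < R)
    (hF : AnalyticOnNhd ℂ F (closedBall c R)) (hG : AnalyticOnNhd ℂ G (closedBall c R))
    (hK1 : 1 ≤ K) (hFK : ∀ z ∈ closedBall c R, ‖F z‖ ≤ K) (hGK : ∀ z ∈ closedBall c R, ‖G z‖ ≤ K)
    (hseg : ∀ t ∈ Icc τ (τ + 2), ‖pt σ t - c‖ ≤ r)
    (hFG : ∀ t ∈ Icc τ (τ + 2), G (pt σ t) = (starRingEnd ℂ) (F (pt σ t)))
    (hH : 0 ≤ H) (hH1 : H ≤ 1) (φ : ℝ)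
    (hφ : Complex.exp (-(Complex.I * φ)) * F c + Complex.exp (Complex.I * φ) * G c ≠ 0) :
    ∫ t in Ioc τ (τ + 1), Xc (fun t => F (pt σ t)) H φ t ≤
      H * ((Real.log (2 * K) - Real.log ‖Complex.exp (-(Complex.I * φ)) * F c +
        Complex.exp (Complex.I * φ) * G c‖) / Real.log (R / r)) := by
  set f : ℂ → ℂ := fun s => Complex.exp (-(Complex.I * φ)) * F s +
    Complex.exp (Complex.I * φ) * G s with hf
  have hfan : AnalyticOnNhd ℂ f (closedBall c R) :=
    (analyticOnNhd_const.mul hF).add (analyticOnNhd_const.mul hG)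
  have hR : 0 < R := hr.trans hrR
  have hlog : 0 < Real.log (R / r) := Real.log_pos (by rw [lt_div_iff₀ hr]; linarith)
  have n1 : ‖Complex.exp (Complex.I * φ)‖ = 1 := by
    rw [mul_comm]; exact Complex.norm_exp_ofReal_mul_I φ
  have n2 : ‖Complex.exp (-(Complex.I * φ))‖ = 1 := by
    rw [Complex.exp_neg, norm_inv, n1, inv_one]
  have hfK : ∀ z ∈ closedBall c R, ‖f z‖ ≤ 2 * K := by
    intro z hz
    have h1 : ‖f z‖ ≤ ‖Complex.exp (-(Complex.I * φ)) * F z‖ + ‖Complex.exp (Complex.I * φ) * G z‖ :=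
      norm_add_le _ _
    rw [norm_mul, norm_mul, n1, n2, one_mul, one_mul] at h1
    linarith [hFK z hz, hGK z hz]
  have hconj : (starRingEnd ℂ) (Complex.exp (-(Complex.I * φ))) = Complex.exp (Complex.I * φ) := by
    rw [← Complex.exp_conj]
    congr 1
    simp
  have hfre : ∀ t ∈ Icc τ (τ + 2), f (pt σ t) =
      ((2 * (Complex.exp (-(Complex.I * φ)) * F (pt σ t)).re : ℝ) : ℂ) := by
    intro t ht
    show Complex.exp (-(Complex.I * φ)) * F (pt σ t) + Complex.exp (Complex.I * φ) * G (pt σ t) = _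
    rw [hFG t ht, ← hconj, ← map_mul, Complex.add_conj]
  set g : ℝ → ℝ := fun t => (Complex.exp (-(Complex.I * φ)) * F (pt σ t)).re with hg
  set B : ℝ := (Real.log (2 * K) - Real.log ‖f c‖) / Real.log (R / r) with hB
  have hcount : ∀ Z : Finset ℝ, (∀ t ∈ Z, t ∈ Icc τ (τ + 2) ∧ g t = 0) → (Z.card : ℝ) ≤ B := by
    intro Z hZ
    have hinj : Function.Injective (pt σ) := by
      intro a b hab
      have := congrArg Complex.im hab
      rwa [pt_im, pt_im] at this
    have h1 := count_zeros (f := f) hr hrR hfan hφ (by linarith : (1:ℝ) ≤ 2 * K) hfK (Z.image (pt σ))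
      (by
        intro ρ hρ
        obtain ⟨t, ht, rfl⟩ := Finset.mem_image.mp hρ
        exact hseg t (hZ t ht).1)
      (by
        intro ρ hρ
        obtain ⟨t, ht, rfl⟩ := Finset.mem_image.mp hρ
        rw [hfre t (hZ t ht).1]
        have h0 : (Complex.exp (-(Complex.I * φ)) * F (pt σ t)).re = 0 := (hZ t ht).2
        rw [h0]; simp)
    rw [Finset.card_image_of_injective _ hinj] at h1
    rw [hB, le_div_iff₀ hlog]
    exact h1
  have hfin : {t : ℝ | t ∈ Icc τ (τ + 2) ∧ g t = 0}.Finite := by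
    by_contra hinf
    have hinf' : {t : ℝ | t ∈ Icc τ (τ + 2) ∧ g t = 0}.Infinite := hinf
    obtain ⟨Z, hZ, hZc⟩ := hinf'.exists_subset_card_eq (⌈B⌉₊ + 1)
    have h1 := hcount Z (fun t ht => hZ ht)
    rw [hZc] at h1
    push_cast at h1
    have := Nat.le_ceil B
    linarith
  have hcr := crossing (f := fun t => F (pt σ t)) (τ := τ) (φ := φ) hH hH1 hfin.toFinset (by
    intro t ht h0
    rw [Set.Finite.mem_toFinset]
    exact ⟨ht, h0⟩)
  refine hcr.trans ?_
  have h2 := hcount hfin.toFinset (by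
    intro t ht
    rw [Set.Finite.mem_toFinset] at ht
    exact ht)
  gcongr

/-- **Phase variation.** -/
theorem phase_variation (hr : 0 < r) (hrR : r < R)
    (hF : AnalyticOnNhd ℂ F (closedBall c R)) (hG : AnalyticOnNhd ℂ G (closedBall c R))
    (hK1 : 1 ≤ K) (hFK : ∀ z ∈ closedBall c R, ‖F z‖ ≤ K) (hGK : ∀ z ∈ closedBall c R, ‖G z‖ ≤ K)
    (hFc : F c ≠ 0)
    (hseg : ∀ t ∈ Icc τ (τ + 2), ‖pt σ t - c‖ ≤ r)
    (hFG : ∀ t ∈ Icc τ (τ + 2), G (pt σ t) = (starRingEnd ℂ) (F (pt σ t)))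
    (hcont : Continuous fun t : ℝ => F (pt σ t)) (hH : 0 ≤ H) (hH1 : H ≤ 1) :
    ∫ t in Ioc τ (τ + 1), Wf (fun t => F (pt σ t)) H t ≤
      π * H * ((Real.log (2 * K) - Real.log ‖F c‖) / Real.log (R / r)) := by
  have hπ := Real.pi_pos
  have hlog : 0 < Real.log (R / r) := Real.log_pos (by rw [lt_div_iff₀ hr]; linarith)
  have hDi := integrable_Xc_prod hcont H τ (τ + 1)
  unfold Wf
  rw [integral_const_mul, integral_integral_swap hDi]
  obtain ⟨hAi, hA⟩ := angle_mean (a := F c) (b := G c) hFc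
  set A : ℝ → ℝ := fun φ => Real.log ‖Complex.exp (-(Complex.I * φ)) * F c +
      Complex.exp (Complex.I * φ) * G c‖ with hAdef
  have hAi' : IntegrableOn A (Ioc 0 (2 * π)) := by
    have := hAi.1
    exact this
  have h3 : ∫ φ in Ioc 0 (2 * π), ∫ t in Ioc τ (τ + 1), Xc (fun t => F (pt σ t)) H φ t ≤
      ∫ φ in Ioc 0 (2 * π), H * ((Real.log (2 * K) - A φ) / Real.log (R / r)) := by
    apply integral_mono_of_nonneg
    · exact Filter.Eventually.of_forall fun φ => integral_nonneg fun t => Xc_nonneg _ _ _ _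
    · apply Integrable.const_mul
      apply Integrable.div_const
      exact (integrable_const _).sub hAi'
    · have hnull := angle_null hFc (G c)
      filter_upwards [ae_restrict_of_ae hnull] with φ hφ
      exact inner_bound hr hrR hF hG hK1 hFK hGK hseg hFG hH hH1 φ hφ
  have h4 : ∫ φ in Ioc 0 (2 * π), H * ((Real.log (2 * K) - A φ) / Real.log (R / r)) =
      H * ((2 * π * Real.log (2 * K) - ∫ φ in Ioc 0 (2 * π), A φ) / Real.log (R / r)) := by
    rw [integral_const_mul, integral_div, integral_sub (integrable_const _) hAi',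
      setIntegral_const, measureReal_def, Real.volume_Ioc, sub_zero,
      ENNReal.toReal_ofReal (by linarith), smul_eq_mul]
  rw [h4] at h3
  have hA2 : 2 * π * Real.log ‖F c‖ ≤ ∫ φ in Ioc 0 (2 * π), A φ := by
    rw [← intervalIntegral.integral_of_le (by linarith)]
    exact hA
  calc (1 / 2) * ∫ φ in Ioc 0 (2 * π), ∫ t in Ioc τ (τ + 1), Xc (fun t => F (pt σ t)) H φ t
      ≤ (1 / 2) * (H * ((2 * π * Real.log (2 * K) - ∫ φ in Ioc 0 (2 * π), A φ) /
        Real.log (R / r))) := by gcongr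
    _ ≤ (1 / 2) * (H * ((2 * π * Real.log (2 * K) - 2 * π * Real.log ‖F c‖) /
        Real.log (R / r))) := by gcongr
    _ = _ := by ring

/-- the zeros of `F` on the segment are finite in number -/
lemma finite_zeros (hr : 0 < r) (hrR : r < R) (hF : AnalyticOnNhd ℂ F (closedBall c R))
    (hK1 : 1 ≤ K) (hFK : ∀ z ∈ closedBall c R, ‖F z‖ ≤ K) (hFc : F c ≠ 0)
    (hseg : ∀ t ∈ Icc τ (τ + 2), ‖pt σ t - c‖ ≤ r) :
    {t : ℝ | t ∈ Icc τ (τ + 2) ∧ F (pt σ t) = 0}.Finite := by
  have hlog : 0 < Real.log (R / r) := Real.log_pos (by rw [lt_div_iff₀ hr]; linarith)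
  set B : ℝ := (Real.log K - Real.log ‖F c‖) / Real.log (R / r) with hB
  by_contra hinf
  have hinf' : {t : ℝ | t ∈ Icc τ (τ + 2) ∧ F (pt σ t) = 0}.Infinite := hinf
  obtain ⟨Z, hZ, hZc⟩ := hinf'.exists_subset_card_eq (⌈B⌉₊ + 1)
  have hinj : Function.Injective (pt σ) := by
    intro a b hab
    have := congrArg Complex.im hab
    rwa [pt_im, pt_im] at this
  have h1 := count_zeros (f := F) hr hrR hF hFc hK1 hFK (Z.image (pt σ))
    (by
      intro ρ hρ
      obtain ⟨t, ht, rfl⟩ := Finset.mem_image.mp hρ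
      exact hseg t (hZ ht).1)
    (by
      intro ρ hρ
      obtain ⟨t, ht, rfl⟩ := Finset.mem_image.mp hρ
      exact (hZ ht).2)
  rw [Finset.card_image_of_injective _ hinj, ← le_div_iff₀ hlog, hZc] at h1
  push_cast at h1
  have := Nat.le_ceil B
  linarith

end

end Pool.Agent.H77.HZ
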