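import Pool.Agent.H77.HZ.Ph
import Pool.Agent.H74.ZS.GamR

/-!
# Rotation of `e^{iθ(t)}`

`eTh t = e^{iθ(t)}`, `θ` the Riemann-Siegel theta function.
-/

namespace Pool.Agent.H77.HZ

open MeasureTheory Set Real

/-- `e^{iθ(t)}`: the unimodular number `π^{-it/2} Γ(1/4 + it/2) / |Γ(1/4 + it/2)|`. -/
noncomputable def eTh (t : ℝ) : ℂ :=
  (π : ℂ) ^ (-(Complex.I * t / 2)) * Complex.Gamma (1 / 4 + Complex.I * t / 2) /
    (‖Complex.Gamma (1 / 4 + Complex.I * t / 2)‖ : ℂ)

lemma pi_cpow (t : ℝ) : (π : ℂ) ^ (-(Complex.I * t / 2)) =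
    Complex.exp (Complex.I * ((-(t / 2 * Real.log π) : ℝ) : ℂ)) := by
  have hπ := Real.pi_pos
  rw [Complex.cpow_def_of_ne_zero (by exact_mod_cast hπ.ne'), ← Complex.ofReal_log hπ.le]
  congr 1
  push_cast
  ring

lemma norm_exp_I (x : ℝ) : ‖Complex.exp (Complex.I * x)‖ = 1 := by
  rw [mul_comm]; exact Complex.norm_exp_ofReal_mul_I x

lemma Gamma_ne (t : ℝ) : Complex.Gamma (1 / 4 + Complex.I * t / 2) ≠ 0 := by
  apply Complex.Gamma_ne_zero_of_re_pos
  simp

lemma eTh_eq (t : ℝ) : eTh t = Complex.exp (Complex.I * ((-(t / 2 * Real.log π) : ℝ) : ℂ)) *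
    ph (Complex.Gamma (1 / 4 + Complex.I * t / 2)) := by
  unfold eTh ph
  rw [pi_cpow, mul_div_assoc]

lemma norm_eTh (t : ℝ) : ‖eTh t‖ = 1 := by
  rw [eTh_eq, norm_mul, norm_exp_I, norm_ph_of_ne (Gamma_ne t), one_mul]

lemma measurable_eTh : Measurable eTh := by
  have h1 : Continuous fun t : ℝ => Complex.Gamma (1 / 4 + Complex.I * t / 2) := by
    rw [continuous_iff_continuousAt]
    intro t
    have h2 : DifferentiableAt ℂ Complex.Gamma (1 / 4 + Complex.I * t / 2) := by
      apply Complex.differentiableAt_Gamma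
      intro m hm
      have := congrArg Complex.re hm
      simp at this
      have hm0 : (0:ℝ) ≤ m := Nat.cast_nonneg m
      linarith
    exact ContinuousAt.comp (f := fun t : ℝ => (1 / 4 + Complex.I * t / 2 : ℂ)) h2.continuousAt
      (by fun_prop)
  have h3 : eTh = fun t => Complex.exp (Complex.I * ((-(t / 2 * Real.log π) : ℝ) : ℂ)) *
    ph (Complex.Gamma (1 / 4 + Complex.I * t / 2)) := by funext t; exact eTh_eq t
  rw [h3]
  refine Measurable.mul ?_ (measurable_ph.comp h1.measurable)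
  apply Continuous.measurable
  fun_prop

/-- Over a time `h` the number `e^{iθ}` turns by the angle `(h/2) log (T/2π)`, up to `h`. -/
theorem eTh_shift {T t h : ℝ} (hT : 48 ≤ T) (ht : T ≤ t) (ht2 : t ≤ 2 * T) (hh : 0 ≤ h)
    (hh1 : h ≤ 1) :
    ‖eTh (t + h) - Complex.exp (Complex.I * ((h / 2 * Real.log (T / (2 * π)) : ℝ) : ℂ)) * eTh t‖ ≤
      h := by
  have hπ := Real.pi_pos
  set z : ℂ := ((1 / 4 : ℝ) : ℂ) + ((t / 2 : ℝ) : ℂ) * Complex.I with hz
  have hzt : (1 / 4 + Complex.I * t / 2 : ℂ) = z := by rw [hz]; push_cast; ring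
  have hzth : (1 / 4 + Complex.I * ((t + h : ℝ) : ℂ) / 2 : ℂ) = z + Complex.I * h / 2 := by
    rw [hz]; push_cast; ring
  set h' : ℂ := Complex.I * h / 2 with hh'
  have hn' : ‖h'‖ = h / 2 := by
    rw [hh', norm_div, norm_mul, Complex.norm_I, one_mul, Complex.norm_real, Real.norm_eq_abs,
      abs_of_nonneg hh]
    norm_num
  have hty : |t / 2| = t / 2 := abs_of_nonneg (by linarith)
  have hgr := H74.ZS.gamma_ratio (1 / 4) (t / 2) (by norm_num) (by rw [hty]; linarith) h'
    (by rw [hn', hty]; linarith)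
  rw [← hz, hn', hty] at hgr
  set Γz := Complex.Gamma z with hΓz
  have hΓ0 : Γz ≠ 0 := by
    have := Gamma_ne t
    rwa [hzt] at this
  set E := Complex.exp (h' * Complex.log z) with hE
  have hE0 : E ≠ 0 := Complex.exp_ne_zero _
  set b : ℝ := 4 * (h / 2 + (h / 2) ^ 2) / (t / 2) with hb
  have hb0 : 0 ≤ b := by
    rw [hb]
    have : 0 < t := by linarith
    positivity
  have hb1 : b ≤ 6 * h / t := by
    rw [hb, div_le_div_iff₀ (by linarith) (by linarith)]
    have : (h / 2) ^ 2 ≤ h / 4 := by nlinarith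
    nlinarith
  have hb2 : b ≤ h / 8 := by
    refine hb1.trans ?_
    rw [div_le_div_iff₀ (by linarith) (by norm_num)]
    nlinarith
  have hexpb : Real.exp b - 1 ≤ 2 * b := by
    have h4 := Real.abs_exp_sub_one_sub_id_le (x := b) (by rw [abs_of_nonneg hb0]; linarith)
    have h5 := (abs_le.mp h4).2
    nlinarith
  -- the ratio
  set q : ℂ := Complex.Gamma (z + h') / (Γz * E) with hq
  have hΓE : Γz * E ≠ 0 := mul_ne_zero hΓ0 hE0
  have hq1 : ‖q - 1‖ ≤ 2 * b := by
    have e1 : q - 1 = (Complex.Gamma (z + h') - Γz * E) / (Γz * E) := by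
      rw [hq, sub_div, div_self hΓE]
    rw [e1, norm_div, div_le_iff₀ (norm_pos_iff.mpr hΓE)]
    refine hgr.trans ?_
    rw [mul_comm]
    gcongr
  have hGq : Complex.Gamma (z + h') = Γz * E * q := by
    rw [hq, mul_div_cancel₀ _ hΓE]
  have hphE : ph E = Complex.exp (Complex.I * ((h / 2 * Real.log ‖z‖ : ℝ) : ℂ)) := by
    have hsplit : h' * Complex.log z = ((-(h / 2 * Complex.arg z) : ℝ) : ℂ) +
        Complex.I * ((h / 2 * Real.log ‖z‖ : ℝ) : ℂ) := by
      have hlz : Complex.log z = (Real.log ‖z‖ : ℂ) + (Complex.arg z : ℂ) * Complex.I := rfl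
      rw [hlz, hh']
      push_cast
      have hI : Complex.I * Complex.I = -1 := Complex.I_mul_I
      linear_combination ((h:ℂ) / 2 * Complex.arg z) * hI
    rw [hE, hsplit, Complex.exp_add, ph_mul, ph_of_norm_one (norm_exp_I _), ← Complex.ofReal_exp]
    have : ph ((Real.exp (-(h / 2 * Complex.arg z)) : ℝ) : ℂ) = 1 := by
      unfold ph
      rw [Complex.norm_real, Real.norm_eq_abs, abs_of_pos (Real.exp_pos _)]
      apply div_self
      exact_mod_cast (Real.exp_pos _).ne'
    rw [this, one_mul]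
  have hmain : eTh (t + h) = Complex.exp (Complex.I *
      ((h / 2 * (Real.log ‖z‖ - Real.log π) : ℝ) : ℂ)) * ph q * eTh t := by
    rw [eTh_eq, eTh_eq, hzt, hzth, hGq, ph_mul, ph_mul, hphE]
    have e2 : Complex.exp (Complex.I * ((-((t + h) / 2 * Real.log π) : ℝ) : ℂ)) *
        Complex.exp (Complex.I * ((h / 2 * Real.log ‖z‖ : ℝ) : ℂ)) =
        Complex.exp (Complex.I * ((h / 2 * (Real.log ‖z‖ - Real.log π) : ℝ) : ℂ)) *
        Complex.exp (Complex.I * ((-(t / 2 * Real.log π) : ℝ) : ℂ)) := by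
      rw [← Complex.exp_add, ← Complex.exp_add]
      congr 1
      push_cast
      ring
    linear_combination (ph Γz * ph q) * e2
  set A : ℂ := Complex.exp (Complex.I * ((h / 2 * (Real.log ‖z‖ - Real.log π) : ℝ) : ℂ)) with hA
  set A' : ℂ := Complex.exp (Complex.I * ((h / 2 * Real.log (T / (2 * π)) : ℝ) : ℂ)) with hA'
  have hAn : ‖A‖ = 1 := norm_exp_I _
  have hAA : ‖A - A'‖ ≤ h / 2 := by
    have e3 : A - A' = A' * (Complex.exp (Complex.I * ((h / 2 * (Real.log ‖z‖ - Real.log π) -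
        h / 2 * Real.log (T / (2 * π)) : ℝ) : ℂ)) - 1) := by
      rw [mul_sub, mul_one, hA, hA', ← Complex.exp_add]
      congr 2
      push_cast; ring
    rw [e3, norm_mul, norm_exp_I, one_mul]
    refine (Real.norm_exp_I_mul_ofReal_sub_one_le).trans ?_
    rw [Real.norm_eq_abs]
    have hT0 : 0 < T := by linarith
    have e4 : Real.log (T / (2 * π)) = Real.log (T / 2) - Real.log π := by
      rw [← Real.log_div (by positivity) hπ.ne']
      congr 1
      field_simp
    rw [e4]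
    have hzlow : T / 2 ≤ ‖z‖ := by
      have := Complex.abs_im_le_norm z
      have him : z.im = t / 2 := by rw [hz]; simp
      rw [him, hty] at this
      linarith
    have hzup : ‖z‖ ≤ (5 / 2) * (T / 2) := by
      have h6 : ‖z‖ ≤ ‖((1 / 4 : ℝ) : ℂ)‖ + ‖((t / 2 : ℝ) : ℂ) * Complex.I‖ := norm_add_le _ _
      rw [norm_mul, Complex.norm_I, mul_one, Complex.norm_real, Complex.norm_real,
        Real.norm_eq_abs, Real.norm_eq_abs, hty, abs_of_pos (by norm_num : (0:ℝ) < 1 / 4)] at h6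
      linarith
    have l1 : Real.log (T / 2) ≤ Real.log ‖z‖ := Real.log_le_log (by linarith) hzlow
    have l2 : Real.log ‖z‖ ≤ 1 + Real.log (T / 2) := by
      have h7 : Real.log ‖z‖ ≤ Real.log ((5 / 2) * (T / 2)) := Real.log_le_log (by linarith) hzup
      rw [Real.log_mul (by norm_num) (by positivity)] at h7
      have h8 : Real.log (5 / 2) ≤ 1 := by
        have := Real.exp_one_gt_d9
        rw [Real.log_le_iff_le_exp (by norm_num)]
        linarith
      linarith
    have e5 : h / 2 * (Real.log ‖z‖ - Real.log π) - h / 2 * (Real.log (T / 2) - Real.log π) =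
        h / 2 * (Real.log ‖z‖ - Real.log (T / 2)) := by ring
    rw [e5, abs_mul, abs_of_nonneg (by linarith : 0 ≤ h / 2)]
    have h9 : |Real.log ‖z‖ - Real.log (T / 2)| ≤ 1 := by
      rw [abs_le]; constructor <;> linarith
    nlinarith
  have hph : ‖ph q - 1‖ ≤ h / 2 := by
    refine (norm_ph_sub_one_le q).trans ?_
    linarith
  have e6 : eTh (t + h) - A' * eTh t = (A * (ph q - 1) + (A - A')) * eTh t := by
    rw [hmain]; ring
  rw [e6, norm_mul, norm_eTh, mul_one]
  refine (norm_add_le _ _).trans ?_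
  rw [norm_mul, hAn, one_mul]
  linarith

end Pool.Agent.H77.HZ
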