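import Pool.Agent.H77.HZ.Avg
import Pool.Agent.H77.HZ.ZetaFar

/-!
# Signs of `Re (e^{iθ(t)} A(σ + it))` for a Dirichlet polynomial `A`
-/

namespace Pool.Agent.H77.HZ

open MeasureTheory Set Real

lemma Hle {T : ℝ} (hT : exp 26 ≤ T) : 48 ≤ T ∧ 26 ≤ Real.log T ∧
    0 < 4 * π / Real.log (T / (2 * π)) ∧
    4 * π / Real.log (T / (2 * π)) ≤ 8 * π / Real.log T ∧
    4 * π / Real.log (T / (2 * π)) ≤ 1 := by
  have hπ := Real.pi_pos
  have hπ2 := Real.pi_lt_d2
  have h26 : (26:ℝ) ≤ Real.log T := by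
    have := Real.log_le_log (exp_pos 26) hT
    rwa [Real.log_exp] at this
  have hT48 : 48 ≤ T := by
    have h1 : (2:ℝ) ≤ exp 1 := by
      have := add_one_le_exp (1:ℝ); linarith
    have h2 : exp 26 = exp 1 ^ 26 := by rw [← exp_nat_mul]; norm_num
    have h3 : (2:ℝ) ^ 26 ≤ exp 1 ^ 26 := pow_le_pow_left₀ (by norm_num) h1 26
    rw [h2] at hT
    norm_num at h3
    linarith
  have hT0 : 0 < T := by linarith
  have hlog : Real.log T / 2 ≤ Real.log (T / (2 * π)) := by
    rw [Real.log_div (by positivity) (by positivity)]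
    have h4 : Real.log (2 * π) ≤ 13 := by
      have h5 : Real.log (2 * π) ≤ 2 * π - 1 := Real.log_le_sub_one_of_pos (by positivity)
      linarith
    linarith
  have hL : 0 < Real.log (T / (2 * π)) := by linarith
  have h8 : 4 * π / Real.log (T / (2 * π)) ≤ 8 * π / Real.log T := by
    rw [div_le_div_iff₀ hL (by linarith)]
    nlinarith
  refine ⟨hT48, h26, by positivity, h8, h8.trans ?_⟩
  rw [div_le_one (by linarith)]
  linarith

lemma ph_zero_or {z : ℂ} : ph z = 0 ∨ ‖ph z‖ = 1 := by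
  rcases eq_or_ne z 0 with h | h
  · left; rw [h, ph_zero]
  · right; exact norm_ph_of_ne h

lemma Pη_pos_mul {c : ℝ} (hc : 0 < c) (z : ℂ) : Pη 0 ((c : ℂ) * z) = Pη 0 z := by
  unfold Pη
  rw [Complex.re_ofReal_mul]
  have : 0 < c * z.re ↔ 0 < z.re := mul_pos_iff_of_pos_left hc
  simp only [this]

lemma Pη_ph (a z : ℂ) : Pη 0 (a * z) = Pη 0 (a * ph z) := by
  rcases eq_or_ne z 0 with h | h
  · rw [h, ph_zero]
  · have : a * z = (‖z‖ : ℂ) * (a * ph z) := by
      nth_rewrite 1 [← norm_mul_ph z]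
      ring
    rw [this, Pη_pos_mul (norm_pos_iff.mpr h)]

lemma intervalIntegrable_Wf {f : ℝ → ℂ} (hf : Continuous f) (H a b : ℝ) :
    IntervalIntegrable (Wf f H) volume a b :=
  ⟨integrableOn_Wf hf H a b, integrableOn_Wf hf H b a⟩

variable {a : ℕ → ℂ} {N : ℕ}

/-- integral of `W` for a Dirichlet polynomial -/
lemma DP_W {T H : ℝ} (ha : ∀ n, ‖a n‖ ≤ 1) (ha1 : a 1 = 1) (hN : 1 ≤ N) {σ : ℝ} (hσ : 0 ≤ σ)
    (hσ5 : σ ≤ 5) (hT : 1 ≤ T) (hH : 0 ≤ H) (hH1 : H ≤ 1) :
    ∫ t in Ioc T (2 * T), Wf (fun t => DP a N (pt σ t)) H t ≤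
      102 * T * H * (Real.log N + 1) := by
  have := sum_unit (f := Wf (fun t => DP a N (pt σ t)) H)
    (intervalIntegrable_Wf (continuous_DP_pt a N σ) H) (Wf_nonneg _ _) hT
    (fun τ => DP_phase ha ha1 hN hσ hσ5 τ hH hH1)
  refine this.trans (le_of_eq ?_)
  ring

/-- lower bound for `P_η` along the phase of a Dirichlet polynomial or its conjugate -/
lemma DP_lower {T : ℝ} (hT : exp 26 ≤ T) (ha : ∀ n, ‖a n‖ ≤ 1) (ha1 : a 1 = 1) (hN : 1 ≤ N)
    {σ : ℝ} (hσ : 0 ≤ σ) (hσ5 : σ ≤ 5) {η : ℝ} (hη : 0 ≤ η) {u : ℝ → ℂ} (hum : Measurable u)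
    (hu : ∀ t, u t = 0 ∨ ‖u t‖ = 1) (hun : ∀ t, ‖u t‖ = ‖ph (DP a N (pt σ t))‖)
    (hud : ∀ t s, ‖u t - u s‖ = ‖ph (DP a N (pt σ t)) - ph (DP a N (pt σ s))‖) :
    T / 2 - η / 2 * T - 53 * (8 * π / Real.log T) * T * (Real.log N + 1) ≤
      ∫ t in Ioc T (2 * T), Pη η (eTh t * u t) := by
  obtain ⟨hT48, hlog, hH0, hH8, hH1⟩ := Hle hT
  have hπ := Real.pi_pos
  have hN1 : (1:ℝ) ≤ N := by exact_mod_cast hN
  have hlogN : 0 ≤ Real.log N := Real.log_nonneg hN1
  set H := 4 * π / Real.log (T / (2 * π)) with hH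
  have hW := DP_W (T := T) (H := H) ha ha1 hN hσ hσ5 (by linarith) hH0.le hH1
  have hκ : ∫ t in Ioc T (2 * T), (1 - ‖u t‖) ≤ 0 := by
    apply le_of_eq
    have h0 : (fun t => 1 - ‖u t‖) =ᵐ[volume.restrict (Ioc T (2 * T))] fun _ => (0:ℝ) := by
      filter_upwards [ae_restrict_of_ae (DP_zeros_null ha ha1 hN hσ hσ5)] with t ht
      rw [hun, norm_ph_of_ne ht]
      norm_num
    rw [integral_congr_ae h0]
    simp
  have h1 := avg_lower (W := Wf (fun t => DP a N (pt σ t)) H) hum hu hT48 hH1 hη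
    (integrableOn_Wf (continuous_DP_pt a N σ) H _ _) (Wf_nonneg _ _)
    (by
      intro h hh t
      rw [hud]
      exact norm_ph_shift_le (continuous_DP_pt a N σ) hh.1 hh.2 t) hW hκ
  refine le_trans ?_ h1
  have h2 : H * T * (Real.log N + 1) ≤ (8 * π / Real.log T) * T * (Real.log N + 1) := by gcongr
  have h3 : H ≤ H * T := le_mul_of_one_le_right hH0.le (by linarith)
  have h4 : H * T ≤ H * T * (Real.log N + 1) :=
    le_mul_of_one_le_right (by positivity) (by linarith)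
  rw [← hH]
  have h5 : 102 * T * H * (Real.log N + 1) = 102 * (H * T * (Real.log N + 1)) := by ring
  have h6 : 53 * (8 * π / Real.log T) * T * (Real.log N + 1) =
      53 * ((8 * π / Real.log T) * T * (Real.log N + 1)) := by ring
  rw [h5, h6]
  linarith

/-- **Signs of `Re (e^{iθ} A)`.** -/
theorem DP_signs {T : ℝ} (hT : 2 ≤ T) (ha : ∀ n, ‖a n‖ ≤ 1) (ha1 : a 1 = 1) (hN : 1 ≤ N)
    {σ : ℝ} (hσ : 0 ≤ σ) (hσ5 : σ ≤ 5) :
    |volume.real {t | t ∈ Ioc T (2 * T) ∧ 0 < (eTh t * DP a N (pt σ t)).re} - T / 2| ≤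
      1400 * T * (1 + Real.log N) / Real.log T ∧
    |volume.real {t | t ∈ Ioc T (2 * T) ∧ (eTh t * DP a N (pt σ t)).re < 0} - T / 2| ≤
      1400 * T * (1 + Real.log N) / Real.log T := by
  have hπ := Real.pi_pos
  have hπ2 := Real.pi_lt_d2
  have hN1 : (1:ℝ) ≤ N := by exact_mod_cast hN
  have hlogN : 0 ≤ Real.log N := Real.log_nonneg hN1
  have hlogT : 0 < Real.log T := Real.log_pos (by linarith)
  have hvm : Measurable fun t => eTh t * DP a N (pt σ t) :=
    measurable_eTh.mul (continuous_DP_pt a N σ).measurable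
  apply both_signs hvm (by linarith)
  all_goals
    rcases lt_or_ge T (exp 26) with hsmall | hbig
  · have h1 : Real.log T ≤ 26 := by
      have := Real.log_le_log (by linarith) hsmall.le
      rwa [Real.log_exp] at this
    have h2 : T / 2 ≤ 1400 * T * (1 + Real.log N) / Real.log T := by
      rw [le_div_iff₀ hlogT]
      nlinarith [mul_nonneg (by linarith : 0 ≤ T) hlogN]
    have h3 : 0 ≤ ∫ t in Ioc T (2 * T), Pη 0 (eTh t * DP a N (pt σ t)) :=
      integral_nonneg fun t => Pη_nonneg _ _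
    linarith
  · have h1 := DP_lower hbig ha ha1 hN hσ hσ5 (le_refl 0)
      (u := fun t => ph (DP a N (pt σ t))) (measurable_ph.comp (continuous_DP_pt a N σ).measurable)
      (fun t => ph_zero_or) (fun t => rfl) (fun t s => rfl)
    have h2 : ∀ t, Pη 0 (eTh t * DP a N (pt σ t)) = Pη 0 (eTh t * ph (DP a N (pt σ t))) :=
      fun t => Pη_ph _ _
    simp_rw [h2]
    refine le_trans ?_ h1
    have h3 : 53 * (8 * π / Real.log T) * T * (Real.log N + 1) ≤
        1400 * T * (1 + Real.log N) / Real.log T := by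
      have : 53 * (8 * π / Real.log T) * T * (Real.log N + 1) =
        (424 * π) * T * (1 + Real.log N) / Real.log T := by ring
      rw [this]
      gcongr
      linarith
    linarith
  · have h1 : Real.log T ≤ 26 := by
      have := Real.log_le_log (by linarith) hsmall.le
      rwa [Real.log_exp] at this
    have h2 : T / 2 ≤ 1400 * T * (1 + Real.log N) / Real.log T := by
      rw [le_div_iff₀ hlogT]
      nlinarith [mul_nonneg (by linarith : 0 ≤ T) hlogN]
    have h3 : 0 ≤ ∫ t in Ioc T (2 * T), Pη 0 (-(eTh t * DP a N (pt σ t))) :=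
      integral_nonneg fun t => Pη_nonneg _ _
    linarith
  · have h1 := DP_lower hbig ha ha1 hN hσ hσ5 (le_refl 0)
      (u := fun t => -ph (DP a N (pt σ t)))
      (measurable_ph.comp (continuous_DP_pt a N σ).measurable).neg
      (fun t => by
        rcases ph_zero_or (z := DP a N (pt σ t)) with h | h
        · left; rw [h, neg_zero]
        · right; rw [norm_neg, h]) (fun t => norm_neg _)
      (fun t s => by rw [← norm_neg]; congr 1; ring)
    have h2 : ∀ t, Pη 0 (-(eTh t * DP a N (pt σ t))) = Pη 0 (eTh t * -ph (DP a N (pt σ t))) := by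
      intro t
      have e1 : -(eTh t * DP a N (pt σ t)) = (-eTh t) * DP a N (pt σ t) := by ring
      have e2 : eTh t * -ph (DP a N (pt σ t)) = (-eTh t) * ph (DP a N (pt σ t)) := by ring
      rw [e1, e2, Pη_ph]
    simp_rw [h2]
    refine le_trans ?_ h1
    have h3 : 53 * (8 * π / Real.log T) * T * (Real.log N + 1) ≤
        1400 * T * (1 + Real.log N) / Real.log T := by
      have : 53 * (8 * π / Real.log T) * T * (Real.log N + 1) =
        (424 * π) * T * (1 + Real.log N) / Real.log T := by ring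
      rw [this]
      gcongr
      linarith
    linarith

end Pool.Agent.H77.HZ
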