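import Pool.Agent.H77.HZ.Blk2

/-!
# The mean square of `ζ(s) ∑_{d ≤ e^v} μ(d) (v - log d) d^{-s} - v`
-/

namespace Pool.Agent.H77.HZ

open MeasureTheory Set Real
open Pool.Agent.PC10

/-- `∑_{d ≤ D} μ(d) max(v - log d, 0) d^{-s}` -/
noncomputable def BD (D : ℕ) (v : ℝ) (s : ℂ) : ℂ :=
  ∑ d ∈ Finset.Ioc 0 D,
    (((ArithmeticFunction.moebius d : ℝ) * max (v - Real.log d) 0 : ℝ) : ℂ) * (d:ℂ) ^ (-s)

/-- `ζ(s) BD(s) - v` -/
noncomputable def FD (D : ℕ) (v : ℝ) (s : ℂ) : ℂ := riemannZeta s * BD D v s - v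

lemma BD_zero (D : ℕ) (s : ℂ) : BD D 0 s = 0 := by
  unfold BD
  refine Finset.sum_eq_zero fun d hd => ?_
  have hd1 : (1:ℝ) ≤ d := by
    simp only [Finset.mem_Ioc] at hd
    exact_mod_cast hd.1
  have h0 : 0 - Real.log d ≤ 0 := by
    have := Real.log_nonneg hd1
    linarith
  rw [max_eq_right h0]
  simp

lemma FD_zero (D : ℕ) (s : ℂ) : FD D 0 s = 0 := by
  unfold FD; rw [BD_zero]; simp

lemma posLog_exp_div {q : ℝ} {d : ℕ} (hd : 0 < d) :
    Real.posLog (exp q / d) = max (q - Real.log d) 0 := by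
  have hd0 : (0:ℝ) < d := by exact_mod_cast hd
  show max 0 (Real.log (exp q / d)) = _
  rw [Real.log_div (exp_pos _).ne' hd0.ne', Real.log_exp, max_comm]

lemma moll_eq_BD {p q : ℝ} (hpq : p < q) {D : ℕ} (hD : ⌊exp q⌋₊ ≤ D) (s : ℂ) :
    ((q - p : ℝ) : ℂ) * PairCorr.moll (lam (exp p) (exp q)) ⌊exp q⌋₊ s = BD D q s - BD D p s := by
  have hd : 0 < q - p := by linarith
  unfold BD PairCorr.moll
  rw [← Finset.sum_sub_distrib, Finset.mul_sum]
  have hIcc : Finset.Icc 1 ⌊exp q⌋₊ = Finset.Ioc 0 ⌊exp q⌋₊ := by ext; simp; omega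
  rw [hIcc]
  have hsub : Finset.Ioc 0 ⌊exp q⌋₊ ⊆ Finset.Ioc 0 D := Finset.Ioc_subset_Ioc_right hD
  rw [← Finset.sum_subset hsub]
  · refine Finset.sum_congr rfl fun d hd' => ?_
    simp only [Finset.mem_Ioc] at hd'
    unfold lam
    rw [posLog_exp_div hd'.1, posLog_exp_div hd'.1, BlkH.logyw, ← mul_assoc, ← sub_mul]
    congr 1
    rw [← Complex.ofReal_mul, ← Complex.ofReal_sub]
    congr 1
    field_simp
  · intro d hd1 hd2
    simp only [Finset.mem_Ioc, not_and, not_le] at hd1 hd2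
    have hdq : exp q < d := (Nat.floor_lt (exp_pos _).le).mp (hd2 hd1.1)
    have hlog : q ≤ Real.log d := by
      have := Real.log_le_log (exp_pos _) hdq.le
      rwa [Real.log_exp] at this
    rw [max_eq_right (by linarith : q - Real.log d ≤ 0),
      max_eq_right (by linarith : p - Real.log d ≤ 0)]
    simp

lemma zb_eq_FD {p q : ℝ} (hpq : p < q) {D : ℕ} (hD : ⌊exp q⌋₊ ≤ D) (s : ℂ) :
    ((q - p : ℝ) : ℂ) * zb p q s = FD D q s - FD D p s := by
  unfold zb FD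
  rw [mul_sub, mul_left_comm, moll_eq_BD hpq hD]
  push_cast
  ring

lemma norm_FD_sub {p q : ℝ} (hpq : p < q) {D : ℕ} (hD : ⌊exp q⌋₊ ≤ D) (s : ℂ) :
    ‖FD D q s - FD D p s‖ ^ 2 = (q - p) ^ 2 * ‖zb p q s‖ ^ 2 := by
  rw [← zb_eq_FD hpq hD, norm_mul, Complex.norm_real, Real.norm_eq_abs, mul_pow, sq_abs]

lemma continuous_BD (D : ℕ) : Continuous fun x : ℝ × ℂ => BD D x.1 x.2 := by
  unfold BD
  apply continuous_finsetSum
  intro d hd
  simp only [Finset.mem_Ioc] at hd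
  apply Continuous.mul
  · apply Complex.continuous_ofReal.comp
    apply Continuous.mul continuous_const
    exact (continuous_fst.sub continuous_const).max continuous_const
  · apply Continuous.const_cpow (by fun_prop)
    left
    exact_mod_cast (by omega : d ≠ 0)

lemma continuousOn_zeta_line (σ : ℝ) :
    ContinuousOn (fun t : ℝ => riemannZeta (σ + t * Complex.I)) (Ici 1) := by
  intro t ht
  apply ContinuousAt.continuousWithinAt
  have hne : (σ + t * Complex.I : ℂ) ≠ 1 := by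
    intro h
    have := congrArg Complex.im h
    simp at this
    have h1 : (1:ℝ) ≤ t := ht
    linarith
  have h1 := (differentiableAt_riemannZeta hne).continuousAt
  exact ContinuousAt.comp (f := fun t : ℝ => (σ + t * Complex.I : ℂ)) h1 (by fun_prop)

lemma continuousOn_FD2 (D : ℕ) (σ : ℝ) :
    ContinuousOn (fun x : ℝ × ℝ => FD D x.1 (σ + x.2 * Complex.I)) (univ ×ˢ Ici 1) := by
  unfold FD
  apply ContinuousOn.sub
  · apply ContinuousOn.mul
    · exact (continuousOn_zeta_line σ).comp continuousOn_snd (fun x hx => hx.2)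
    · apply Continuous.continuousOn
      exact (continuous_BD D).comp (f := fun x : ℝ × ℝ => ((x.1, (σ + x.2 * Complex.I : ℂ)) : ℝ × ℂ))
        (by fun_prop)
  · apply Continuous.continuousOn
    fun_prop

lemma continuousOn_FD (D : ℕ) (v σ : ℝ) :
    ContinuousOn (fun t : ℝ => FD D v (σ + t * Complex.I)) (Ici 1) :=
  (continuousOn_FD2 D σ).comp (f := fun t : ℝ => ((v, t) : ℝ × ℝ)) (by fun_prop)
    (fun t ht => ⟨mem_univ _, ht⟩)

lemma geom_le {r : ℝ} (hr : r < 1) (hr0 : 0 ≤ r) (n : ℕ) :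
    ∑ j ∈ Finset.range n, r ^ j ≤ 1 / (1 - r) := by
  rw [le_div_iff₀ (by linarith), mul_comm, mul_neg_geom_sum]
  have : 0 ≤ r ^ n := by positivity
  linarith

lemma sum_exp_half (n : ℕ) : ∑ j ∈ Finset.range n, exp (-(j / 2 : ℝ)) ≤ 3 := by
  have h1 : exp (-(1/2:ℝ)) ≤ 2 / 3 := by
    rw [exp_neg, inv_le_comm₀ (exp_pos _) (by norm_num)]
    have := add_one_le_exp (1/2:ℝ)
    linarith
  have h2 : ∀ j ∈ Finset.range n, exp (-(j / 2 : ℝ)) = exp (-(1/2:ℝ)) ^ j := by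
    intro j _
    rw [← exp_nat_mul]; congr 1; ring
  rw [Finset.sum_congr rfl h2]
  refine (geom_le (by linarith) (exp_pos _).le n).trans ?_
  rw [div_le_iff₀ (by linarith)]
  linarith

lemma sum_exp_quarter (n : ℕ) :
    ∑ j ∈ Finset.range n, ((j:ℝ) + 3) ^ 2 * exp (-(j / 2 : ℝ)) ≤ 180 := by
  have h1 : exp (-(1/4:ℝ)) ≤ 4 / 5 := by
    rw [exp_neg, inv_le_comm₀ (exp_pos _) (by norm_num)]
    have := add_one_le_exp (1/4:ℝ)
    linarith
  have h2 : ∀ j ∈ Finset.range n, ((j:ℝ) + 3) ^ 2 * exp (-(j / 2 : ℝ)) ≤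
      36 * exp (-(1/4:ℝ)) ^ j := by
    intro j _
    have hj : (0:ℝ) ≤ j := Nat.cast_nonneg j
    have e1 : exp (-(1/4:ℝ)) ^ j = exp (-(j / 4 : ℝ)) := by
      rw [← exp_nat_mul]; congr 1; ring
    have e2 : exp (-(j / 2 : ℝ)) = exp (-(j / 4 : ℝ)) * exp (-(j / 4 : ℝ)) := by
      rw [← exp_add]; congr 1; ring
    have e3 := Real.quadratic_le_exp_of_nonneg (x := (j:ℝ) / 8) (by positivity)
    have e4 : (j:ℝ) + 3 ≤ 6 * exp (j / 8 : ℝ) := by nlinarith [sq_nonneg ((j:ℝ) - 3)]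
    have e5 : ((j:ℝ) + 3) ^ 2 ≤ 36 * exp (j / 4 : ℝ) := by
      calc ((j:ℝ) + 3) ^ 2 ≤ (6 * exp (j / 8 : ℝ)) ^ 2 := by gcongr
        _ = 36 * (exp (j / 8 : ℝ) * exp (j / 8 : ℝ)) := by ring
        _ = 36 * exp (j / 4 : ℝ) := by rw [← exp_add]; congr 2; ring
    have e6 : exp (j / 4 : ℝ) * exp (-(j / 4 : ℝ)) = 1 := by rw [← exp_add]; simp
    rw [e1, e2]
    calc ((j:ℝ) + 3) ^ 2 * (exp (-(j / 4 : ℝ)) * exp (-(j / 4 : ℝ)))
        ≤ (36 * exp (j / 4 : ℝ)) * (exp (-(j / 4 : ℝ)) * exp (-(j / 4 : ℝ))) := by gcongr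
      _ = 36 * (exp (j / 4 : ℝ) * exp (-(j / 4 : ℝ))) * exp (-(j / 4 : ℝ)) := by ring
      _ = 36 * exp (-(j / 4 : ℝ)) := by rw [e6]; ring
  refine (Finset.sum_le_sum h2).trans ?_
  rw [← Finset.mul_sum]
  have h3 := geom_le (r := exp (-(1/4:ℝ))) (by linarith) (exp_pos _).le n
  have h4 : 1 / (1 - exp (-(1/4:ℝ))) ≤ 5 := by
    rw [div_le_iff₀ (by linarith)]
    linarith
  linarith

/-- constant -/
noncomputable def Cb : ℝ := 3 * 10 ^ 6 * π * exp 27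

lemma Cb_pos : 0 < Cb := by unfold Cb; positivity

lemma norm_sum_sq_le (n : ℕ) (b : ℕ → ℂ) :
    ‖∑ j ∈ Finset.range n, b j‖ ^ 2 ≤
      3 * ∑ j ∈ Finset.range n, exp (j / 2 : ℝ) * ‖b j‖ ^ 2 := by
  have h1 : ‖∑ j ∈ Finset.range n, b j‖ ≤ ∑ j ∈ Finset.range n, ‖b j‖ := norm_sum_le _ _
  have h2 : (∑ j ∈ Finset.range n, ‖b j‖) ^ 2 ≤
      (∑ j ∈ Finset.range n, exp (-(j / 2 : ℝ))) *
        ∑ j ∈ Finset.range n, exp (j / 2 : ℝ) * ‖b j‖ ^ 2 := by
    apply Finset.sum_sq_le_sum_mul_sum_of_sq_le_mul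
    · intro j _; positivity
    · intro j _; positivity
    · intro j _
      have : exp (-(j / 2 : ℝ)) * exp (j / 2 : ℝ) = 1 := by rw [← exp_add]; simp
      apply le_of_eq
      linear_combination (-‖b j‖ ^ 2) * this
  have h3 := sum_exp_half n
  have h4 : 0 ≤ ∑ j ∈ Finset.range n, exp (j / 2 : ℝ) * ‖b j‖ ^ 2 :=
    Finset.sum_nonneg fun j _ => by positivity
  calc ‖∑ j ∈ Finset.range n, b j‖ ^ 2 ≤ (∑ j ∈ Finset.range n, ‖b j‖) ^ 2 := by gcongr
    _ ≤ _ := h2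
    _ ≤ _ := mul_le_mul_of_nonneg_right h3 h4

/-- **The uniform mean square bound.** -/
theorem FD_moment {T v σ κ : ℝ} (hT : exp 16 ≤ T) (hv0 : 0 ≤ v) (hv : v ≤ Real.log T / 8)
    {D : ℕ} (hD : ⌊exp v⌋₊ ≤ D) (hσ : 1 / 2 ≤ σ) (hσ5 : σ ≤ 5) (hκ : 2 / Real.log T ≤ κ)
    (hκ1 : κ ≤ 1) (hκσ : κ ≤ 2 * σ - 1 + 2 / Real.log T) :
    ∫ t in Ioc 1 T, ‖FD D v (σ + t * Complex.I)‖ ^ 2 ≤ 540 * Cb * (T * (1 / κ) ^ 2) := by
  have h0 := hT0 hT
  have h16 := hT16 hT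
  have hκ0 : 0 < κ := lt_of_lt_of_le (by positivity) hκ
  have hC := Cb_pos
  set s : ℝ := 1 / κ with hs
  have hs1 : 1 ≤ s := by rw [hs, le_div_iff₀ hκ0]; linarith
  have hsκ : s * κ = 1 := by rw [hs]; field_simp
  set n : ℕ := ⌈v * κ⌉₊ with hn
  set P : ℕ → ℝ := fun j => min (j * s) v with hP
  have hP0 : P 0 = 0 := by simp [hP, hv0]
  have hPn : P n = v := by
    show min ((n:ℝ) * s) v = v
    apply min_eq_right
    have h1 : v * κ ≤ n := Nat.le_ceil _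
    have h2 : v * κ * s ≤ n * s := by gcongr
    have h3 : v * κ * s = v := by rw [mul_assoc, mul_comm κ s, hsκ, mul_one]
    linarith
  have hPlt : ∀ j ∈ Finset.range n, P j = j * s ∧ P j < P (j + 1) ∧ P (j + 1) ≤ v ∧
      P (j + 1) ≤ (j + 1) * s := by
    intro j hj
    rw [Finset.mem_range, hn, Nat.lt_ceil] at hj
    have h2 : (j:ℝ) * s < v := by
      have h3 : (j:ℝ) * s < v * κ * s := by gcongr
      have h4 : v * κ * s = v := by rw [mul_assoc, mul_comm κ s, hsκ, mul_one]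
      linarith
    have h3 : P j = j * s := min_eq_left h2.le
    refine ⟨h3, ?_, min_le_right _ _, ?_⟩
    · rw [h3]
      show (j:ℝ) * s < min (((j + 1 : ℕ) : ℝ) * s) v
      apply lt_min _ h2
      push_cast
      linarith
    · have := min_le_left (((j + 1 : ℕ) : ℝ) * s) v
      push_cast at this
      show min (((j + 1 : ℕ) : ℝ) * s) v ≤ _
      push_cast
      exact this
  have htel : ∀ z : ℂ, FD D v z = ∑ j ∈ Finset.range n, (FD D (P (j + 1)) z - FD D (P j) z) := by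
    intro z
    rw [Finset.sum_range_sub (fun j => FD D (P j) z), hPn, hP0, FD_zero, sub_zero]
  have hblk : ∀ j ∈ Finset.range n, BlkH T (P j) (P (j + 1)) := by
    intro j hj
    obtain ⟨e1, e2, e3, _⟩ := hPlt j hj
    refine ⟨hT, ?_, e2, by linarith⟩
    rw [e1]; positivity
  have hDj : ∀ j ∈ Finset.range n, ⌊exp (P (j + 1))⌋₊ ≤ D := by
    intro j hj
    refine le_trans (Nat.floor_le_floor ?_) hD
    exact exp_le_exp.mpr (hPlt j hj).2.2.1
  have hii : ∀ (a b : ℝ), IntegrableOn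
      (fun t : ℝ => ‖FD D a (σ + t * Complex.I) - FD D b (σ + t * Complex.I)‖ ^ 2) (Ioc 1 T) := by
    intro a b
    have h1 : ContinuousOn (fun t : ℝ =>
        ‖FD D a (σ + t * Complex.I) - FD D b (σ + t * Complex.I)‖ ^ 2) (Icc 1 T) :=
      (((continuousOn_FD D a σ).sub (continuousOn_FD D b σ)).norm.pow 2).mono
        (fun t ht => ht.1)
    exact h1.integrableOn_Icc.mono_set Ioc_subset_Icc_self
  have hiv : IntegrableOn (fun t : ℝ => ‖FD D v (σ + t * Complex.I)‖ ^ 2) (Ioc 1 T) := by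
    have h1 : ContinuousOn (fun t : ℝ => ‖FD D v (σ + t * Complex.I)‖ ^ 2) (Icc 1 T) :=
      ((continuousOn_FD D v σ).norm.pow 2).mono (fun t ht => ht.1)
    exact h1.integrableOn_Icc.mono_set Ioc_subset_Icc_self
  have hstep : ∫ t in Ioc 1 T, ‖FD D v (σ + t * Complex.I)‖ ^ 2 ≤
      ∫ t in Ioc 1 T, 3 * ∑ j ∈ Finset.range n, exp (j / 2 : ℝ) *
        ‖FD D (P (j + 1)) (σ + t * Complex.I) - FD D (P j) (σ + t * Complex.I)‖ ^ 2 := by
    apply setIntegral_mono_on hiv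
    · apply Integrable.const_mul
      apply integrable_finsetSum
      intro j _
      exact (hii _ _).const_mul _
    · exact measurableSet_Ioc
    · intro t _
      rw [htel]
      exact norm_sum_sq_le n _
  refine hstep.trans ?_
  rw [integral_const_mul, integral_finsetSum _ (fun j _ => (hii _ _).const_mul _)]
  have hj : ∀ j ∈ Finset.range n, ∫ t in Ioc 1 T, exp (j / 2 : ℝ) *
      ‖FD D (P (j + 1)) (σ + t * Complex.I) - FD D (P j) (σ + t * Complex.I)‖ ^ 2 ≤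
      Cb * (T * s ^ 2) * (((j:ℝ) + 3) ^ 2 * exp (-(j / 2 : ℝ))) := by
    intro j hj
    obtain ⟨e1, e2, e3, e4⟩ := hPlt j hj
    have e5 := (hblk j hj).moment hσ hσ5 hκ hκ1 hκσ
    rw [integral_const_mul]
    have e6 : ∫ t in Ioc 1 T,
        ‖FD D (P (j + 1)) (σ + t * Complex.I) - FD D (P j) (σ + t * Complex.I)‖ ^ 2 =
        ∫ t in Ioc 1 T, (P (j + 1) - P j) ^ 2 * ‖zb (P j) (P (j + 1)) (σ + t * Complex.I)‖ ^ 2 := by
      congr 1
      funext t
      exact norm_FD_sub e2 (hDj j hj) _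
    rw [e6]
    have hj0 : (0:ℝ) ≤ j := Nat.cast_nonneg j
    have e7 : 1 + 1 / κ + P (j + 1) ≤ ((j:ℝ) + 3) * s := by
      rw [← hs]
      nlinarith
    have e8 : 0 ≤ 1 + 1 / κ + P (j + 1) := by
      have : 0 ≤ P j := by rw [e1]; positivity
      have : 0 < 1 / κ := by positivity
      linarith
    have e9 : exp (-(P j * κ)) = exp (-(j / 2 : ℝ)) * exp (-(j / 2 : ℝ)) := by
      rw [← exp_add, e1, mul_assoc, hsκ]; congr 1; ring
    have e10 : exp (j / 2 : ℝ) * exp (-(j / 2 : ℝ)) = 1 := by rw [← exp_add]; simp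
    calc exp (j / 2 : ℝ) * ∫ t in Ioc 1 T, (P (j + 1) - P j) ^ 2 *
          ‖zb (P j) (P (j + 1)) (σ + t * Complex.I)‖ ^ 2
        ≤ exp (j / 2 : ℝ) * (Cb * (T * exp (-(P j * κ)) * (1 + 1 / κ + P (j + 1)) ^ 2)) := by
          gcongr
          exact e5
      _ ≤ exp (j / 2 : ℝ) * (Cb * (T * exp (-(P j * κ)) * (((j:ℝ) + 3) * s) ^ 2)) := by gcongr
      _ = (exp (j / 2 : ℝ) * exp (-(j / 2 : ℝ))) *
            (Cb * (T * s ^ 2) * (((j:ℝ) + 3) ^ 2 * exp (-(j / 2 : ℝ)))) := by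
          rw [e9]; ring
      _ = _ := by rw [e10, one_mul]
  have hsum := Finset.sum_le_sum hj
  rw [← Finset.mul_sum] at hsum
  have h180 := sum_exp_quarter n
  have hc : 0 ≤ Cb * (T * s ^ 2) := by positivity
  calc 3 * ∑ j ∈ Finset.range n, ∫ t in Ioc 1 T, exp (j / 2 : ℝ) *
      ‖FD D (P (j + 1)) (σ + t * Complex.I) - FD D (P j) (σ + t * Complex.I)‖ ^ 2
      ≤ 3 * (Cb * (T * s ^ 2) *
        ∑ j ∈ Finset.range n, (((j:ℝ) + 3) ^ 2 * exp (-(j / 2 : ℝ)))) := by gcongr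
    _ ≤ 3 * (Cb * (T * s ^ 2) * 180) := by gcongr
    _ = 540 * Cb * (T * s ^ 2) := by ring

end Pool.Agent.H77.HZ
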